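import Pool.Agent.Lib_helper61.BXF.LM3

set_option autoImplicit false

namespace Pool.Agent.BX

open MeasureTheory Complex Finset
open Pool.Agent.SGN
open Pool.Agent.QG (ew)
open scoped ENNReal

noncomputable section

theorem lm_int_exp : Integrable (fun u : ℝ => Real.exp (-|u|)) := by
  have h := exp_neg_integrableOn_Ioi 0 (b := 1) one_pos
  rw [← integrableOn_univ, ← Set.Iic_union_Ioi (a := (0 : ℝ))]
  refine IntegrableOn.union ?_ ?_
  · refine (integrableOn_exp_Iic 0).congr_fun (fun u hu => ?_) measurableSet_Iic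
    simp only [abs_of_nonpos (Set.mem_Iic.mp hu), neg_neg]
  · refine h.congr_fun (fun u hu => ?_) measurableSet_Ioi
    simp only [abs_of_pos (Set.mem_Ioi.mp hu)]
    congr 1
    ring

theorem lm_bound {D : ℝ → ℂ} {s₀ : ℂ} {C : ℝ}
    (hC : ∀ u : ℝ, ‖D u‖ ≤ C * Real.exp (-((|s₀.re| + 4) * |u|))) :
    (∀ s ∈ Metric.ball s₀ 1, ∀ u : ℝ, ‖D u * (cexp ((s - 1 / 2) * u) * u)‖ ≤
      C * Real.exp (-|u|)) ∧
    ∀ u : ℝ, ‖D u * cexp ((s₀ - 1 / 2) * u)‖ ≤ C * Real.exp (-|u|) := by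
  have hexp : ∀ s ∈ Metric.ball s₀ 1, ∀ u : ℝ, ‖cexp ((s - 1 / 2) * u)‖ ≤
      Real.exp ((|s₀.re| + 2) * |u|) := by
    intro s hs u
    rw [Complex.norm_exp]
    apply Real.exp_le_exp.mpr
    have h1 : ((s - 1 / 2) * (u : ℂ)).re = (s.re - 1 / 2) * u := by
      rw [Complex.mul_re, Complex.ofReal_re, Complex.ofReal_im]
      simp
    rw [h1]
    calc (s.re - 1 / 2) * u ≤ |(s.re - 1 / 2) * u| := le_abs_self _
      _ = |s.re - 1 / 2| * |u| := abs_mul _ _
      _ ≤ (|s₀.re| + 2) * |u| := by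
          refine mul_le_mul_of_nonneg_right ?_ (abs_nonneg _)
          have h2 : |s.re - s₀.re| ≤ 1 := by
            have : |(s - s₀).re| ≤ ‖s - s₀‖ := Complex.abs_re_le_norm _
            rw [Complex.sub_re] at this
            rw [Metric.mem_ball, dist_eq_norm] at hs
            linarith
          have h3 : |s.re - 1 / 2| ≤ |s.re - s₀.re| + |s₀.re| + 1 / 2 := by
            rw [abs_le] at h2 ⊢
            have h4 := le_abs_self s₀.re
            have h5 := neg_abs_le s₀.re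
            have h6 := le_abs_self (s.re - s₀.re)
            have h7 := neg_abs_le (s.re - s₀.re)
            constructor <;> linarith
          linarith
  have hu : ∀ u : ℝ, |u| ≤ Real.exp |u| := fun u => by
    have := Real.add_one_le_exp |u|
    linarith
  constructor
  · intro s hs u
    rw [norm_mul, norm_mul, Complex.norm_real, Real.norm_eq_abs]
    have hC0 : 0 ≤ C * Real.exp (-((|s₀.re| + 4) * |u|)) := le_trans (norm_nonneg _) (hC u)
    calc ‖D u‖ * (‖cexp ((s - 1 / 2) * u)‖ * |u|)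
        ≤ (C * Real.exp (-((|s₀.re| + 4) * |u|))) *
          (Real.exp ((|s₀.re| + 2) * |u|) * Real.exp |u|) := by
          refine mul_le_mul (hC u) ?_ (by positivity) hC0
          exact mul_le_mul (hexp s hs u) (hu u) (abs_nonneg _) (by positivity)
      _ = C * Real.exp (-|u|) := by
          rw [mul_assoc, ← Real.exp_add, ← Real.exp_add]
          congr 2
          ring
  · intro u
    rw [norm_mul]
    have hC0 : 0 ≤ C * Real.exp (-((|s₀.re| + 4) * |u|)) := le_trans (norm_nonneg _) (hC u)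
    calc ‖D u‖ * ‖cexp ((s₀ - 1 / 2) * u)‖
        ≤ (C * Real.exp (-((|s₀.re| + 4) * |u|))) *
          (Real.exp ((|s₀.re| + 2) * |u|) * Real.exp |u|) := by
          refine mul_le_mul (hC u) ?_ (by positivity) hC0
          refine le_trans (hexp s₀ (Metric.mem_ball_self one_pos) u) ?_
          exact le_mul_of_one_le_right (by positivity) (Real.one_le_exp (abs_nonneg _))
      _ = C * Real.exp (-|u|) := by
          rw [mul_assoc, ← Real.exp_add, ← Real.exp_add]
          congr 2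
          ring

theorem lm_integrable {D : ℝ → ℂ} (hD : Continuous D)
    (hdec : ∀ A : ℝ, ∃ C : ℝ, ∀ u : ℝ, ‖D u‖ ≤ C * Real.exp (-(A * |u|))) (s : ℂ) :
    Integrable (fun u : ℝ => D u * cexp ((s - 1 / 2) * u)) := by
  obtain ⟨C, hC⟩ := hdec (|s.re| + 4)
  have hcont : Continuous (fun u : ℝ => D u * cexp ((s - 1 / 2) * u)) := by fun_prop
  exact (lm_int_exp.const_mul C).mono' hcont.aestronglyMeasurable
    (Filter.Eventually.of_forall (lm_bound hC).2)

theorem lm_entire {D : ℝ → ℂ} (hD : Continuous D)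
    (hdec : ∀ A : ℝ, ∃ C : ℝ, ∀ u : ℝ, ‖D u‖ ≤ C * Real.exp (-(A * |u|))) :
    Differentiable ℂ (fun s : ℂ => ∫ u : ℝ, D u * cexp ((s - 1 / 2) * u)) := by
  intro s₀
  obtain ⟨C, hC⟩ := hdec (|s₀.re| + 4)
  have hcont : ∀ s : ℂ, Continuous (fun u : ℝ => D u * cexp ((s - 1 / 2) * u)) := by
    intro s
    fun_prop
  have hint : Integrable (fun u : ℝ => C * Real.exp (-|u|)) := lm_int_exp.const_mul C
  have h := hasDerivAt_integral_of_dominated_loc_of_deriv_le (μ := volume)
    (F := fun (s : ℂ) (u : ℝ) => D u * cexp ((s - 1 / 2) * u))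
    (F' := fun (s : ℂ) (u : ℝ) => D u * (cexp ((s - 1 / 2) * u) * u))
    (x₀ := s₀) (s := Metric.ball s₀ 1) (bound := fun u => C * Real.exp (-|u|))
    (Metric.ball_mem_nhds s₀ one_pos)
    (Filter.Eventually.of_forall fun s => (hcont s).aestronglyMeasurable)
    (hint.mono' (hcont s₀).aestronglyMeasurable (Filter.Eventually.of_forall (lm_bound hC).2))
    (by
      apply Continuous.aestronglyMeasurable
      fun_prop)
    (Filter.Eventually.of_forall fun u s hs => (lm_bound hC).1 s hs u) hint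
    (by
      refine Filter.Eventually.of_forall fun u s hs => ?_
      have h1 : HasDerivAt (fun s : ℂ => (s - 1 / 2) * (u : ℂ)) (u : ℂ) s := by
        simpa using ((hasDerivAt_id s).sub_const (1 / 2 : ℂ)).mul_const (u : ℂ)
      exact (h1.cexp).const_mul (D u))
  exact h.2.differentiableAt

theorem lm_dec {n : ℕ} (μ : Fin n → ℂ) (h : ∀ j, |(μ j).re| < 1 / 2) (lam : ℕ → ℂ)
    (hl : Triv n lam) (q : ℕ) (hq : 1 ≤ q) (e : ℂ) (he : FEq q μ lam e) (A : ℝ) :
    ∃ C : ℝ, ∀ u : ℝ, ‖D0 μ lam u‖ ≤ C * Real.exp (-(A * |u|)) := by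
  have hK : Kok ({μ} : Set (Fin n → ℂ)) := by
    refine ⟨isCompact_singleton, ?_⟩
    intro ν hν
    rw [Set.mem_singleton_iff] at hν
    subst hν
    exact h
  obtain ⟨C₁, hC₁, hb⟩ := D0_bd ({μ} : Set (Fin n → ℂ)) hK (max A ((n : ℝ) + 1)) (le_max_right _ _)
  have hb' := hb μ (Set.mem_singleton _) lam hl
  set B : ℝ := max A ((n : ℝ) + 1) with hB
  have hAB : A ≤ B := le_max_left _ _
  have hB0 : 0 ≤ B := le_trans (by positivity) (le_max_right A ((n : ℝ) + 1))
  have hlq : 0 ≤ Real.log q := Real.log_nonneg (by exact_mod_cast hq)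
  refine ⟨C₁ * Real.exp (B * Real.log q), fun u => ?_⟩
  rcases le_total 0 u with hu | hu
  · rw [abs_of_nonneg hu]
    refine (hb' u).trans ?_
    rw [mul_assoc, ← Real.exp_add]
    refine mul_le_mul_of_nonneg_left (Real.exp_le_exp.2 ?_) hC₁
    have h1 : A * u ≤ B * u := mul_le_mul_of_nonneg_right hAB hu
    have h2 : 0 ≤ B * Real.log q := mul_nonneg hB0 hlq
    linarith
  · rw [abs_of_nonpos hu]
    have h3 : ‖D0 μ lam u‖ = ‖D0 μ lam (-u - Real.log q)‖ := by
      rw [he.2 u, norm_mul, he.1, one_mul, RCLike.norm_conj]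
    rw [h3]
    refine (hb' _).trans ?_
    rw [mul_assoc, ← Real.exp_add]
    refine mul_le_mul_of_nonneg_left (Real.exp_le_exp.2 ?_) hC₁
    have h1 : A * (-u) ≤ B * (-u) := mul_le_mul_of_nonneg_right hAB (by linarith)
    nlinarith

theorem D0_int_pr {n : ℕ} (μ : Fin n → ℂ) (h : ∀ j, |(μ j).re| < 1 / 2) (lam : ℕ → ℂ)
    (hl : Triv n lam) (q : ℕ) (hq : 1 ≤ q) (e : ℂ) (he : FEq q μ lam e) (s : ℂ) :
    Integrable (fun v => D0 μ lam v * ew s v) :=
  lm_integrable (D0_cont μ h lam hl) (lm_dec μ h lam hl q hq e he) s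

theorem D0_entire_pr {n : ℕ} (μ : Fin n → ℂ) (h : ∀ j, |(μ j).re| < 1 / 2) (lam : ℕ → ℂ)
    (hl : Triv n lam) (q : ℕ) (hq : 1 ≤ q) (e : ℂ) (he : FEq q μ lam e) :
    Differentiable ℂ (Lap (D0 μ lam)) :=
  lm_entire (D0_cont μ h lam hl) (lm_dec μ h lam hl q hq e he)

theorem lm_fe {q : ℕ} (hq : 1 ≤ q) {D : ℝ → ℂ} {e : ℂ}
    (fe : ∀ v : ℝ, D v = e * (starRingEnd ℂ) (D (-v - Real.log q))) (s : ℂ) :
    Lap D s = e * (q : ℂ) ^ (1 / 2 - s) * starRingEnd ℂ (Lap D (1 - starRingEnd ℂ s)) := by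
  have hq0 : (q : ℂ) ≠ 0 := by exact_mod_cast (by omega : q ≠ 0)
  have hlog : ((Real.log q : ℝ) : ℂ) = Complex.log q := by
    rw [Complex.natCast_log]
  unfold Lap ew
  rw [← integral_conj]
  have h1 : ∀ v : ℝ, D v * cexp ((s - 1 / 2) * v) =
      (fun u : ℝ => e * (starRingEnd ℂ) (D u) *
        cexp ((s - 1 / 2) * (((-u - Real.log q : ℝ)) : ℂ))) (-v - Real.log q) := by
    intro v
    simp only
    rw [fe v]
    congr 3
    push_cast
    ring
  have h2 : ∫ v : ℝ, D v * cexp ((s - 1 / 2) * v) =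
      ∫ u : ℝ, e * (starRingEnd ℂ) (D u) *
        cexp ((s - 1 / 2) * (((-u - Real.log q : ℝ)) : ℂ)) := by
    rw [integral_congr_ae (Filter.Eventually.of_forall h1)]
    have h3 := integral_sub_left_eq_self (fun u : ℝ => e * (starRingEnd ℂ) (D u) *
        cexp ((s - 1 / 2) * (((-u - Real.log q : ℝ)) : ℂ))) (volume : Measure ℝ) (-Real.log q)
    rw [← h3]
    apply integral_congr_ae
    refine Filter.Eventually.of_forall fun v => ?_
    simp only
    rw [show -v - Real.log q = -Real.log q - v by ring]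
  rw [h2, ← integral_const_mul]
  apply integral_congr_ae
  refine Filter.Eventually.of_forall fun u => ?_
  simp only
  rw [map_mul, ← Complex.exp_conj, map_mul, map_sub, map_sub, map_one, map_div₀, map_one,
    Complex.conj_conj, Complex.conj_ofReal, map_ofNat]
  rw [Complex.cpow_def_of_ne_zero hq0, ← hlog]
  have : cexp ((s - 1 / 2) * (((-u - Real.log q : ℝ)) : ℂ)) =
      cexp ((Real.log q : ℝ) * (1 / 2 - s)) * cexp ((1 - s - 1 / 2) * u) := by
    rw [← Complex.exp_add]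
    congr 1
    push_cast
    ring
  rw [this]
  ring

theorem lambda_exists_pr {n : ℕ} (hn : 1 ≤ n) (μ : Fin n → ℂ) (h : ∀ j, |(μ j).re| < 1 / 2)
    (lam : ℕ → ℂ) (hl : Triv n lam) (q : ℕ) (hq : 1 ≤ q) (e : ℂ) (he : FEq q μ lam e) :
    IsLambda q μ lam fun s => (q : ℂ) ^ (s / 2) * Lap (D0 μ lam) s := by
  have hq0 : (q : ℂ) ≠ 0 := by exact_mod_cast (by omega : q ≠ 0)
  have hd2 : Differentiable ℂ (fun s : ℂ => (q : ℂ) ^ (s / 2)) := by
    intro z
    apply DifferentiableAt.const_cpow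
    · fun_prop
    · left; exact hq0
  refine ⟨hd2.mul (D0_entire_pr μ h lam hl q hq e he), ?_, e, he.1, ?_⟩
  · intro s hs
    obtain ⟨h1, -, h3⟩ := D0_lap hn μ h lam hl s hs
    refine ⟨h1, ?_⟩
    simp only
    rw [h3]
    unfold gam
    ring
  · intro s
    simp only
    rw [lm_fe hq he.2 s, map_mul]
    have hc : starRingEnd ℂ ((q : ℂ) ^ ((1 - starRingEnd ℂ s) / 2)) =
        (q : ℂ) ^ ((1 - s) / 2) := by
      have hlog : ((Real.log q : ℝ) : ℂ) = Complex.log q := by
        rw [Complex.natCast_log]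
      rw [Complex.cpow_def_of_ne_zero hq0, Complex.cpow_def_of_ne_zero hq0, ← Complex.exp_conj,
        ← hlog, map_mul, Complex.conj_ofReal, map_div₀, map_sub, map_one, Complex.conj_conj,
        map_ofNat]
    rw [hc]
    have h2 : (q : ℂ) ^ (s / 2) * (q : ℂ) ^ (1 / 2 - s) = (q : ℂ) ^ ((1 - s) / 2) := by
      rw [← Complex.cpow_add _ _ hq0]
      congr 1
      ring
    rw [← h2]
    ring

end

end Pool.Agent.BX

namespace Pool.Agent.BX

theorem D0_int : type_of% @D0_int_pr := @D0_int_pr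
theorem D0_entire : type_of% @D0_entire_pr := @D0_entire_pr
theorem lambda_exists : type_of% @lambda_exists_pr := @lambda_exists_pr

end Pool.Agent.BX
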