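import Pool.Agent.Lib_helper61.BX.Defs

/-! # BX, blocks AR1, AR2, AR3: the transforms of the gamma densities -/

set_option autoImplicit false

namespace Pool.Agent.BX

open MeasureTheory Complex Finset
open Pool.Agent.SGN
open Pool.Agent.QG (ew ew_add norm_ew)
open scoped ENNReal

noncomputable section

theorem ar_real {x : ℝ} (hx : 0 < x) :
    Integrable (fun u : ℝ => Real.exp (-(Real.pi * Real.exp u)) * Real.exp (x * u)) := by
  have h1 := integrableOn_rpow_mul_exp_neg_mul_rpow (p := 1) (s := x - 1)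
    (b := Real.pi) (by linarith) one_pos Real.pi_pos
  rw [← Real.range_exp, ← Set.image_univ, integrableOn_image_iff_integrableOn_abs_deriv_smul
    MeasurableSet.univ (fun x _ => (Real.hasDerivAt_exp x).hasDerivWithinAt)
    Real.exp_injective.injOn, integrableOn_univ] at h1
  refine h1.congr (Filter.Eventually.of_forall fun u => ?_)
  simp only [smul_eq_mul]
  rw [abs_of_pos (Real.exp_pos u), Real.rpow_one, ← Real.exp_mul, ← Real.exp_add,
    ← Real.exp_add, ← Real.exp_add]
  congr 1
  ring

theorem ar_cplx {z : ℂ} (hz : 0 < z.re) :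
    Integrable (fun u : ℝ => ((Real.exp (-(Real.pi * Real.exp u)) : ℝ) : ℂ) * cexp (z * u)) ∧
    ∫ u : ℝ, ((Real.exp (-(Real.pi * Real.exp u)) : ℝ) : ℂ) * cexp (z * u) =
      Gamma z * (Real.pi : ℂ) ^ (-z) := by
  have hcont : Continuous fun u : ℝ => ((Real.exp (-(Real.pi * Real.exp u)) : ℝ) : ℂ) *
      cexp (z * u) := by fun_prop
  constructor
  · rw [← integrable_norm_iff hcont.aestronglyMeasurable]
    refine (ar_real hz).congr (Filter.Eventually.of_forall fun u => ?_)
    simp only [norm_mul]
    rw [Complex.norm_real, Real.norm_of_nonneg (Real.exp_pos _).le, Complex.norm_exp]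
    congr 2
    simp
  · have h1 := Complex.integral_cpow_mul_exp_neg_mul_Ioi (a := z) (r := Real.pi) hz
      (by simpa using Real.pi_pos)
    rw [← Real.range_exp, ← Set.image_univ, integral_image_eq_integral_abs_deriv_smul
      MeasurableSet.univ (fun x _ => (Real.hasDerivAt_exp x).hasDerivWithinAt)
      Real.exp_injective.injOn, setIntegral_univ] at h1
    have h2 : (fun x : ℝ => |Real.exp x| • (((Real.exp x : ℝ) : ℂ) ^ (z - 1) *
        cexp (-((Real.pi : ℂ) * ((Real.exp x : ℝ) : ℂ))))) =
        fun u : ℝ => ((Real.exp (-(Real.pi * Real.exp u)) : ℝ) : ℂ) * cexp (z * u) := by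
      funext x
      rw [abs_of_pos (Real.exp_pos x)]
      have e1 : ((Real.exp x : ℝ) : ℂ) ^ (z - 1) = cexp (x * (z - 1)) := by
        rw [Complex.cpow_def_of_ne_zero (by exact_mod_cast (Real.exp_pos x).ne'),
          ← Complex.ofReal_log (Real.exp_pos x).le, Real.log_exp]
      rw [e1, Complex.real_smul, Complex.ofReal_exp, Complex.ofReal_exp, ← Complex.exp_add,
        ← Complex.exp_add, ← Complex.exp_add]
      congr 1
      push_cast
      ring
    rw [h2] at h1
    rw [h1]
    have h3 : ((1 : ℂ) / (Real.pi : ℂ)) ^ z = (Real.pi : ℂ) ^ (-z) := by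
      rw [Complex.cpow_neg, one_div, Complex.inv_cpow]
      rw [Complex.arg_ofReal_of_nonneg Real.pi_pos.le]
      exact Real.pi_pos.ne
    rw [h3, mul_comm]

/-- AR1 -/
theorem g1_lap_pr (c s : ℂ) (h : 0 < (s + c).re) :
    Integrable (fun v => g1 c v * ew s v) ∧ ∫ v, g1 c v * ew s v = Gammaℝ (s + c) := by
  have hz : 0 < ((s + c) / 2).re := by
    have : ((s + c) / 2).re = (s + c).re / 2 := by simp
    rw [this]
    linarith
  obtain ⟨h1, h2⟩ := ar_cplx hz
  have h3 : (fun v => g1 c v * ew s v) = fun v : ℝ => 2 * (fun u : ℝ =>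
      ((Real.exp (-(Real.pi * Real.exp u)) : ℝ) : ℂ) * cexp ((s + c) / 2 * u)) (2 * v) := by
    funext v
    unfold g1 ew
    simp only
    rw [mul_assoc, mul_assoc, ← Complex.exp_add]
    congr 3
    push_cast
    ring
  rw [h3]
  constructor
  · exact (h1.comp_mul_left' two_ne_zero).const_mul 2
  · rw [integral_const_mul, Measure.integral_comp_mul_left (fun u : ℝ =>
      ((Real.exp (-(Real.pi * Real.exp u)) : ℝ) : ℂ) * cexp ((s + c) / 2 * u)) 2, h2,
      Gammaℝ_def, abs_of_pos (by norm_num), Complex.real_smul]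
    push_cast
    rw [neg_div]
    ring

/-- AR2 -/
theorem cnv_lap_pr {f g : ℝ → ℂ} {s : ℂ} (hf : Integrable fun v => f v * ew s v)
    (hg : Integrable fun v => g v * ew s v) :
    Integrable (fun v => cnv f g v * ew s v) ∧
      ∫ v, cnv f g v * ew s v = (∫ v, f v * ew s v) * ∫ v, g v * ew s v := by
  have h1 : (fun v => cnv f g v * ew s v) = MeasureTheory.convolution (fun v => f v * ew s v)
      (fun v => g v * ew s v) (ContinuousLinearMap.mul ℂ ℂ) volume := by
    funext v
    unfold cnv MeasureTheory.convolution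
    rw [← integral_mul_const]
    congr 1
    funext u
    rw [ContinuousLinearMap.mul_apply']
    have : ew s v = ew s u * ew s (v - u) := by
      rw [← ew_add]
      congr 1
      ring
    rw [this]
    ring
  rw [h1]
  refine ⟨hf.integrable_convolution _ hg, ?_⟩
  rw [integral_convolution _ hf hg, ContinuousLinearMap.mul_apply']

theorem ar_gl (l : List ℂ) (hl : l ≠ []) (s : ℂ) (h : ∀ c ∈ l, 0 < (s + c).re) :
    Integrable (fun v => gl l v * ew s v) ∧
      ∫ v, gl l v * ew s v = (l.map fun c => Gammaℝ (s + c)).prod := by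
  induction l with
  | nil => exact absurd rfl hl
  | cons c l ih =>
    cases l with
    | nil =>
      have := g1_lap_pr c s (h c (by simp))
      simpa [gl] using this
    | cons c' l =>
      have h1 := g1_lap_pr c s (h c (by simp))
      have h2 := ih (by simp) fun a ha => h a (by simp [ha])
      have h3 := cnv_lap_pr h1.1 h2.1
      rw [h1.2, h2.2] at h3
      have h4 : gl (c :: c' :: l) = cnv (g1 c) (gl (c' :: l)) := rfl
      rw [h4, List.map_cons, List.prod_cons]
      exact h3

/-- AR3 -/
theorem gmu_lap_pr {n : ℕ} (hn : 1 ≤ n) (μ : Fin n → ℂ) (s : ℂ) (h : ∀ j, 0 < (s + μ j).re) :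
    Integrable (fun v => gmu μ v * ew s v) ∧ ∫ v, gmu μ v * ew s v = gam μ s := by
  have h1 := ar_gl (List.ofFn μ) (by
    intro h0
    have := congrArg List.length h0
    simp at this
    omega) s (by
    intro c hc
    obtain ⟨j, rfl⟩ := (List.mem_ofFn' μ c).1 hc
    exact h j)
  unfold gmu gam
  refine ⟨h1.1, h1.2.trans ?_⟩
  rw [List.map_ofFn, List.prod_ofFn]
  rfl

end

end Pool.Agent.BX

namespace Pool.Agent.BX

theorem g1_lap : type_of% @g1_lap_pr := @g1_lap_pr
theorem cnv_lap : type_of% @cnv_lap_pr := @cnv_lap_pr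
theorem gmu_lap : type_of% @gmu_lap_pr := @gmu_lap_pr

end Pool.Agent.BX
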