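import Pool.Agent.Lib_helper61.BXF.AR12

set_option autoImplicit false

namespace Pool.Agent.BX

open MeasureTheory Complex Finset
open Pool.Agent.SGN
open Pool.Agent.QG (ew)
open scoped ENNReal

noncomputable section

/-- the norm of `g1` -/
theorem ar4_norm (c : ℂ) (v : ℝ) :
    ‖g1 c v‖ = 2 * (Real.exp (-(Real.pi * Real.exp (2 * v))) * Real.exp ((1 / 2 + c.re) * v)) := by
  unfold g1
  rw [norm_mul, norm_mul, Complex.norm_real, Complex.norm_exp, Real.norm_eq_abs, abs_of_pos
    (Real.exp_pos _)]
  have h1 : ((1 / 2 + c) * (v : ℂ)).re = (1 / 2 + c.re) * v := by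
    simp [Complex.mul_re, Complex.add_re]
  rw [h1]
  have h2 : ‖(2 : ℂ)‖ = 2 := by simp
  rw [h2]; ring

/-- `exp(-π e^(2v)) e^(b v) ≤ C` for `b ≥ 0` -/
theorem ar4_sup (b : ℝ) (hb : 0 ≤ b) : ∃ C : ℝ, 0 ≤ C ∧ ∀ v : ℝ,
    Real.exp (-(Real.pi * Real.exp (2 * v))) * Real.exp (b * v) ≤ C := by
  obtain ⟨n, hn⟩ := exists_nat_ge (b / 2)
  refine ⟨max 1 (n.factorial : ℝ), le_trans zero_le_one (le_max_left _ _), fun v => ?_⟩
  rcases le_total v 0 with hv | hv
  · refine le_trans ?_ (le_max_left _ _)
    have h1 : Real.exp (-(Real.pi * Real.exp (2 * v))) ≤ 1 := by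
      apply Real.exp_le_one_iff.2
      have := mul_pos Real.pi_pos (Real.exp_pos (2 * v))
      linarith
    have h2 : Real.exp (b * v) ≤ 1 := by
      apply Real.exp_le_one_iff.2
      exact mul_nonpos_of_nonneg_of_nonpos hb hv
    calc _ ≤ (1 : ℝ) * 1 := mul_le_mul h1 h2 (Real.exp_pos _).le zero_le_one
      _ = 1 := by ring
  · refine le_trans ?_ (le_max_right _ _)
    have hx : 0 < Real.exp (2 * v) := Real.exp_pos _
    have h1 : Real.exp (2 * v) ^ n / (n.factorial : ℝ) ≤ Real.exp (Real.pi * Real.exp (2 * v)) := by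
      have h3 : Real.exp (2 * v) ^ n / (n.factorial : ℝ) ≤ Real.exp (Real.exp (2 * v)) :=
        Real.pow_div_factorial_le_exp _ hx.le n
      refine h3.trans (Real.exp_le_exp.2 ?_)
      have h4 : (1 : ℝ) ≤ Real.pi := by linarith [Real.pi_gt_three]
      nlinarith
    have hfac : (0 : ℝ) < n.factorial := by exact_mod_cast Nat.factorial_pos n
    have h5 : Real.exp (b * v) ≤ Real.exp (2 * v) ^ n := by
      rw [← Real.exp_nat_mul]
      apply Real.exp_le_exp.2
      have : b ≤ (n : ℝ) * 2 := by linarith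
      nlinarith
    rw [Real.exp_neg, ← div_eq_inv_mul, div_le_iff₀ (Real.exp_pos _)]
    calc Real.exp (b * v) ≤ Real.exp (2 * v) ^ n := h5
      _ = (n.factorial : ℝ) * (Real.exp (2 * v) ^ n / (n.factorial : ℝ)) := by
          field_simp
      _ ≤ (n.factorial : ℝ) * Real.exp (Real.pi * Real.exp (2 * v)) :=
          mul_le_mul_of_nonneg_left h1 hfac.le

theorem ar4_g1_cont (c : ℂ) : Continuous (g1 c) := by
  unfold g1
  fun_prop

theorem ar4_g1_int (c : ℂ) (h : -(1 / 2) < c.re) : Integrable (g1 c) := by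
  have h1 := (g1_lap c (1 / 2) (by simp; linarith)).1
  refine h1.congr (Filter.Eventually.of_forall fun v => ?_)
  simp [ew]

theorem ar4_list (l : List ℂ) (h : ∀ c ∈ l, -(1 / 2) < c.re) :
    Continuous (gl l) ∧ ∃ C : ℝ, 0 ≤ C ∧ ∀ v, ‖gl l v‖ ≤ C := by
  induction l with
  | nil =>
    exact ⟨by simp only [gl]; exact continuous_const, 0, le_refl _, fun v => by simp [gl]⟩
  | cons c l ih =>
    have hc : -(1 / 2) < c.re := h c (by simp)
    have ih' := ih fun d hd => h d (by simp [hd])
    cases l with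
    | nil =>
      refine ⟨by simp only [gl]; exact ar4_g1_cont c, ?_⟩
      obtain ⟨C, hC, hb⟩ := ar4_sup (1 / 2 + c.re) (by linarith)
      refine ⟨2 * C, by positivity, fun v => ?_⟩
      simp only [gl]
      rw [ar4_norm]
      exact mul_le_mul_of_nonneg_left (hb v) (by norm_num)
    | cons c' l =>
      obtain ⟨hcont, C, hC, hb⟩ := ih'
      have hi := (ar4_g1_int c hc).norm
      have hfun : gl (c :: c' :: l) = fun v => ∫ u : ℝ, g1 c u * gl (c' :: l) (v - u) := by
        funext v; simp only [gl, cnv]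
      rw [hfun]
      constructor
      · refine continuous_of_dominated (bound := fun u => ‖g1 c u‖ * C) ?_ ?_ ?_ ?_
        · intro v
          exact ((ar4_g1_cont c).mul (hcont.comp (continuous_const.sub
            continuous_id))).aestronglyMeasurable
        · intro v
          refine Filter.Eventually.of_forall fun u => ?_
          rw [norm_mul]
          exact mul_le_mul_of_nonneg_left (hb _) (norm_nonneg _)
        · exact hi.mul_const C
        · refine Filter.Eventually.of_forall fun u => ?_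
          exact continuous_const.mul (hcont.comp (continuous_id.sub continuous_const))
      · refine ⟨∫ u, ‖g1 c u‖ * C, integral_nonneg fun u => by positivity, fun v => ?_⟩
        refine (norm_integral_le_integral_norm _).trans ?_
        refine integral_mono_of_nonneg (Filter.Eventually.of_forall fun u => norm_nonneg _)
          (hi.mul_const C) (Filter.Eventually.of_forall fun u => ?_)
        simp only [norm_mul]
        exact mul_le_mul_of_nonneg_left (hb _) (norm_nonneg _)

/-- AR4 -/
theorem gmu_cont_pr {n : ℕ} (μ : Fin n → ℂ) (h : ∀ j, -(1 / 2) < (μ j).re) :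
    Continuous (gmu μ) := by
  unfold gmu
  refine (ar4_list (List.ofFn μ) fun c hc => ?_).1
  obtain ⟨j, rfl⟩ := (List.mem_ofFn' _ _).1 hc
  exact h j


end

end Pool.Agent.BX

namespace Pool.Agent.BX

theorem gmu_cont : type_of% @gmu_cont_pr := @gmu_cont_pr

end Pool.Agent.BX
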