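import Pool.Agent.Lib_helper61.BXF.AR4

set_option autoImplicit false

namespace Pool.Agent.BX

open MeasureTheory Complex Finset
open Pool.Agent.SGN
open Pool.Agent.QG (ew)
open scoped ENNReal

noncomputable section

/-- the norm of `g1` -/
theorem ar5_norm (c : ℂ) (v : ℝ) :
    ‖g1 c v‖ = 2 * (Real.exp (-(Real.pi * Real.exp (2 * v))) * Real.exp ((1 / 2 + c.re) * v)) := by
  unfold g1
  rw [norm_mul, norm_mul, Complex.norm_real, Complex.norm_exp, Real.norm_eq_abs, abs_of_pos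
    (Real.exp_pos _)]
  have h1 : ((1 / 2 + c) * (v : ℂ)).re = (1 / 2 + c.re) * v := by
    simp [Complex.mul_re, Complex.add_re]
  rw [h1]
  have h2 : ‖(2 : ℂ)‖ = 2 := by simp
  rw [h2]; ring

/-- `exp(-π e^(2v)) e^(b v) ≤ C` for `b ≥ 0` -/
theorem ar5_sup (b : ℝ) (hb : 0 ≤ b) : ∃ C : ℝ, 0 ≤ C ∧ ∀ v : ℝ,
    Real.exp (-(Real.pi * Real.exp (2 * v))) * Real.exp (b * v) ≤ C := by
  obtain ⟨n, hn⟩ := exists_nat_ge (b / 2)
  refine ⟨max 1 (n.factorial : ℝ), le_trans zero_le_one (le_max_left _ _), fun v => ?_⟩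
  rcases le_total v 0 with hv | hv
  · refine le_trans ?_ (le_max_left _ _)
    have h1 : Real.exp (-(Real.pi * Real.exp (2 * v))) ≤ 1 := by
      apply Real.exp_le_one_iff.2
      have := mul_pos Real.pi_pos (Real.exp_pos (2 * v))
      linarith
    have h2 : Real.exp (b * v) ≤ 1 := by
      apply Real.exp_le_one_iff.2
      exact mul_nonpos_of_nonneg_of_nonpos hb hv
    calc _ ≤ (1 : ℝ) * 1 := mul_le_mul h1 h2 (Real.exp_pos _).le zero_le_one
      _ = 1 := by ring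
  · refine le_trans ?_ (le_max_right _ _)
    have hx : 0 < Real.exp (2 * v) := Real.exp_pos _
    have h1 : Real.exp (2 * v) ^ n / (n.factorial : ℝ) ≤ Real.exp (Real.pi * Real.exp (2 * v)) := by
      have h3 : Real.exp (2 * v) ^ n / (n.factorial : ℝ) ≤ Real.exp (Real.exp (2 * v)) :=
        Real.pow_div_factorial_le_exp _ hx.le n
      refine h3.trans (Real.exp_le_exp.2 ?_)
      have h4 : (1 : ℝ) ≤ Real.pi := by linarith [Real.pi_gt_three]
      nlinarith
    have hfac : (0 : ℝ) < n.factorial := by exact_mod_cast Nat.factorial_pos n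
    have h5 : Real.exp (b * v) ≤ Real.exp (2 * v) ^ n := by
      rw [← Real.exp_nat_mul]
      apply Real.exp_le_exp.2
      have : b ≤ (n : ℝ) * 2 := by linarith
      nlinarith
    rw [Real.exp_neg, ← div_eq_inv_mul, div_le_iff₀ (Real.exp_pos _)]
    calc Real.exp (b * v) ≤ Real.exp (2 * v) ^ n := h5
      _ = (n.factorial : ℝ) * (Real.exp (2 * v) ^ n / (n.factorial : ℝ)) := by
          field_simp
      _ ≤ (n.factorial : ℝ) * Real.exp (Real.pi * Real.exp (2 * v)) :=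
          mul_le_mul_of_nonneg_left h1 hfac.le

/-- the majorant -/
def ar5_G (k : ℝ) (v : ℝ) : ℝ :=
  2 * (Real.exp (-(Real.pi * Real.exp (2 * v))) * Real.exp (k * v)) +
    2 * (Real.exp (-(Real.pi * Real.exp (2 * v))) * Real.exp ((1 - k) * v))

theorem ar5_le (k : ℝ) (c : ℂ) (h : |c.re| ≤ 1 / 2 - k) (v : ℝ) : ‖g1 c v‖ ≤ ar5_G k v := by
  rw [ar5_norm]
  unfold ar5_G
  obtain ⟨h1, h2⟩ := abs_le.1 h
  rcases le_total v 0 with hv | hv
  · have h3 : Real.exp ((1 / 2 + c.re) * v) ≤ Real.exp (k * v) := by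
      apply Real.exp_le_exp.2
      have : k ≤ 1 / 2 + c.re := by linarith
      nlinarith
    have h4 := mul_le_mul_of_nonneg_left h3 (Real.exp_pos (-(Real.pi * Real.exp (2 * v)))).le
    have h5 := mul_pos (Real.exp_pos (-(Real.pi * Real.exp (2 * v)))) (Real.exp_pos ((1 - k) * v))
    linarith
  · have h3 : Real.exp ((1 / 2 + c.re) * v) ≤ Real.exp ((1 - k) * v) := by
      apply Real.exp_le_exp.2
      have : 1 / 2 + c.re ≤ 1 - k := by linarith
      nlinarith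
    have h4 := mul_le_mul_of_nonneg_left h3 (Real.exp_pos (-(Real.pi * Real.exp (2 * v)))).le
    have h5 := mul_pos (Real.exp_pos (-(Real.pi * Real.exp (2 * v)))) (Real.exp_pos (k * v))
    linarith

theorem ar5_int1 (b : ℝ) (hb : 0 < b) :
    Integrable fun v : ℝ => Real.exp (-(Real.pi * Real.exp (2 * v))) * Real.exp (b * v) := by
  have h1 := (g1_lap ((b - 1 / 2 : ℝ) : ℂ) (1 / 2) (by simp; linarith)).1.norm
  refine (h1.const_mul (1 / 2)).congr (Filter.Eventually.of_forall fun v => ?_)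
  simp only [ew]
  rw [norm_mul, ar5_norm]
  have h2 : (1 / 2 + ((b - 1 / 2 : ℝ) : ℂ).re) = b := by
    rw [Complex.ofReal_re]; ring
  rw [h2]
  simp

theorem ar5_intG (k : ℝ) (_hk : 0 < k) (hk' : k ≤ 1 / 2) (θ : ℝ) (hθ : -k < θ) :
    Integrable fun v : ℝ => ar5_G k v * Real.exp (θ * v) := by
  have h1 := (ar5_int1 (k + θ) (by linarith)).const_mul 2
  have h2 := (ar5_int1 (1 - k + θ) (by linarith)).const_mul 2
  refine (h1.add h2).congr (Filter.Eventually.of_forall fun v => ?_)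
  simp only [Pi.add_apply, ar5_G]
  rw [add_mul, add_mul, Real.exp_add, add_mul, Real.exp_add]
  ring

theorem ar5_supG (k : ℝ) (_hk : 0 < k) (hk' : k ≤ 1 / 2) (θ : ℝ) (hθ : -k < θ) :
    ∃ C : ℝ, 0 ≤ C ∧ ∀ v : ℝ, ar5_G k v * Real.exp (θ * v) ≤ C := by
  obtain ⟨C1, h1, h1'⟩ := ar5_sup (k + θ) (by linarith)
  obtain ⟨C2, h2, h2'⟩ := ar5_sup (1 - k + θ) (by linarith)
  refine ⟨2 * C1 + 2 * C2, by positivity, fun v => ?_⟩
  have e1 := h1' v
  have e2 := h2' v
  unfold ar5_G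
  rw [add_mul, Real.exp_add] at e1
  rw [add_mul, Real.exp_add] at e2
  nlinarith [e1, e2]

theorem ar5_list (k : ℝ) (hk : 0 < k) (hk' : k ≤ 1 / 2) (θ : ℝ) (hθ : -k < θ) (n : ℕ) :
    ∃ C : ℝ, 0 ≤ C ∧ ∀ l : List ℂ, l.length ≤ n → (∀ c ∈ l, |c.re| ≤ 1 / 2 - k) →
      ∀ v : ℝ, ‖gl l v‖ * Real.exp (θ * v) ≤ C := by
  obtain ⟨C1, hC1, hs⟩ := ar5_supG k hk hk' θ hθ
  have hG := ar5_intG k hk hk' θ hθ
  induction n with
  | zero =>
    refine ⟨0, le_refl _, fun l hl _ v => ?_⟩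
    have : l = [] := List.length_eq_zero_iff.1 (by omega)
    subst this
    simp [gl]
  | succ n ih =>
    obtain ⟨C, hC, hb⟩ := ih
    refine ⟨max C1 (∫ u, ar5_G k u * Real.exp (θ * u) * C), le_trans hC1 (le_max_left _ _),
      fun l hl hl' v => ?_⟩
    match l, hl, hl' with
    | [], _, _ => simp [gl, hC1]
    | [c], _, hl' =>
      refine le_trans ?_ (le_max_left _ _)
      refine le_trans ?_ (hs v)
      simp only [gl]
      exact mul_le_mul_of_nonneg_right (ar5_le k c (hl' c (by simp)) v) (Real.exp_pos _).le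
    | c :: c' :: l, hl, hl' =>
      refine le_trans ?_ (le_max_right _ _)
      have hc := hl' c (by simp)
      have hb' := hb (c' :: l) (by simp at hl ⊢; omega) fun d hd => hl' d (by simp at hd ⊢; tauto)
      simp only [gl, cnv]
      have e1 : ‖∫ u : ℝ, g1 c u * gl (c' :: l) (v - u)‖ * Real.exp (θ * v) ≤
          (∫ u : ℝ, ‖g1 c u * gl (c' :: l) (v - u)‖) * Real.exp (θ * v) :=
        mul_le_mul_of_nonneg_right (norm_integral_le_integral_norm _) (Real.exp_pos _).le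
      refine e1.trans ?_
      rw [← integral_mul_const]
      refine integral_mono_of_nonneg (Filter.Eventually.of_forall fun u => by positivity)
        (hG.mul_const C) (Filter.Eventually.of_forall fun u => ?_)
      simp only [norm_mul]
      have e2 : Real.exp (θ * v) = Real.exp (θ * u) * Real.exp (θ * (v - u)) := by
        rw [← Real.exp_add]; ring_nf
      rw [e2]
      have e3 := hb' (v - u)
      have e4 := ar5_le k c hc u
      calc ‖g1 c u‖ * ‖gl (c' :: l) (v - u)‖ * (Real.exp (θ * u) * Real.exp (θ * (v - u)))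
          = (‖g1 c u‖ * Real.exp (θ * u)) *
              (‖gl (c' :: l) (v - u)‖ * Real.exp (θ * (v - u))) := by ring
        _ ≤ (ar5_G k u * Real.exp (θ * u)) * C := by
            apply mul_le_mul _ e3 (by positivity)
            · exact mul_nonneg ((norm_nonneg _).trans e4) (Real.exp_pos _).le
            · exact mul_le_mul_of_nonneg_right e4 (Real.exp_pos _).le

theorem ar5_kappa {n : ℕ} (K : Set (Fin n → ℂ)) (hK : Kok K) :
    ∃ k : ℝ, 0 < k ∧ k < 1 / 2 ∧ ∀ μ ∈ K, ∀ j, |(μ j).re| ≤ 1 / 2 - k := by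
  rcases K.eq_empty_or_nonempty with rfl | hne
  · exact ⟨1 / 4, by norm_num, by norm_num, fun μ hμ => by simp at hμ⟩
  have hcont : Continuous fun μ : Fin n → ℂ => ‖fun j => (μ j).re‖ := by fun_prop
  obtain ⟨μ₀, h₀, hmax⟩ := hK.1.exists_isMaxOn hne hcont.continuousOn
  have h1 : ‖fun j => (μ₀ j).re‖ < 1 / 2 := by
    rw [pi_norm_lt_iff (by norm_num)]
    intro j
    exact hK.2 μ₀ h₀ j
  have h0 : 0 ≤ ‖fun j => (μ₀ j).re‖ := norm_nonneg _
  refine ⟨(1 / 2 - ‖fun j => (μ₀ j).re‖) / 2, by linarith, by linarith, fun μ hμ j => ?_⟩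
  have h2 : ‖fun j => (μ j).re‖ ≤ ‖fun j => (μ₀ j).re‖ := hmax hμ
  have h3 : |(μ j).re| ≤ ‖fun j => (μ j).re‖ := norm_le_pi_norm (fun j => (μ j).re) j
  linarith

/-- AR5: decay, uniformly on `K` (`B ≥ 0`; false for `B ≤ -1`) -/
theorem gmu_bd_pr {n : ℕ} (K : Set (Fin n → ℂ)) (hK : Kok K) : ∃ c₀ : ℝ, 0 < c₀ ∧ ∀ B : ℝ,
    0 ≤ B → ∃ C : ℝ, 0 ≤ C ∧ ∀ μ ∈ K, ∀ v : ℝ, ‖gmu μ v‖ ≤ C * Real.exp (c₀ * v) ∧
      ‖gmu μ v‖ ≤ C * Real.exp (-(B * v)) := by
  obtain ⟨k, hk, hk', hμ⟩ := ar5_kappa K hK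
  refine ⟨k / 2, by linarith, fun B hB => ?_⟩
  obtain ⟨C1, hC1, h1⟩ := ar5_list k hk hk'.le (-(k / 2)) (by linarith) n
  obtain ⟨C2, hC2, h2⟩ := ar5_list k hk hk'.le B (by linarith) n
  refine ⟨max C1 C2, le_trans hC1 (le_max_left _ _), fun μ hm v => ?_⟩
  have hl : ∀ c ∈ List.ofFn μ, |c.re| ≤ 1 / 2 - k := by
    intro c hc
    obtain ⟨j, rfl⟩ := (List.mem_ofFn' _ _).1 hc
    exact hμ μ hm j
  have e1 := h1 (List.ofFn μ) (by simp) hl v
  have e2 := h2 (List.ofFn μ) (by simp) hl v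
  have key : ∀ θ C : ℝ, ‖gmu μ v‖ * Real.exp (θ * v) ≤ C → ‖gmu μ v‖ ≤ C * Real.exp (-(θ * v)) := by
    intro θ C h
    rw [Real.exp_neg, ← div_eq_mul_inv, le_div_iff₀ (Real.exp_pos _)]
    exact h
  constructor
  · have e3 := key _ _ e1
    have e4 : -(-(k / 2) * v) = k / 2 * v := by ring
    rw [e4] at e3
    exact e3.trans (mul_le_mul_of_nonneg_right (le_max_left _ _) (Real.exp_pos _).le)
  · exact (key _ _ e2).trans (mul_le_mul_of_nonneg_right (le_max_right _ _) (Real.exp_pos _).le)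

end

end Pool.Agent.BX

namespace Pool.Agent.BX

theorem gmu_bd : type_of% @gmu_bd_pr := @gmu_bd_pr

end Pool.Agent.BX
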