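import Pool.Agent.Lib_helper61.BXF.AR5

/-! Block AR6 (helper6): decay of the gamma factor on the critical line, uniformly on `K`. -/

set_option autoImplicit false

namespace Pool.Agent.BX

open MeasureTheory Complex Finset
open Pool.Agent.SGN
open Pool.Agent.QG (ew)
open scoped ENNReal

noncomputable section

theorem ar6_norm_Gamma {s : ℂ} (hs : 0 < s.re) : ‖Complex.Gamma s‖ ≤ Real.Gamma s.re := by
  rw [Complex.Gamma_eq_integral hs, Real.Gamma_eq_integral hs, Complex.GammaIntegral]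
  refine norm_integral_le_of_norm_le (Real.GammaIntegral_convergent hs) ?_
  rw [ae_restrict_iff' measurableSet_Ioi]
  refine ae_of_all _ fun x hx => ?_
  have hx0 : (0 : ℝ) < x := hx
  rw [norm_mul, Complex.norm_real, Real.norm_eq_abs, Real.abs_exp,
    Complex.norm_cpow_eq_rpow_re_of_pos hx0]
  simp

/-- one factor, explicit constant -/
theorem ar6_factor {s : ℂ} (hs : 0 < s.re) : ‖Gammaℝ s‖ * ((s.re ^ 2 + s.im ^ 2) / 4) ≤
    Real.pi ^ (-s.re / 2) * Real.Gamma (s.re / 2 + 2) := by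
  have hs2 : (s / 2).re = s.re / 2 := by simp
  have h2 : s / 2 ≠ 0 := by
    intro h0
    have := congrArg Complex.re h0
    rw [hs2] at this
    simp at this
    linarith
  have h3 : s / 2 + 1 ≠ 0 := by
    intro h0
    have := congrArg Complex.re h0
    rw [Complex.add_re, hs2] at this
    simp at this
    linarith
  have hg : Complex.Gamma (s / 2 + 2) = (s / 2 + 1) * ((s / 2) * Complex.Gamma (s / 2)) := by
    rw [← Complex.Gamma_add_one _ h2, ← Complex.Gamma_add_one _ h3]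
    congr 1
    ring
  have hgn : ‖Complex.Gamma (s / 2 + 2)‖ ≤ Real.Gamma (s.re / 2 + 2) := by
    have h4 : (s / 2 + 2).re = s.re / 2 + 2 := by rw [Complex.add_re, hs2]; simp
    have h5 := ar6_norm_Gamma (s := s / 2 + 2) (by rw [h4]; positivity)
    rwa [h4] at h5
  have hn1 : (s.re ^ 2 + s.im ^ 2) / 4 = ‖s / 2‖ ^ 2 := by
    rw [norm_div, div_pow, ← Complex.normSq_eq_norm_sq, Complex.normSq_apply]
    norm_num
    ring
  have hn2 : ‖s / 2‖ ≤ ‖s / 2 + 1‖ := by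
    rw [← sq_le_sq₀ (norm_nonneg _) (norm_nonneg _), ← Complex.normSq_eq_norm_sq,
      ← Complex.normSq_eq_norm_sq, Complex.normSq_apply, Complex.normSq_apply, Complex.add_re,
      Complex.add_im, hs2]
    simp only [Complex.one_re, Complex.one_im, add_zero]
    nlinarith
  have hgam : ‖Complex.Gamma (s / 2)‖ * ((s.re ^ 2 + s.im ^ 2) / 4) ≤
      Real.Gamma (s.re / 2 + 2) := by
    calc ‖Complex.Gamma (s / 2)‖ * ((s.re ^ 2 + s.im ^ 2) / 4)
        = ‖Complex.Gamma (s / 2)‖ * (‖s / 2‖ * ‖s / 2‖) := by rw [hn1, sq]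
      _ ≤ ‖Complex.Gamma (s / 2)‖ * (‖s / 2 + 1‖ * ‖s / 2‖) :=
          mul_le_mul_of_nonneg_left (mul_le_mul_of_nonneg_right hn2 (norm_nonneg _))
            (norm_nonneg _)
      _ = ‖Complex.Gamma (s / 2 + 2)‖ := by rw [hg, norm_mul, norm_mul]; ring
      _ ≤ Real.Gamma (s.re / 2 + 2) := hgn
  have hpi : ‖((Real.pi : ℝ) : ℂ) ^ (-s / 2)‖ = Real.pi ^ (-s.re / 2) := by
    rw [Complex.norm_cpow_eq_rpow_re_of_pos Real.pi_pos]
    congr 1
    simp
  rw [Gammaℝ_def, norm_mul, hpi, mul_assoc]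
  exact mul_le_mul_of_nonneg_left hgam (by positivity)

/-- uniform bound on the constant -/
theorem ar6_const (k : ℝ) (hk : 0 < k) : ∃ G : ℝ, 0 ≤ G ∧ ∀ σ ∈ Set.Icc k (1 - k),
    Real.pi ^ (-σ / 2) * Real.Gamma (σ / 2 + 2) ≤ G := by
  have hc : ContinuousOn (fun σ : ℝ => Real.pi ^ (-σ / 2) * Real.Gamma (σ / 2 + 2))
      (Set.Icc k (1 - k)) := by
    intro σ hσ
    have hσ0 : 0 < σ := hk.trans_le hσ.1
    refine ContinuousAt.continuousWithinAt ?_
    refine ContinuousAt.mul ?_ ?_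
    · refine ContinuousAt.rpow continuousAt_const (by fun_prop) (Or.inl Real.pi_ne_zero)
    · have h1 : ContinuousAt Real.Gamma (σ / 2 + 2) := by
        refine (Real.differentiableAt_Gamma fun m => ?_).continuousAt
        have : (0 : ℝ) ≤ m := Nat.cast_nonneg m
        intro h
        linarith
      exact ContinuousAt.comp (f := fun σ : ℝ => σ / 2 + 2) h1 (by fun_prop)
  obtain ⟨M, hM⟩ := isCompact_Icc.exists_bound_of_continuousOn hc
  refine ⟨|M|, abs_nonneg M, fun σ hσ => ?_⟩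
  exact (le_abs_self _).trans ((hM σ hσ).trans (le_abs_self M))

/-- AR6: decay of the gamma factor on the critical line, uniformly on `K` -/
theorem gam_bd_pr {n : ℕ} (hn : 2 ≤ n) (K : Set (Fin n → ℂ)) (hK : Kok K) : ∃ C : ℝ, 0 ≤ C ∧
    ∀ μ ∈ K, ∀ t : ℝ, ‖gam μ (1 / 2 + t * I)‖ ≤ C / (1 + t ^ 2) := by
  rcases K.eq_empty_or_nonempty with rfl | hne
  · exact ⟨0, le_rfl, fun μ hμ => absurd hμ (Set.notMem_empty _)⟩
  have : Nonempty (Fin n) := ⟨⟨0, by omega⟩⟩
  -- bounds on `K`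
  have hb : ∀ j : Fin n, ∃ M : ℝ, ∀ μ ∈ K, |(μ j).im| ≤ M := by
    intro j
    have hc : ContinuousOn (fun μ : Fin n → ℂ => (μ j).im) K :=
      (Complex.continuous_im.comp (continuous_apply j)).continuousOn
    obtain ⟨M, hM⟩ := hK.1.exists_bound_of_continuousOn hc
    exact ⟨M, fun μ hμ => by simpa using hM μ hμ⟩
  have hr : ∀ j : Fin n, ∃ k : ℝ, 0 < k ∧ ∀ μ ∈ K, |(μ j).re| ≤ 1 / 2 - k := by
    intro j
    have hc : ContinuousOn (fun μ : Fin n → ℂ => |(μ j).re|) K :=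
      ((Complex.continuous_re.comp (continuous_apply j)).abs).continuousOn
    obtain ⟨μ0, hμ0, hmax⟩ := hK.1.exists_isMaxOn hne hc
    refine ⟨1 / 2 - |(μ0 j).re|, by linarith [hK.2 μ0 hμ0 j], fun μ hμ => ?_⟩
    have := hmax hμ
    simp only [Set.mem_ofPred_eq] at this
    linarith
  choose M hM using hb
  choose k hk0 hk using hr
  have hG : ∀ j : Fin n, ∃ G : ℝ, 0 ≤ G ∧ ∀ σ ∈ Set.Icc (k j) (1 - k j),
      Real.pi ^ (-σ / 2) * Real.Gamma (σ / 2 + 2) ≤ G := fun j => ar6_const (k j) (hk0 j)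
  choose G hG0 hG using hG
  -- one factor
  have hfac : ∀ j : Fin n, ∀ μ ∈ K, ∀ t : ℝ, ‖Gammaℝ (1 / 2 + t * I + μ j)‖ ≤
      G j * (2 * (1 + M j ^ 2)) / (min (k j ^ 2) 1 / 4) / (1 + t ^ 2) := by
    intro j μ hμ t
    set s : ℂ := 1 / 2 + t * I + μ j with hs
    have hre : s.re = 1 / 2 + (μ j).re := by simp [hs]
    have him : s.im = t + (μ j).im := by simp [hs]
    have h1 := abs_le.1 (hk j μ hμ)
    have hk1 := hk0 j
    have hsm : s.re ∈ Set.Icc (k j) (1 - k j) := by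
      rw [hre]
      exact ⟨by linarith [h1.1], by linarith [h1.2]⟩
    have hs0 : 0 < s.re := hk1.trans_le hsm.1
    have h2 := (ar6_factor hs0).trans (hG j s.re hsm)
    have hc0 : 0 < min (k j ^ 2) 1 / 4 := by
      have : 0 < min (k j ^ 2) 1 := lt_min (by positivity) one_pos
      positivity
    have h3 : min (k j ^ 2) 1 / 4 * (1 + s.im ^ 2) ≤ (s.re ^ 2 + s.im ^ 2) / 4 := by
      have e1 : min (k j ^ 2) 1 ≤ k j ^ 2 := min_le_left _ _
      have e2 : min (k j ^ 2) 1 ≤ 1 := min_le_right _ _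
      have e3 : k j ^ 2 ≤ s.re ^ 2 := by
        apply pow_le_pow_left₀ hk1.le hsm.1
      nlinarith [sq_nonneg s.im]
    have h4 : 1 + t ^ 2 ≤ 2 * (1 + M j ^ 2) * (1 + s.im ^ 2) := by
      have e1 : t = s.im - (μ j).im := by rw [him]; ring
      have e2 : (μ j).im ^ 2 ≤ M j ^ 2 := by
        rw [← sq_abs]
        exact pow_le_pow_left₀ (abs_nonneg _) (hM j μ hμ) 2
      rw [e1]
      nlinarith [sq_nonneg (s.im + (μ j).im), mul_nonneg (sq_nonneg (M j)) (sq_nonneg s.im)]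
    have hM0 : 0 ≤ 2 * (1 + M j ^ 2) := by positivity
    rw [le_div_iff₀ (by positivity), le_div_iff₀ hc0]
    calc ‖Gammaℝ s‖ * (1 + t ^ 2) * (min (k j ^ 2) 1 / 4)
        ≤ ‖Gammaℝ s‖ * (2 * (1 + M j ^ 2) * (1 + s.im ^ 2)) * (min (k j ^ 2) 1 / 4) := by
          apply mul_le_mul_of_nonneg_right _ hc0.le
          exact mul_le_mul_of_nonneg_left h4 (norm_nonneg _)
      _ = ‖Gammaℝ s‖ * (min (k j ^ 2) 1 / 4 * (1 + s.im ^ 2)) * (2 * (1 + M j ^ 2)) := by ring
      _ ≤ ‖Gammaℝ s‖ * ((s.re ^ 2 + s.im ^ 2) / 4) * (2 * (1 + M j ^ 2)) := by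
          apply mul_le_mul_of_nonneg_right _ hM0
          exact mul_le_mul_of_nonneg_left h3 (norm_nonneg _)
      _ ≤ G j * (2 * (1 + M j ^ 2)) := mul_le_mul_of_nonneg_right h2 hM0
  set A : Fin n → ℝ := fun j => G j * (2 * (1 + M j ^ 2)) / (min (k j ^ 2) 1 / 4) with hA
  have hA0 : ∀ j, 0 ≤ A j := by
    intro j
    have : 0 < min (k j ^ 2) 1 := lt_min (by have := hk0 j; positivity) one_pos
    have := hG0 j
    simp only [hA]
    positivity
  refine ⟨∏ j, A j, prod_nonneg fun j _ => hA0 j, fun μ hμ t => ?_⟩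
  unfold gam
  rw [norm_prod]
  have hu : (1 : ℝ) ≤ 1 + t ^ 2 := by nlinarith [sq_nonneg t]
  calc ∏ j, ‖Gammaℝ (1 / 2 + t * I + μ j)‖ ≤ ∏ j, (A j / (1 + t ^ 2)) :=
        prod_le_prod (fun j _ => norm_nonneg _) fun j _ => hfac j μ hμ t
    _ = (∏ j, A j) / (1 + t ^ 2) ^ n := by
        rw [prod_div_distrib, prod_const, card_univ, Fintype.card_fin]
    _ ≤ (∏ j, A j) / (1 + t ^ 2) := by
        apply div_le_div_of_nonneg_left (prod_nonneg fun j _ => hA0 j) (by positivity)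
        calc 1 + t ^ 2 = (1 + t ^ 2) ^ 1 := (pow_one _).symm
          _ ≤ (1 + t ^ 2) ^ n := pow_le_pow_right₀ hu (by omega)

end

end Pool.Agent.BX

namespace Pool.Agent.BX

theorem gam_bd : type_of% @gam_bd_pr := @gam_bd_pr

end Pool.Agent.BX
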