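import Pool.Agent.Lib_helper61.BXF.AR6

/-! Block AR7 (helper6): Fourier inversion for `gmu`. -/

set_option autoImplicit false

namespace Pool.Agent.BX

open MeasureTheory Complex Finset
open Pool.Agent.SGN
open Pool.Agent.QG (ew)
open scoped ENNReal FourierTransform

noncomputable section

theorem ar7_ew_half (v : ℝ) : ew (1 / 2) v = 1 := by
  unfold ew
  simp

theorem ar7_cpos {n : ℕ} (μ : Fin n → ℂ) (h : ∀ j, |(μ j).re| < 1 / 2) (t : ℝ) (j : Fin n) :
    0 < (1 / 2 + (t : ℂ) * I + μ j).re := by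
  have h1 := (abs_lt.1 (h j)).1
  have h2 : (1 / 2 + (t : ℂ) * I + μ j).re = 1 / 2 + (μ j).re := by simp
  rw [h2]
  linarith

theorem ar7_int {n : ℕ} (hn : 1 ≤ n) (μ : Fin n → ℂ) (h : ∀ j, |(μ j).re| < 1 / 2) :
    Integrable (gmu μ) := by
  have h1 := (gmu_lap hn μ (1 / 2 + ((0 : ℝ) : ℂ) * I) (ar7_cpos μ h 0)).1
  have h2 : (fun v => gmu μ v * ew (1 / 2 + ((0 : ℝ) : ℂ) * I) v) = gmu μ := by
    funext v
    have h3 : (1 / 2 + ((0 : ℝ) : ℂ) * I) = 1 / 2 := by simp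
    rw [h3, ar7_ew_half, mul_one]
  rwa [h2] at h1

theorem ar7_fourier {n : ℕ} (hn : 1 ≤ n) (μ : Fin n → ℂ) (h : ∀ j, |(μ j).re| < 1 / 2) (w : ℝ) :
    𝓕 (gmu μ) w = gam μ (1 / 2 + ((-(2 * Real.pi) * w : ℝ) : ℂ) * I) := by
  rw [Real.fourier_real_eq_integral_exp_smul,
    ← (gmu_lap hn μ (1 / 2 + ((-(2 * Real.pi) * w : ℝ) : ℂ) * I) (ar7_cpos μ h _)).2]
  refine integral_congr_ae (ae_of_all _ fun v => ?_)
  simp only [smul_eq_mul]
  unfold ew
  rw [mul_comm (gmu μ v)]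
  congr 2
  push_cast
  ring

/-- AR7: Fourier inversion -/
theorem gmu_inv_pr {n : ℕ} (hn : 2 ≤ n) (μ : Fin n → ℂ) (h : ∀ j, |(μ j).re| < 1 / 2) (v : ℝ) :
    gmu μ v = ((2 * Real.pi : ℝ) : ℂ)⁻¹ *
      ∫ t : ℝ, gam μ (1 / 2 + t * I) * cexp (-(t * v * I)) := by
  have hn1 : 1 ≤ n := by omega
  have hf : Integrable (gmu μ) := ar7_int hn1 μ h
  have hc : Continuous (gmu μ) := gmu_cont μ fun j => (abs_lt.1 (h j)).1
  have hcF : Continuous (𝓕 (gmu μ)) :=
    VectorFourier.fourierIntegral_continuous Real.continuous_fourierChar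
      (by exact continuous_inner) hf
  have hp : (2 * Real.pi) ≠ 0 := by positivity
  obtain ⟨C, hC0, hC⟩ := gam_bd hn {μ} ⟨isCompact_singleton, fun ν hν j => by
    rw [Set.mem_singleton_iff.1 hν]; exact h j⟩
  have hi : Integrable (fun w : ℝ => C * (1 + (-(2 * Real.pi) * w) ^ 2)⁻¹) :=
    (integrable_inv_one_add_sq.comp_mul_left' (neg_ne_zero.2 hp)).const_mul C
  have hF : Integrable (𝓕 (gmu μ)) := by
    refine Integrable.mono' hi hcF.aestronglyMeasurable (ae_of_all _ fun w => ?_)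
    rw [ar7_fourier hn1 μ h w, ← div_eq_mul_inv]
    exact hC μ rfl _
  have h1 := congrFun (hc.fourierInv_fourier_eq hf hF) v
  rw [← h1, Real.fourierInv_eq']
  have h2 : ∀ w : ℝ, cexp (((2 * Real.pi * inner ℝ w v : ℝ) : ℂ) * I) • 𝓕 (gmu μ) w =
      (fun t : ℝ => gam μ (1 / 2 + t * I) * cexp (-(t * v * I))) (-(2 * Real.pi) * w) := by
    intro w
    simp only [smul_eq_mul]
    rw [ar7_fourier hn1 μ h w, mul_comm]
    congr 2
    have h3 : inner ℝ w v = v * w := by simp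
    rw [h3]
    push_cast
    ring
  have h4 := Measure.integral_comp_mul_left
    (fun t : ℝ => gam μ (1 / 2 + t * I) * cexp (-(t * v * I))) (-(2 * Real.pi))
  rw [integral_congr_ae (ae_of_all _ h2), h4, Complex.real_smul]
  congr 1
  rw [abs_inv, abs_neg, abs_of_pos (by positivity)]
  push_cast
  rfl

end

end Pool.Agent.BX

namespace Pool.Agent.BX

theorem gmu_inv : type_of% @gmu_inv_pr := @gmu_inv_pr

end Pool.Agent.BX
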