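import Pool.Agent.Lib_helper61.BXF.AR7

/-!
# BX, block AR8: the gamma factor is bounded below on boxes
-/

set_option autoImplicit false

namespace Pool.Agent.BX

open MeasureTheory Complex Finset
open Pool.Agent.SGN
open Pool.Agent.QG (ew)
open scoped ENNReal

noncomputable section

/-- AR8: the gamma factor is bounded below on boxes -/
theorem gam_low_pr {n : ℕ} (K : Set (Fin n → ℂ)) (hK : Kok K) (σ T : ℝ) : ∃ c : ℝ, 0 < c ∧
    ∀ μ ∈ K, ∀ s : ℂ, 1 / 2 ≤ s.re → s.re ≤ σ → |s.im| ≤ T → c ≤ ‖gam μ s‖ := by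
  have hF : Continuous fun p : (Fin n → ℂ) × ℂ => ∏ j, (Gammaℝ (p.2 + p.1 j))⁻¹ :=
    continuous_finsetProd _ fun j _ => differentiable_Gammaℝ_inv.continuous.comp
      (by fun_prop : Continuous fun p : (Fin n → ℂ) × ℂ => p.2 + p.1 j)
  have hc : IsCompact (K ×ˢ (Set.Icc (1 / 2 : ℝ) σ ×ℂ Set.Icc (-T) T)) :=
    hK.1.prod (isCompact_Icc.reProdIm isCompact_Icc)
  obtain ⟨M, hM⟩ := hc.exists_bound_of_continuousOn hF.continuousOn
  refine ⟨(max M 1)⁻¹, by positivity, fun μ hμ s h1 h2 h3 => ?_⟩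
  have h4 := hM (μ, s) ⟨hμ, by
    rw [Complex.mem_reProdIm]
    exact ⟨⟨h1, h2⟩, ⟨by linarith [neg_abs_le s.im], by linarith [le_abs_self s.im]⟩⟩⟩
  have h5 : gam μ s ≠ 0 := by
    unfold gam
    refine Finset.prod_ne_zero_iff.mpr fun j _ => Gammaℝ_ne_zero_of_re_pos ?_
    have := abs_lt.mp (hK.2 μ hμ j)
    rw [add_re]
    linarith [this.1]
  have h6 : ∏ j, (Gammaℝ (s + μ j))⁻¹ = (gam μ s)⁻¹ := by
    unfold gam
    rw [Finset.prod_inv_distrib]
  simp only [h6, norm_inv] at h4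
  exact inv_le_of_inv_le₀ (norm_pos_iff.mpr h5) (h4.trans (le_max_left _ _))

end

end Pool.Agent.BX

namespace Pool.Agent.BX

theorem gam_low : type_of% @gam_low_pr := @gam_low_pr

end Pool.Agent.BX
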