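import Pool.Agent.Lib_helper61.BXF.MS1

/-! # BX, block FIN: the density theorem -/

set_option autoImplicit false

namespace Pool.Agent.BX

open MeasureTheory Complex Finset
open Pool.Agent.SGN
open Pool.Agent.QG (ew bad_count)
open scoped ENNReal

noncomputable section

/-- the systems with parameter in `K` are finite in number -/
theorem fin_sys {n q : ℕ} [NeZero q] (K : Set (Fin n → ℂ)) (X : ℝ)
    (h : ∀ (β : Type) [Fintype β] (lam : β → ℕ → ℂ) (μ : β → Fin n → ℂ),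
      Function.Injective lam → (∀ b, μ b ∈ K) → (∀ b, Att n q (μ b) (lam b)) →
      (Fintype.card β : ℝ) ≤ X) : {lam : ℕ → ℂ | ∃ μ ∈ K, Att n q μ lam}.Finite := by
  by_contra hinf
  obtain ⟨t, ht, hc⟩ := Set.Infinite.exists_subset_card_eq hinf (⌊X⌋₊ + 1)
  have h1 : ∀ b : t, ∃ μ ∈ K, Att n q μ b.1 := fun b => ht b.2
  choose μ hμ hA using h1
  have h2 := h t (fun b => b.1) μ Subtype.val_injective hμ hA
  rw [Fintype.card_coe, hc] at h2
  have h3 := Nat.lt_floor_add_one X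
  push_cast at h2
  linarith

/-- a zero of `Λ` away from the line gives a zero to the right -/
theorem fin_zero {n : ℕ} {q : ℕ} {μ : Fin n → ℂ} {lam : ℕ → ℂ} {Λ : ℂ → ℂ} {ε a b : ℝ}
    (hL : IsLambda q μ lam Λ) (hN : ¬ Near ε a b Λ) :
    ∃ s : ℂ, Λ s = 0 ∧ a ≤ s.im ∧ s.im ≤ b ∧ 1 / 2 + ε ≤ s.re := by
  unfold Near at hN
  push Not at hN
  obtain ⟨s, h0, h1, h2, h3⟩ := hN
  obtain ⟨-, -, e, he, hfe⟩ := hL
  rcases le_total 0 (s.re - 1 / 2) with h | h
  · rw [abs_of_nonneg h] at h3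
    exact ⟨s, h0, h1, h2, by linarith⟩
  · rw [abs_of_nonpos h] at h3
    refine ⟨1 - (starRingEnd ℂ) s, ?_, ?_, ?_, ?_⟩
    · have h4 := hfe s
      rw [h0] at h4
      have h5 : e ≠ 0 := by
        intro h6
        rw [h6, norm_zero] at he
        exact zero_ne_one he
      have h6 := (mul_eq_zero.mp h4.symm).resolve_left h5
      rwa [map_eq_zero] at h6
    · simpa using h1
    · simpa using h2
    · simp
      linarith

/-- FIN: the density theorem -/
theorem box_density_pr {n : ℕ} (hn : 2 ≤ n) (K : Set (Fin n → ℂ)) (hK : Kok K) (h1 : HA n)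
    (h2 : HFE n) (h3 : HB n K) (h4 : HC n) (a b : ℝ) :
    ∃ c C A : ℝ, 0 < c ∧ 0 < C ∧ 0 ≤ A ∧ ∃ q₀ : ℕ, ∀ (q : ℕ) [NeZero q], q.Prime → q₀ ≤ q →
      ∀ ε : ℝ, 0 < ε → ε ≤ 1 → (Bad n q K (Near ε a b)).Finite ∧
        ((Bad n q K (Near ε a b)).ncard : ℝ) ≤
          C * Real.log q ^ A * (q : ℝ) ^ ((n : ℝ) - c * ε) := by
  obtain ⟨C₀, κ, η, δ, q₁, hC₀, hκ, hκ4, hη, hηκ, hδ, hfam⟩ := h3
  obtain ⟨C₁, A₁, hC₁, hA₁, hms⟩ := hh_ms hn K hK h4 C₀ κ η δ hC₀ hκ hη hηκ hκ4 hδ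
  obtain ⟨c₁, hc₁, hlow⟩ := gam_low K hK ((n : ℝ) + 3) (max |a| |b|)
  obtain ⟨y₀, htail⟩ := hh_tail (by omega) K hK ((n : ℝ) + 3) (c₁ / 2) (by positivity)
  -- the parameter q₀
  have hlim : Filter.Tendsto (fun q : ℕ => (q : ℝ) ^ (η / 3)) Filter.atTop Filter.atTop :=
    (tendsto_rpow_atTop (by positivity)).comp tendsto_natCast_atTop_atTop
  obtain ⟨q₂, hq₂⟩ := Filter.eventually_atTop.mp (hlim.eventually_ge_atTop ((y₀ : ℝ) + 2))
  set c : ℝ := min (η / 3) δ with hcdef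
  have hc0 : 0 < c := lt_min (by positivity) hδ
  have hcη : c ≤ η / 3 := min_le_left _ _
  have hcδ : c ≤ δ := min_le_right _ _
  refine ⟨c, C₀ + 16 * C₁ / c₁ ^ 2 + C₀ * Real.exp c, A₁ + 2, hc0, by positivity, by positivity,
    max (max q₁ q₂) 5, ?_⟩
  intro q _ hq hq0 ε hε hε1
  have hqq₁ : q₁ ≤ q := le_trans (le_trans (le_max_left _ _) (le_max_left _ _)) hq0
  have hqq₂ : q₂ ≤ q := le_trans (le_trans (le_max_right _ _) (le_max_left _ _)) hq0
  have hq5 : 5 ≤ q := le_trans (le_max_right _ _) hq0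
  have hq5' : (5 : ℝ) ≤ q := by exact_mod_cast hq5
  have hqpos : (0 : ℝ) < q := by linarith
  have hq1 : (1 : ℝ) ≤ q := by linarith
  have hlog1 : 1 ≤ Real.log q := by
    rw [Real.le_log_iff_exp_le hqpos]
    have := Real.exp_one_lt_d9
    linarith
  have hlogpos : 0 < Real.log q := by linarith
  have hlogA : 1 ≤ Real.log q ^ (A₁ + 2) := Real.one_le_rpow hlog1 (by positivity)
  have hy := hq₂ q hqq₂
  set x : ℝ := (q : ℝ) ^ (η / 3) with hxdef
  set y : ℕ := ⌊x⌋₊ with hydef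
  have hx0 : 0 ≤ x := by positivity
  have hx2 : 2 ≤ x := by
    have : (0 : ℝ) ≤ y₀ := Nat.cast_nonneg _
    linarith
  have hyx : x - 1 < y := Nat.sub_one_lt_floor x
  have hyx2 : x / 2 ≤ y := by linarith
  have hyy₀ : y₀ ≤ y := by
    refine Nat.le_floor ?_
    linarith
  have hy1 : 1 ≤ y := Nat.le_floor (by push_cast; linarith)
  have hy1' : (1 : ℝ) ≤ y := by exact_mod_cast hy1
  have hypos : (0 : ℝ) < y := by linarith
  -- finiteness
  have hfin0 : {lam : ℕ → ℂ | ∃ μ ∈ K, Att n q μ lam}.Finite :=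
    fin_sys K (C₀ * (q : ℝ) ^ (n : ℝ)) fun β _ lam μ hi hμ hA =>
      (hfam q hq hqq₁ β lam μ hi hμ hA).1
  have hfin : (Bad n q K (Near ε a b)).Finite := by
    refine hfin0.subset ?_
    rintro lam ⟨μ, hμ, hA, -⟩
    exact ⟨μ, hμ, hA⟩
  refine ⟨hfin, ?_⟩
  set F := hfin.toFinset with hF
  have hmem : ∀ b' : F, ∃ μ ∈ K, Att n q μ b'.1 ∧
      ¬ ∃ Λ : ℂ → ℂ, IsLambda q μ b'.1 Λ ∧ Near ε a b Λ := fun b' =>
    (Set.Finite.mem_toFinset hfin).1 b'.2
  choose μ hμ hA hNo using hmem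
  obtain ⟨hcard, om, hLS⟩ := hfam q hq hqq₁ F (fun b' => b'.1) μ Subtype.val_injective hμ hA
  have hTF : ∀ i : F, Triv n i.1 ∧ ∃ e : ℂ, FEq q (μ i) i.1 e := by
    intro i
    obtain ⟨χ, hχ, f, hf⟩ := hA i
    exact ⟨h1 q χ (μ i) f i.1 hf, h2 q hq χ hχ (μ i) (hK.2 _ (hμ i)) f i.1 hf⟩
  choose hT e he using hTF
  have hmsq := hms q hq hq5 F (fun b' => b'.1) μ om e hμ hT he hcard hLS
  have hncard : ((Bad n q K (Near ε a b)).ncard : ℝ) = (Fintype.card F : ℝ) := by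
    rw [Set.ncard_eq_toFinset_card _ hfin, Fintype.card_coe]
  rw [hncard]
  -- the case of very small `ε`
  rcases lt_or_ge ε (1 / Real.log q) with hsm | hlg
  · have h5 : (q : ℝ) ^ (n : ℝ) ≤ Real.exp c * (q : ℝ) ^ ((n : ℝ) - c * ε) := by
      have h6 : (q : ℝ) ^ (n : ℝ) = (q : ℝ) ^ (c * ε) * (q : ℝ) ^ ((n : ℝ) - c * ε) := by
        rw [← Real.rpow_add hqpos]
        congr 1
        ring
      rw [h6]
      refine mul_le_mul_of_nonneg_right ?_ (by positivity)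
      rw [Real.rpow_def_of_pos hqpos]
      refine Real.exp_le_exp.mpr ?_
      have h7 : ε * Real.log q ≤ 1 := by
        rw [lt_div_iff₀ hlogpos] at hsm
        exact hsm.le
      nlinarith
    calc (Fintype.card F : ℝ) ≤ C₀ * (q : ℝ) ^ (n : ℝ) := hcard
      _ ≤ C₀ * (Real.exp c * (q : ℝ) ^ ((n : ℝ) - c * ε)) :=
          mul_le_mul_of_nonneg_left h5 hC₀.le
      _ = (C₀ * Real.exp c) * 1 * (q : ℝ) ^ ((n : ℝ) - c * ε) := by ring
      _ ≤ (C₀ + 16 * C₁ / c₁ ^ 2 + C₀ * Real.exp c) * Real.log q ^ (A₁ + 2) *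
          (q : ℝ) ^ ((n : ℝ) - c * ε) := by
          have : 0 ≤ 16 * C₁ / c₁ ^ 2 := by positivity
          gcongr
          linarith
  -- the main case
  classical
  set P : Finset F := univ.filter fun b' => ¬ om b' < 1 / 2 with hP
  set V : ℝ := Real.log y / 2 with hV
  set B : ℝ := 2 * (C₁ * Real.log q ^ A₁ * (q : ℝ) ^ (n : ℝ)) with hB
  have hV0 : 0 ≤ V := by
    have := Real.log_nonneg hy1'
    positivity
  have hB0 : 0 ≤ B := by positivity
  have key := bad_count (ι := F) (κ := ℕ) P (fun _ => Icc 1 y)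
    (fun i k => minv i.1 k * rt k) (fun k => Real.log k)
    (D := fun i => D0 (μ i) i.1) (k := fun i => gmu (μ i))
    (fun i _ => (D0_cont (μ i) (hK.2 _ (hμ i)) i.1 (hT i)).measurable.aemeasurable)
    (fun i _ => (gmu_cont (μ i) (fun j => (abs_lt.mp (hK.2 _ (hμ i) j)).1)).measurable.aemeasurable)
    (h := 0) (ε := ε) (V := V) (c := c₁) (B := B) hε hV0 hc₁ hB0
    (by
      intro i _
      have hlam := lambda_exists (by omega) (μ i) (hK.2 _ (hμ i)) i.1 (hT i) q (by omega)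
        (e i) (he i)
      have hnear : ¬ Near ε a b fun s => (q : ℂ) ^ (s / 2) * Lap (D0 (μ i) i.1) s := fun hn' =>
        hNo i ⟨_, hlam, hn'⟩
      obtain ⟨s, hs0, hsa, hsb, hsr⟩ := fin_zero hlam hnear
      have hqc : ((q : ℂ)) ≠ 0 := by exact_mod_cast hqpos.ne'
      have hs1 : Lap (D0 (μ i) i.1) s = 0 := by
        rcases mul_eq_zero.mp hs0 with h | h
        · exact absurd h (by
            rw [Complex.cpow_def_of_ne_zero hqc]
            exact Complex.exp_ne_zero _)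
        · exact h
      have hs2 : s.re ≤ (n : ℝ) + 3 := by
        by_contra h
        push Not at h
        exact Lap_ne (by omega) (μ i) (hK.2 _ (hμ i)) i.1 (hT i) s h.le hs1
      have hs3 : |s.im| ≤ max |a| |b| := abs_le_max_abs_abs hsa hsb
      have hs4 : 1 / 2 ≤ s.re := by linarith
      have hg := gmu_lap (by omega) (μ i) s (fun j => by
        have := (abs_lt.mp (hK.2 _ (hμ i) j)).1
        rw [Complex.add_re]
        linarith)
      refine ⟨s, hsr, D0_int (μ i) (hK.2 _ (hμ i)) i.1 (hT i) q (by omega) (e i) (he i) s, hs1,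
        hg.1, ?_, ?_⟩
      · rw [hg.2]
        exact hlow (μ i) (hμ i) s hs4 hs2 hs3
      · have h5 := htail (μ i) (hμ i) i.1 (hT i) y hyy₀ hy1 s hs4 hs2
        refine le_trans (le_of_eq ?_) h5
        refine lintegral_congr fun v => ?_
        unfold hh MG
        simp only [add_zero, one_mul])
    (by
      intro v _
      have h5 := hmsq v
      have h6 : ∀ i : F, ‖∑ j ∈ Icc 1 y, minv i.1 j * rt j * D0 (μ i) i.1
          (v + 0 + Real.log j) - gmu (μ i) v‖ = ‖hh (μ i) i.1 y v‖ := by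
        intro i
        unfold hh MG
        simp only [add_zero, one_mul]
      simp only [h6]
      calc ∑ i ∈ P, ‖hh (μ i) i.1 y v‖ ^ 2
          ≤ ∑ i ∈ P, 2 * (om i * ‖hh (μ i) i.1 y v‖ ^ 2) := by
            refine Finset.sum_le_sum fun i hi => ?_
            have h7 : 1 / 2 ≤ om i := not_lt.mp (Finset.mem_filter.mp hi).2
            have h8 : 0 ≤ ‖hh (μ i) i.1 y v‖ ^ 2 := by positivity
            nlinarith
        _ ≤ ∑ i, 2 * (om i * ‖hh (μ i) i.1 y v‖ ^ 2) := by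
            refine Finset.sum_le_sum_of_subset_of_nonneg (Finset.filter_subset _ _) ?_
            intro i _ _
            have := (hLS.1 i).1
            positivity
        _ = 2 * ∑ i, om i * ‖hh (μ i) i.1 y v‖ ^ 2 := by rw [Finset.mul_sum]
        _ ≤ B := by
            rw [hB]
            exact mul_le_mul_of_nonneg_left h5 (by norm_num))
  -- the count
  have hexp : (Real.exp (-(ε * V)) / ε) ^ 2 ≤ 2 * (q : ℝ) ^ (-(c * ε)) * Real.log q ^ 2 := by
    have e1 : (Real.exp (-(ε * V)) / ε) ^ 2 = (y : ℝ) ^ (-ε) * (1 / ε) ^ 2 := by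
      rw [div_pow, ← Real.exp_nat_mul, Real.rpow_def_of_pos hypos, one_div, inv_pow,
        div_eq_mul_inv]
      congr 2
      rw [hV]
      push_cast
      ring
    have e2 : 1 / ε ≤ Real.log q := by
      rw [div_le_iff₀ hlogpos] at hlg
      rw [div_le_iff₀ hε]
      linarith
    have e3 : (y : ℝ) ^ (-ε) ≤ 2 * (q : ℝ) ^ (-(c * ε)) := by
      have f1 : (y : ℝ) ^ (-ε) ≤ (x / 2) ^ (-ε) :=
        Real.rpow_le_rpow_of_nonpos (by linarith) hyx2 (by linarith)
      have f2 : (x / 2) ^ (-ε) = x ^ (-ε) * (2 : ℝ) ^ ε := by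
        rw [Real.div_rpow hx0 (by norm_num), Real.rpow_neg (by norm_num : (0 : ℝ) ≤ 2)]
        simp [div_eq_mul_inv]
      have f3 : (2 : ℝ) ^ ε ≤ 2 := by
        calc (2 : ℝ) ^ ε ≤ (2 : ℝ) ^ (1 : ℝ) :=
              Real.rpow_le_rpow_of_exponent_le (by norm_num) hε1
          _ = 2 := Real.rpow_one 2
      have f4 : x ^ (-ε) ≤ (q : ℝ) ^ (-(c * ε)) := by
        rw [hxdef, ← Real.rpow_mul hqpos.le]
        refine Real.rpow_le_rpow_of_exponent_le hq1 ?_
        nlinarith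
      calc (y : ℝ) ^ (-ε) ≤ x ^ (-ε) * (2 : ℝ) ^ ε := by rw [← f2]; exact f1
        _ ≤ (q : ℝ) ^ (-(c * ε)) * 2 :=
            mul_le_mul f4 f3 (by positivity) (by positivity)
        _ = _ := by ring
    rw [e1]
    exact mul_le_mul e3 (pow_le_pow_left₀ (by positivity) e2 2) (by positivity) (by positivity)
  have hPcard : (P.card : ℝ) ≤ 16 * C₁ / c₁ ^ 2 * Real.log q ^ (A₁ + 2) *
      (q : ℝ) ^ ((n : ℝ) - c * ε) := by
    have h5 : (P.card : ℝ) * (c₁ / 2) ^ 2 ≤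
        B * (2 * (q : ℝ) ^ (-(c * ε)) * Real.log q ^ 2) :=
      key.trans (mul_le_mul_of_nonneg_left hexp hB0)
    have h6 : (P.card : ℝ) ≤ B * (2 * (q : ℝ) ^ (-(c * ε)) * Real.log q ^ 2) / (c₁ / 2) ^ 2 := by
      rw [le_div_iff₀ (by positivity)]
      exact h5
    refine h6.trans (le_of_eq ?_)
    rw [hB, Real.rpow_add hlogpos, sub_eq_add_neg (n : ℝ), Real.rpow_add hqpos]
    have : Real.log q ^ (2 : ℝ) = Real.log q ^ 2 := by
      rw [← Real.rpow_natCast]
      norm_num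
    rw [this]
    generalize Real.log q ^ A₁ = u1
    generalize Real.log q ^ 2 = u2
    generalize (q : ℝ) ^ (n : ℝ) = u3
    generalize (q : ℝ) ^ (-(c * ε)) = u4
    clear_value B V P
    have hc₁' : c₁ ≠ 0 := hc₁.ne'
    rw [div_eq_iff (by positivity), div_mul_eq_mul_div, div_mul_eq_mul_div, div_mul_eq_mul_div,
      eq_div_iff (by positivity)]
    ring
  have hcardF : (Fintype.card F : ℝ) =
      ((univ.filter fun b' : F => om b' < 1 / 2).card : ℝ) + (P.card : ℝ) := by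
    have h5 := Finset.card_filter_add_card_filter_not (s := (univ : Finset F))
      (fun b' : F => om b' < 1 / 2)
    rw [Finset.card_univ] at h5
    rw [← h5, Nat.cast_add]
  have hsmall : ((univ.filter fun b' : F => om b' < 1 / 2).card : ℝ) ≤
      C₀ * (q : ℝ) ^ ((n : ℝ) - c * ε) := by
    refine hLS.2.1.trans ?_
    refine mul_le_mul_of_nonneg_left (Real.rpow_le_rpow_of_exponent_le hq1 ?_) hC₀.le
    nlinarith
  rw [hcardF]
  calc ((univ.filter fun b' : F => om b' < 1 / 2).card : ℝ) + (P.card : ℝ)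
      ≤ C₀ * (q : ℝ) ^ ((n : ℝ) - c * ε) + 16 * C₁ / c₁ ^ 2 * Real.log q ^ (A₁ + 2) *
        (q : ℝ) ^ ((n : ℝ) - c * ε) := add_le_add hsmall hPcard
    _ ≤ C₀ * Real.log q ^ (A₁ + 2) * (q : ℝ) ^ ((n : ℝ) - c * ε) +
        16 * C₁ / c₁ ^ 2 * Real.log q ^ (A₁ + 2) * (q : ℝ) ^ ((n : ℝ) - c * ε) := by
        gcongr
        nlinarith
    _ ≤ _ := by
        have h5 : 0 ≤ C₀ * Real.exp c * Real.log q ^ (A₁ + 2) * (q : ℝ) ^ ((n : ℝ) - c * ε) := by
          positivity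
        nlinarith

end

end Pool.Agent.BX

namespace Pool.Agent.BX

theorem box_density : type_of% @box_density_pr := @box_density_pr

end Pool.Agent.BX
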