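import Pool.Agent.Lib_helper61.BXF.FIN
import Pool.Agent.Lib_helper61.BX.DefsK

/-!
# Block GK1: integration by parts
-/

set_option autoImplicit false

namespace Pool.Agent.BX

open MeasureTheory Complex Finset
open Pool.Agent.SGN
open Pool.Agent.QG (ew)
open Pool.Agent.SGD (gz G0 GCl)

noncomputable section

theorem gk1_norm_g1 (c : ℂ) (y : ℝ) : ‖g1 c y‖ =
    2 * Real.exp (-(Real.pi * Real.exp (2 * y))) * Real.exp ((1 / 2 + c.re) * y) := by
  unfold g1
  rw [norm_mul, norm_mul, Complex.norm_exp, Complex.norm_real, Real.norm_eq_abs, Real.abs_exp]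
  have h1 : ‖(2 : ℂ)‖ = 2 := by simp
  have h2 : ((1 / 2 + c) * (y : ℂ)).re = (1 / 2 + c.re) * y := by
    have h3 : (1 / 2 + c : ℂ).re = 1 / 2 + c.re := by
      rw [Complex.add_re]
      norm_num
    rw [Complex.re_mul_ofReal, h3]
  rw [h1, h2]

theorem gk1_deriv_g1 (c : ℂ) (v : ℝ) : HasDerivAt (g1 c) (pk c v * g1 c v) v := by
  have h1 : HasDerivAt (fun v : ℝ => Real.exp (2 * v)) (Real.exp (2 * v) * (2 * 1)) v :=
    ((hasDerivAt_id' v).const_mul 2).exp
  have h2 : HasDerivAt (fun v : ℝ => Real.exp (-(Real.pi * Real.exp (2 * v))))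
      (Real.exp (-(Real.pi * Real.exp (2 * v))) * -(Real.pi * (Real.exp (2 * v) * (2 * 1)))) v :=
    (h1.const_mul Real.pi).neg.exp
  have h3 : HasDerivAt (fun v : ℝ => cexp ((1 / 2 + c) * (v : ℂ)))
      (cexp ((1 / 2 + c) * (v : ℂ)) * ((1 / 2 + c) * ((1 : ℝ) : ℂ))) v :=
    ((hasDerivAt_id' v).ofReal_comp.const_mul (1 / 2 + c)).cexp
  have h4 := (h2.ofReal_comp.const_mul (2 : ℂ)).mul h3
  refine h4.congr_deriv ?_
  unfold pk g1
  push_cast
  ring

theorem gk1_deriv_pk (c : ℂ) (v : ℝ) :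
    HasDerivAt (pk c) (-(4 * Real.pi * Real.exp (2 * v) : ℂ)) v := by
  have h1 : HasDerivAt (fun v : ℝ => Real.exp (2 * v)) (Real.exp (2 * v) * (2 * 1)) v :=
    ((hasDerivAt_id' v).const_mul 2).exp
  have h2 := (h1.ofReal_comp.const_mul (2 * (Real.pi : ℂ))).const_sub (1 / 2 + c)
  refine h2.congr_deriv ?_
  push_cast
  ring

theorem gk1_poly (E : ℝ) (hE : 0 ≤ E) :
    (1 + E + E ^ 2) * Real.exp (-(Real.pi * E)) ≤ 9 ∧
      E * ((1 + E + E ^ 2) * Real.exp (-(Real.pi * E))) ≤ 9 := by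
  have h0 : Real.exp (-(Real.pi * E)) ≤ Real.exp (-E) := by
    apply Real.exp_le_exp.2
    have : E * 1 ≤ E * Real.pi := mul_le_mul_of_nonneg_left (by linarith [Real.pi_gt_three]) hE
    linarith [mul_comm E Real.pi]
  have hp : ∀ n : ℕ, E ^ n * Real.exp (-E) ≤ n.factorial := by
    intro n
    have h1 := Real.pow_div_factorial_le_exp E hE n
    have h2 : (0 : ℝ) < n.factorial := by exact_mod_cast n.factorial_pos
    rw [div_le_iff₀ h2] at h1
    have h3 : Real.exp E * Real.exp (-E) = 1 := by rw [← Real.exp_add]; simp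
    calc E ^ n * Real.exp (-E) ≤ Real.exp E * n.factorial * Real.exp (-E) :=
          mul_le_mul_of_nonneg_right h1 (Real.exp_nonneg _)
      _ = Real.exp E * Real.exp (-E) * n.factorial := by ring
      _ = n.factorial := by rw [h3, one_mul]
  have e0 := hp 0
  have e1 := hp 1
  have e2 := hp 2
  have e3 := hp 3
  simp only [Nat.factorial] at e0 e1 e2 e3
  norm_num at e0 e1 e2 e3
  have hn : 0 ≤ 1 + E + E ^ 2 := by positivity
  constructor
  · calc (1 + E + E ^ 2) * Real.exp (-(Real.pi * E)) ≤ (1 + E + E ^ 2) * Real.exp (-E) :=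
          mul_le_mul_of_nonneg_left h0 hn
      _ = Real.exp (-E) + E * Real.exp (-E) + E ^ 2 * Real.exp (-E) := by ring
      _ ≤ 9 := by
        have : Real.exp (-E) ≤ 1 := Real.exp_le_one_iff.2 (by linarith)
        linarith
  · calc E * ((1 + E + E ^ 2) * Real.exp (-(Real.pi * E))) ≤
          E * ((1 + E + E ^ 2) * Real.exp (-E)) :=
          mul_le_mul_of_nonneg_left (mul_le_mul_of_nonneg_left h0 hn) hE
      _ = E * Real.exp (-E) + E ^ 2 * Real.exp (-E) + E ^ 3 * Real.exp (-E) := by ring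
      _ ≤ 9 := by linarith

/-- bounds for all functions of the form (polynomial in `e^{2y}`) times `g1` -/
theorem gk1_bound (c : ℂ) (P : ℝ → ℂ) (M : ℝ) (hM : 0 ≤ M)
    (hP : ∀ y, ‖P y‖ ≤ M * (1 + Real.exp (2 * y) + Real.exp (2 * y) ^ 2)) (y : ℝ) :
    ‖P y * g1 c y‖ ≤ 18 * M * Real.exp ((1 / 2 + c.re) * y) ∧
      ‖P y * g1 c y‖ ≤ 18 * M * Real.exp ((1 / 2 + c.re - 2) * y) := by
  set E := Real.exp (2 * y) with hE
  obtain ⟨h1, h2⟩ := gk1_poly E (Real.exp_nonneg _)
  set F := Real.exp ((1 / 2 + c.re) * y) with hF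
  have hF0 : 0 ≤ F := Real.exp_nonneg _
  have hb : ‖P y * g1 c y‖ ≤ 2 * M * F * ((1 + E + E ^ 2) * Real.exp (-(Real.pi * E))) := by
    rw [norm_mul, gk1_norm_g1]
    calc ‖P y‖ * (2 * Real.exp (-(Real.pi * E)) * F) ≤
        M * (1 + E + E ^ 2) * (2 * Real.exp (-(Real.pi * E)) * F) :=
          mul_le_mul_of_nonneg_right (hP y) (by positivity)
      _ = 2 * M * F * ((1 + E + E ^ 2) * Real.exp (-(Real.pi * E))) := by ring
  constructor
  · calc ‖P y * g1 c y‖ ≤ 2 * M * F * ((1 + E + E ^ 2) * Real.exp (-(Real.pi * E))) := hb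
      _ ≤ 2 * M * F * 9 := mul_le_mul_of_nonneg_left h1 (by positivity)
      _ = 18 * M * F := by ring
  · have hE0 : 0 < E := Real.exp_pos _
    have h3 : Real.exp ((1 / 2 + c.re - 2) * y) = F * E⁻¹ := by
      rw [hF, hE, ← Real.exp_neg, ← Real.exp_add]
      congr 1
      ring
    have h4 : (1 + E + E ^ 2) * Real.exp (-(Real.pi * E)) ≤ 9 * E⁻¹ := by
      rw [← div_eq_mul_inv, le_div_iff₀ hE0]
      linarith [h2]
    rw [h3]
    calc ‖P y * g1 c y‖ ≤ 2 * M * F * ((1 + E + E ^ 2) * Real.exp (-(Real.pi * E))) := hb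
      _ ≤ 2 * M * F * (9 * E⁻¹) := mul_le_mul_of_nonneg_left h4 (by positivity)
      _ = 18 * M * (F * E⁻¹) := by ring

theorem gk1_pk_bd (c : ℂ) (y : ℝ) :
    ‖pk c y‖ ≤ (1 / 2 + ‖c‖) + 2 * Real.pi * Real.exp (2 * y) := by
  unfold pk
  refine (norm_sub_le _ _).trans (add_le_add ((norm_add_le _ _).trans ?_) ?_)
  · have : ‖(1 / 2 : ℂ)‖ = 1 / 2 := by simp
    rw [this]
  · rw [norm_mul, norm_mul, Complex.norm_real, Complex.norm_real, Real.norm_eq_abs,
      Real.norm_eq_abs, Real.abs_exp, abs_of_pos Real.pi_pos]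
    simp

theorem gk1_exp_deriv (a v : ℝ) (y : ℝ) :
    HasDerivAt (fun y : ℝ => ((Real.exp (a * (y - v)) : ℝ) : ℂ))
      ((a : ℂ) * ((Real.exp (a * (y - v)) : ℝ) : ℂ)) y := by
  have h1 : HasDerivAt (fun y : ℝ => Real.exp (a * (y - v)))
      (Real.exp (a * (y - v)) * (a * 1)) y :=
    (((hasDerivAt_id' y).sub_const v).const_mul a).exp
  refine h1.ofReal_comp.congr_deriv ?_
  push_cast
  ring

/-- GK1: integration by parts -/
theorem g1_eq_pr (N : ℝ) (hN : 1 ≤ N) (c : ℂ) (hc : |c.re| < 1 / 2) (v : ℝ) :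
    g1 c v = ∫ y : ℝ, k1 N c y * gz N (v - y) := by
  obtain ⟨hc1, hc2⟩ := abs_lt.1 hc
  set A : ℝ := 1 / 2 + ‖c‖ with hA
  have hA0 : 0 ≤ A := by positivity
  have hπ := Real.pi_pos
  have hN4 : ((N + 1 / 4 : ℝ) : ℂ) ≠ 0 := by
    rw [Ne, Complex.ofReal_eq_zero]
    linarith
  -- the polynomial factors
  set P1 : ℝ → ℂ := fun y => 1 / 4 - pk c y with hP1
  set P2 : ℝ → ℂ := fun y => (N : ℂ) + pk c y with hP2
  set P3 : ℝ → ℂ := fun y => (N : ℂ) / 4 + (1 / 4 - (N : ℂ)) * pk c y +
    4 * Real.pi * Real.exp (2 * y) - pk c y ^ 2 with hP3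
  set M : ℝ := 1 / 4 + N + N / 4 + A + N * A + A ^ 2 + (2 * Real.pi + 2 * Real.pi * N +
    4 * Real.pi + 4 * Real.pi * A) + 4 * Real.pi ^ 2 with hM
  have hM0 : 0 ≤ M := by positivity
  have b1 : ∀ y, ‖P1 y‖ ≤ M * (1 + Real.exp (2 * y) + Real.exp (2 * y) ^ 2) := by
    intro y
    have hE : 0 ≤ Real.exp (2 * y) := Real.exp_nonneg _
    have h1 : ‖P1 y‖ ≤ 1 / 4 + (A + 2 * Real.pi * Real.exp (2 * y)) := by
      refine (norm_sub_le _ _).trans (add_le_add ?_ (gk1_pk_bd c y))
      simp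
    refine h1.trans ?_
    set E := Real.exp (2 * y)
    have e1 : 1 / 4 + A ≤ M := by
      rw [hM]
      have : 0 ≤ N + N / 4 + N * A + A ^ 2 + (2 * Real.pi + 2 * Real.pi * N +
        4 * Real.pi + 4 * Real.pi * A) + 4 * Real.pi ^ 2 := by positivity
      linarith
    have e2 : 2 * Real.pi ≤ M := by
      rw [hM]
      have : 0 ≤ 1 / 4 + N + N / 4 + A + N * A + A ^ 2 + (2 * Real.pi * N +
        4 * Real.pi + 4 * Real.pi * A) + 4 * Real.pi ^ 2 := by positivity
      linarith
    have e3 := mul_le_mul_of_nonneg_right e2 hE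
    have e4 : 0 ≤ M * E ^ 2 := by positivity
    linarith
  have b2 : ∀ y, ‖P2 y‖ ≤ M * (1 + Real.exp (2 * y) + Real.exp (2 * y) ^ 2) := by
    intro y
    have hE : 0 ≤ Real.exp (2 * y) := Real.exp_nonneg _
    have h1 : ‖P2 y‖ ≤ N + (A + 2 * Real.pi * Real.exp (2 * y)) := by
      refine (norm_add_le _ _).trans (add_le_add ?_ (gk1_pk_bd c y))
      rw [Complex.norm_real, Real.norm_eq_abs, abs_of_nonneg (by linarith)]
    refine h1.trans ?_
    set E := Real.exp (2 * y)
    have e1 : N + A ≤ M := by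
      rw [hM]
      have : 0 ≤ 1 / 4 + N / 4 + N * A + A ^ 2 + (2 * Real.pi + 2 * Real.pi * N +
        4 * Real.pi + 4 * Real.pi * A) + 4 * Real.pi ^ 2 := by positivity
      linarith
    have e2 : 2 * Real.pi ≤ M := by
      rw [hM]
      have : 0 ≤ 1 / 4 + N + N / 4 + A + N * A + A ^ 2 + (2 * Real.pi * N +
        4 * Real.pi + 4 * Real.pi * A) + 4 * Real.pi ^ 2 := by positivity
      linarith
    have e3 := mul_le_mul_of_nonneg_right e2 hE
    have e4 : 0 ≤ M * E ^ 2 := by positivity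
    linarith
  have b3 : ∀ y, ‖P3 y‖ ≤ M * (1 + Real.exp (2 * y) + Real.exp (2 * y) ^ 2) := by
    intro y
    have hE : 0 ≤ Real.exp (2 * y) := Real.exp_nonneg _
    have hp := gk1_pk_bd c y
    rw [← hA] at hp
    have n1 : ‖(N : ℂ) / 4‖ = N / 4 := by
      rw [norm_div, Complex.norm_real, Real.norm_eq_abs, abs_of_nonneg (by linarith)]
      simp
    have n2 : ‖(1 / 4 - (N : ℂ))‖ ≤ N := by
      have h : (1 / 4 - (N : ℂ)) = ((1 / 4 - N : ℝ) : ℂ) := by push_cast; ring
      rw [h, Complex.norm_real, Real.norm_eq_abs, abs_le]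
      constructor <;> linarith
    have n3 : ‖(4 * Real.pi * Real.exp (2 * y) : ℂ)‖ = 4 * Real.pi * Real.exp (2 * y) := by
      rw [norm_mul, norm_mul, Complex.norm_real, Complex.norm_real, Real.norm_eq_abs,
        Real.norm_eq_abs, Real.abs_exp, abs_of_pos Real.pi_pos]
      simp
    have h1 : ‖P3 y‖ ≤ N / 4 + N * (A + 2 * Real.pi * Real.exp (2 * y)) +
        4 * Real.pi * Real.exp (2 * y) + (A + 2 * Real.pi * Real.exp (2 * y)) ^ 2 := by
      refine (norm_sub_le _ _).trans (add_le_add ((norm_add_le _ _).trans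
        (add_le_add ((norm_add_le _ _).trans (add_le_add n1.le ?_)) n3.le)) ?_)
      · rw [norm_mul]
        exact mul_le_mul n2 hp (norm_nonneg _) (by linarith)
      · rw [norm_pow]
        exact pow_le_pow_left₀ (norm_nonneg _) hp 2
    refine h1.trans ?_
    set E := Real.exp (2 * y)
    have e1 : N / 4 + N * A + A ^ 2 ≤ M := by
      rw [hM]
      have : 0 ≤ 1 / 4 + N + A + (2 * Real.pi + 2 * Real.pi * N +
        4 * Real.pi + 4 * Real.pi * A) + 4 * Real.pi ^ 2 := by positivity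
      linarith
    have e2 : 2 * Real.pi * N + 4 * Real.pi + 4 * Real.pi * A ≤ M := by
      rw [hM]
      have : 0 ≤ 1 / 4 + N + N / 4 + A + N * A + A ^ 2 + (2 * Real.pi) +
        4 * Real.pi ^ 2 := by positivity
      linarith
    have e3 : 4 * Real.pi ^ 2 ≤ M := by
      rw [hM]
      have : 0 ≤ 1 / 4 + N + N / 4 + A + N * A + A ^ 2 + (2 * Real.pi + 2 * Real.pi * N +
        4 * Real.pi + 4 * Real.pi * A) := by positivity
      linarith
    have e4 := mul_le_mul_of_nonneg_right e2 hE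
    have e5 := mul_le_mul_of_nonneg_right e3 (sq_nonneg E)
    have e6 : N / 4 + N * (A + 2 * Real.pi * E) + 4 * Real.pi * E + (A + 2 * Real.pi * E) ^ 2 =
      (N / 4 + N * A + A ^ 2) + (2 * Real.pi * N + 4 * Real.pi + 4 * Real.pi * A) * E +
        4 * Real.pi ^ 2 * E ^ 2 := by ring
    rw [e6]
    linarith
  -- derivatives
  have dpk := gk1_deriv_pk c
  have dg := gk1_deriv_g1 c
  have d1 : ∀ y, HasDerivAt (fun y => P1 y * g1 c y * ((Real.exp (N * (y - v)) : ℝ) : ℂ))
      (P3 y * g1 c y * ((Real.exp (N * (y - v)) : ℝ) : ℂ)) y := by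
    intro y
    have h := (((dpk y).const_sub (1 / 4)).mul (dg y)).mul (gk1_exp_deriv N v y)
    refine h.congr_deriv ?_
    simp only [hP3, Pi.mul_apply]
    ring
  have d2 : ∀ y, HasDerivAt
      (fun y => -(P2 y * g1 c y * ((Real.exp (-(1 / 4) * (y - v)) : ℝ) : ℂ)))
      (P3 y * g1 c y * ((Real.exp (-(1 / 4) * (y - v)) : ℝ) : ℂ)) y := by
    intro y
    have h := ((((dpk y).const_add (N : ℂ)).mul (dg y)).mul (gk1_exp_deriv (-(1 / 4)) v y)).neg
    refine h.congr_deriv ?_
    simp only [hP3, Pi.mul_apply]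
    push_cast
    ring
  have hcont : Continuous (g1 c) := continuous_iff_continuousAt.2 fun y => (dg y).continuousAt
  have hcpk : Continuous (pk c) := continuous_iff_continuousAt.2 fun y => (dpk y).continuousAt
  have hcP3 : Continuous P3 := by
    simp only [hP3]
    fun_prop
  -- integrability
  have i1 : IntegrableOn (fun y => P3 y * g1 c y * ((Real.exp (N * (y - v)) : ℝ) : ℂ))
      (Set.Iic v) := by
    have hi : IntegrableOn (fun y : ℝ => 18 * M * Real.exp (-(N * v)) *
        Real.exp ((1 / 2 + c.re + N) * y)) (Set.Iic v) := by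
      apply Integrable.const_mul
      exact integrableOn_exp_mul_Iic (by linarith) v
    refine Integrable.mono' hi ?_ ?_
    · apply Continuous.aestronglyMeasurable
      exact (hcP3.mul hcont).mul (Complex.continuous_ofReal.comp (by fun_prop))
    · filter_upwards with y
      rw [norm_mul, Complex.norm_real, Real.norm_eq_abs, Real.abs_exp]
      calc ‖P3 y * g1 c y‖ * Real.exp (N * (y - v)) ≤
          18 * M * Real.exp ((1 / 2 + c.re) * y) * Real.exp (N * (y - v)) :=
            mul_le_mul_of_nonneg_right (gk1_bound c P3 M hM0 b3 y).1 (Real.exp_nonneg _)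
        _ = 18 * M * (Real.exp ((1 / 2 + c.re) * y) * Real.exp (N * (y - v))) := by ring
        _ = 18 * M * (Real.exp (-(N * v)) * Real.exp ((1 / 2 + c.re + N) * y)) := by
            rw [← Real.exp_add, ← Real.exp_add]
            congr 2
            ring
        _ = _ := by ring
  have i2 : IntegrableOn (fun y => P3 y * g1 c y * ((Real.exp (-(1 / 4) * (y - v)) : ℝ) : ℂ))
      (Set.Ioi v) := by
    have hi : IntegrableOn (fun y : ℝ => 18 * M * Real.exp (v / 4) *
        Real.exp ((1 / 2 + c.re - 2 - 1 / 4) * y)) (Set.Ioi v) := by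
      apply Integrable.const_mul
      exact integrableOn_exp_mul_Ioi (by linarith) v
    refine Integrable.mono' hi ?_ ?_
    · apply Continuous.aestronglyMeasurable
      exact (hcP3.mul hcont).mul (Complex.continuous_ofReal.comp (by fun_prop))
    · filter_upwards with y
      rw [norm_mul, Complex.norm_real, Real.norm_eq_abs, Real.abs_exp]
      calc ‖P3 y * g1 c y‖ * Real.exp (-(1 / 4) * (y - v)) ≤
          18 * M * Real.exp ((1 / 2 + c.re - 2) * y) * Real.exp (-(1 / 4) * (y - v)) :=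
            mul_le_mul_of_nonneg_right (gk1_bound c P3 M hM0 b3 y).2 (Real.exp_nonneg _)
        _ = 18 * M * (Real.exp ((1 / 2 + c.re - 2) * y) * Real.exp (-(1 / 4) * (y - v))) := by
            ring
        _ = 18 * M * (Real.exp (v / 4) * Real.exp ((1 / 2 + c.re - 2 - 1 / 4) * y)) := by
            rw [← Real.exp_add, ← Real.exp_add]
            congr 2
            ring
        _ = _ := by ring
  -- limits
  have l1 : Filter.Tendsto (fun y => P1 y * g1 c y * ((Real.exp (N * (y - v)) : ℝ) : ℂ))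
      Filter.atBot (nhds 0) := by
    apply squeeze_zero_norm (a := fun y : ℝ => 18 * M * Real.exp (-(N * v)) *
        Real.exp ((1 / 2 + c.re + N) * y))
    · intro y
      rw [norm_mul, Complex.norm_real, Real.norm_eq_abs, Real.abs_exp]
      calc ‖P1 y * g1 c y‖ * Real.exp (N * (y - v)) ≤
          18 * M * Real.exp ((1 / 2 + c.re) * y) * Real.exp (N * (y - v)) :=
            mul_le_mul_of_nonneg_right (gk1_bound c P1 M hM0 b1 y).1 (Real.exp_nonneg _)
        _ = 18 * M * (Real.exp ((1 / 2 + c.re) * y) * Real.exp (N * (y - v))) := by ring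
        _ = 18 * M * (Real.exp (-(N * v)) * Real.exp ((1 / 2 + c.re + N) * y)) := by
            rw [← Real.exp_add, ← Real.exp_add]
            congr 2
            ring
        _ = _ := by ring
    · have h1 : Filter.Tendsto (fun y : ℝ => Real.exp ((1 / 2 + c.re + N) * y))
          Filter.atBot (nhds 0) := by
        apply Real.tendsto_exp_atBot.comp
        exact Filter.tendsto_id.const_mul_atBot (by linarith)
      simpa using h1.const_mul (18 * M * Real.exp (-(N * v)))
  have l2 : Filter.Tendsto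
      (fun y => -(P2 y * g1 c y * ((Real.exp (-(1 / 4) * (y - v)) : ℝ) : ℂ)))
      Filter.atTop (nhds 0) := by
    apply squeeze_zero_norm (a := fun y : ℝ => 18 * M * Real.exp (v / 4) *
        Real.exp ((1 / 2 + c.re - 2 - 1 / 4) * y))
    · intro y
      rw [norm_neg, norm_mul, Complex.norm_real, Real.norm_eq_abs, Real.abs_exp]
      calc ‖P2 y * g1 c y‖ * Real.exp (-(1 / 4) * (y - v)) ≤
          18 * M * Real.exp ((1 / 2 + c.re - 2) * y) * Real.exp (-(1 / 4) * (y - v)) :=
            mul_le_mul_of_nonneg_right (gk1_bound c P2 M hM0 b2 y).2 (Real.exp_nonneg _)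
        _ = 18 * M * (Real.exp ((1 / 2 + c.re - 2) * y) * Real.exp (-(1 / 4) * (y - v))) := by
            ring
        _ = 18 * M * (Real.exp (v / 4) * Real.exp ((1 / 2 + c.re - 2 - 1 / 4) * y)) := by
            rw [← Real.exp_add, ← Real.exp_add]
            congr 2
            ring
        _ = _ := by ring
    · have h1 : Filter.Tendsto (fun y : ℝ => Real.exp ((1 / 2 + c.re - 2 - 1 / 4) * y))
          Filter.atTop (nhds 0) := by
        apply Real.tendsto_exp_atBot.comp
        exact Filter.tendsto_id.const_mul_atTop_of_neg (by linarith)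
      simpa using h1.const_mul (18 * M * Real.exp (v / 4))
  -- the integrals
  have J1 := integral_Iic_of_hasDerivAt_of_tendsto (a := v) (d1 v).continuousAt.continuousWithinAt
    (fun y _ => d1 y) i1 l1
  have J2 := integral_Ioi_of_hasDerivAt_of_tendsto (a := v) (d2 v).continuousAt.continuousWithinAt
    (fun y _ => d2 y) i2 l2
  have f1 : Set.EqOn (fun y => k1 N c y * gz N (v - y))
      (fun y => ((N + 1 / 4 : ℝ) : ℂ)⁻¹ *
        (P3 y * g1 c y * ((Real.exp (N * (y - v)) : ℝ) : ℂ))) (Set.Iic v) := by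
    intro y hy
    have hy' : 0 ≤ v - y := sub_nonneg.2 hy
    have h : gz N (v - y) = ((Real.exp (N * (y - v)) : ℝ) : ℂ) := by
      unfold gz G0
      rw [if_pos hy']
      congr 2
      ring
    show k1 N c y * gz N (v - y) = _
    rw [h]
    unfold k1
    simp only [hP3]
    ring
  have f2 : Set.EqOn (fun y => k1 N c y * gz N (v - y))
      (fun y => ((N + 1 / 4 : ℝ) : ℂ)⁻¹ *
        (P3 y * g1 c y * ((Real.exp (-(1 / 4) * (y - v)) : ℝ) : ℂ))) (Set.Ioi v) := by
    intro y hy
    have hy' : ¬ 0 ≤ v - y := by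
      have : v < y := hy
      linarith
    have h : gz N (v - y) = ((Real.exp (-(1 / 4) * (y - v)) : ℝ) : ℂ) := by
      unfold gz G0
      rw [if_neg hy']
      congr 2
      ring
    show k1 N c y * gz N (v - y) = _
    rw [h]
    unfold k1
    simp only [hP3]
    ring
  have g1i : IntegrableOn (fun y => k1 N c y * gz N (v - y)) (Set.Iic v) :=
    (integrableOn_congr_fun f1 measurableSet_Iic).2 (i1.const_mul _)
  have g2i : IntegrableOn (fun y => k1 N c y * gz N (v - y)) (Set.Ioi v) :=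
    (integrableOn_congr_fun f2 measurableSet_Ioi).2 (i2.const_mul _)
  rw [← intervalIntegral.integral_Iic_add_Ioi g1i g2i,
    setIntegral_congr_fun measurableSet_Iic f1, setIntegral_congr_fun measurableSet_Ioi f2,
    integral_const_mul, integral_const_mul, J1, J2]
  simp only [hP1, hP2, sub_self, mul_zero, Real.exp_zero, Complex.ofReal_one, mul_one, sub_zero,
    zero_sub, neg_neg]
  rw [← mul_add]
  have h5 : (1 / 4 - pk c v) * g1 c v + ((N : ℂ) + pk c v) * g1 c v =
      ((N + 1 / 4 : ℝ) : ℂ) * g1 c v := by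
    push_cast
    ring
  rw [h5, inv_mul_cancel_left₀ hN4]


end

end Pool.Agent.BX

namespace Pool.Agent.BX

theorem g1_eq : type_of% @g1_eq_pr := @g1_eq_pr

end Pool.Agent.BX
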