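import Pool.Agent.Lib_helper61.BXF.GK1
import Pool.Agent.Lib_helper61.BX.DefsK

/-!
# Block GK2: bounds for one factor, uniformly in `c`
-/

set_option autoImplicit false

namespace Pool.Agent.BX

open MeasureTheory Complex Finset
open Pool.Agent.SGN
open Pool.Agent.QG (ew)
open Pool.Agent.SGD (gz G0 GCl)

noncomputable section

private lemma gk2_norm (c : ℂ) (v : ℝ) :
    ‖g1 c v‖ = 2 * Real.exp (-(Real.pi * Real.exp (2 * v))) * Real.exp ((1 / 2 + c.re) * v) := by
  unfold g1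
  rw [norm_mul, norm_mul, Complex.norm_exp, Complex.norm_real, Real.norm_eq_abs,
    abs_of_pos (Real.exp_pos _)]
  have : ((1 / 2 + c) * (v : ℂ)).re = (1 / 2 + c.re) * v := by simp
  rw [this]
  norm_num

private lemma gk2_core (κ R B : ℝ) (hκ : 0 < κ) (hB : -(κ / 2) ≤ B) (x v : ℝ)
    (hx : -(1 / 2) + κ ≤ x) (hxR : x ≤ R) :
    Real.exp (-(Real.pi / 2 * Real.exp (2 * v))) * Real.exp ((1 / 2 + x) * v) ≤
      Real.exp ((1 / 2 + |R| + |B|) ^ 2) * Real.exp (-(B * v)) := by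
  rw [← Real.exp_add, ← Real.exp_add]
  apply Real.exp_le_exp.mpr
  have hpi : (3 : ℝ) < Real.pi := Real.pi_gt_three
  set A := 1 / 2 + |R| + |B| with hA
  have hAR : R ≤ |R| := le_abs_self R
  have hAB : B ≤ |B| := le_abs_self B
  have hR0 : 0 ≤ |R| := abs_nonneg R
  have hB0 : 0 ≤ |B| := abs_nonneg B
  have hA0 : 0 < A := by positivity
  have he : 0 < Real.exp (2 * v) := Real.exp_pos _
  have ha1 : 0 < 1 / 2 + x + B := by linarith
  have ha2 : 1 / 2 + x + B ≤ A := by linarith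
  rcases le_total v 0 with hv | hv
  · have h1 : (1 / 2 + x + B) * v ≤ 0 := mul_nonpos_of_nonneg_of_nonpos ha1.le hv
    nlinarith [mul_pos (lt_trans (by norm_num : (0 : ℝ) < 3) hpi) he, sq_nonneg A]
  · have h1 : (1 / 2 + x + B) * v ≤ A * v := mul_le_mul_of_nonneg_right ha2 hv
    have h2 : v ^ 2 ≤ Real.exp (2 * v) := by
      have h3 : 1 + v ≤ Real.exp v := by linarith [Real.add_one_le_exp v]
      have h4 : Real.exp (2 * v) = Real.exp v ^ 2 := by
        rw [← Real.exp_nat_mul]; norm_num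
      rw [h4]
      have : v ≤ Real.exp v := by linarith
      exact pow_le_pow_left₀ hv this 2
    nlinarith [mul_le_mul_of_nonneg_left h2 (by linarith : (0 : ℝ) ≤ Real.pi / 2),
      sq_nonneg (A - v / 2), sq_nonneg v]

/-- GK2: bounds for one factor, uniformly in `c` -/
theorem k1_bd_pr (κ R : ℝ) (hκ : 0 < κ) : ∃ M : ℝ → ℝ → ℝ, ∀ c : ℂ, -(1 / 2) + κ ≤ c.re →
    ‖c‖ ≤ R → ∀ B : ℝ, -(κ / 2) ≤ B → ∀ v : ℝ,
      ‖g1 c v‖ ≤ M 0 B * Real.exp (-(B * v)) ∧
      ∀ N : ℝ, 1 ≤ N → ‖k1 N c v‖ ≤ M N B * Real.exp (-(B * v)) := by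
  refine ⟨fun N B => 2 * (1 + |N| / 4 + (1 / 4 + |N|) * (R + 17 / 2) + 16 + (R + 17 / 2) ^ 2) *
    Real.exp ((1 / 2 + |R| + |B|) ^ 2), ?_⟩
  intro c hc hcR B hB v
  have hR : 0 ≤ R := le_trans (norm_nonneg c) hcR
  have hcre : c.re ≤ R := le_trans (Complex.re_le_norm c) hcR
  have hcore := gk2_core κ R B hκ hB c.re v hc hcre
  have hpi : 0 < Real.pi := Real.pi_pos
  have he : 0 < Real.exp (2 * v) := Real.exp_pos _
  set e := Real.exp (2 * v) with hedef
  set X := Real.exp ((1 / 2 + c.re) * v) with hX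
  have hXp : 0 < X := Real.exp_pos _
  set F := Real.exp ((1 / 2 + |R| + |B|) ^ 2) with hF
  have hFp : 0 < F := Real.exp_pos _
  have hsplit : Real.exp (-(Real.pi * e)) =
      Real.exp (-(Real.pi / 2 * e)) * Real.exp (-(Real.pi / 2 * e)) := by
    rw [← Real.exp_add]; congr 1; ring
  have hle1 : Real.exp (-(Real.pi / 2 * e)) ≤ 1 := by
    rw [Real.exp_le_one_iff]; nlinarith [mul_pos hpi he]
  have hHp : 0 < Real.exp (-(Real.pi / 2 * e)) := Real.exp_pos _
  have hEp : 0 < Real.exp (-(B * v)) := Real.exp_pos _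
  have hg : ‖g1 c v‖ ≤ 2 * Real.exp (-(Real.pi / 2 * e)) * (F * Real.exp (-(B * v))) := by
    rw [gk2_norm, hsplit]
    calc 2 * (Real.exp (-(Real.pi / 2 * e)) * Real.exp (-(Real.pi / 2 * e))) * X
        = 2 * Real.exp (-(Real.pi / 2 * e)) * (Real.exp (-(Real.pi / 2 * e)) * X) := by ring
      _ ≤ _ := by
        apply mul_le_mul_of_nonneg_left hcore (by positivity)
  constructor
  · refine le_trans hg ?_
    calc 2 * Real.exp (-(Real.pi / 2 * e)) * (F * Real.exp (-(B * v)))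
        ≤ 2 * 1 * (F * Real.exp (-(B * v))) := by
          apply mul_le_mul_of_nonneg_right _ (by positivity)
          linarith
      _ ≤ _ := by
        have h1 : (1 : ℝ) ≤ 1 + |(0 : ℝ)| / 4 + (1 / 4 + |(0 : ℝ)|) * (R + 17 / 2) + 16 +
            (R + 17 / 2) ^ 2 := by
          rw [abs_zero]; nlinarith [sq_nonneg (R + 17 / 2)]
        calc 2 * 1 * (F * Real.exp (-(B * v))) = (2 * 1 * F) * Real.exp (-(B * v)) := by ring
          _ ≤ _ := by
            apply mul_le_mul_of_nonneg_right _ hEp.le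
            apply mul_le_mul_of_nonneg_right _ hFp.le
            linarith
  · intro N hN
    have hN0 : 0 ≤ N := by linarith
    have habsN : |N| = N := abs_of_nonneg hN0
    set E := Real.exp (Real.pi / 4 * e) with hE
    have hE1 : 1 ≤ E := by
      exact Real.one_le_exp (by positivity)
    have hEe : Real.pi / 4 * e ≤ E := by
      have := Real.add_one_le_exp (Real.pi / 4 * e); linarith
    set q := 1 / 2 + R + 2 * Real.pi * e with hq
    have hq0 : 0 ≤ q := by positivity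
    have hqE : q ≤ (R + 17 / 2) * E := by nlinarith [mul_nonneg hR (by linarith : (0 : ℝ) ≤ E - 1)]
    have hpk : ‖pk c v‖ ≤ q := by
      unfold pk
      calc ‖1 / 2 + c - 2 * Real.pi * Real.exp (2 * v)‖
          ≤ ‖(1 / 2 : ℂ) + c‖ + ‖(2 * Real.pi * Real.exp (2 * v) : ℂ)‖ := norm_sub_le _ _
        _ ≤ (‖(1 / 2 : ℂ)‖ + ‖c‖) + ‖(2 * Real.pi * Real.exp (2 * v) : ℂ)‖ := by
            gcongr; exact norm_add_le _ _
        _ ≤ q := by
            have h1 : ‖(1 / 2 : ℂ)‖ = 1 / 2 := by norm_num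
            have h2 : ‖(2 * Real.pi * Real.exp (2 * v) : ℂ)‖ = 2 * Real.pi * e := by
              rw [show (2 * Real.pi * Real.exp (2 * v) : ℂ) =
                ((2 * Real.pi * Real.exp (2 * v) : ℝ) : ℂ) by push_cast; ring,
                Complex.norm_real, Real.norm_eq_abs, abs_of_pos (by positivity)]
            rw [h1, h2]; linarith
    have hpoly : ‖((N : ℂ) / 4 + (1 / 4 - (N : ℂ)) * pk c v +
        4 * Real.pi * Real.exp (2 * v) - pk c v ^ 2)‖ ≤
        N / 4 + (1 / 4 + N) * q + 4 * Real.pi * e + q ^ 2 := by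
      have a1 : ‖(N : ℂ) / 4‖ = N / 4 := by
        rw [norm_div, Complex.norm_real, Real.norm_eq_abs, habsN]; norm_num
      have a2 : ‖(1 / 4 - (N : ℂ)) * pk c v‖ ≤ (1 / 4 + N) * q := by
        rw [norm_mul]
        apply mul_le_mul _ hpk (norm_nonneg _) (by linarith)
        calc ‖(1 / 4 - (N : ℂ))‖ ≤ ‖(1 / 4 : ℂ)‖ + ‖(N : ℂ)‖ := norm_sub_le _ _
          _ = 1 / 4 + N := by rw [Complex.norm_real, Real.norm_eq_abs, habsN]; norm_num
      have a3 : ‖(4 * Real.pi * Real.exp (2 * v) : ℂ)‖ = 4 * Real.pi * e := by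
        rw [show (4 * Real.pi * Real.exp (2 * v) : ℂ) =
          ((4 * Real.pi * Real.exp (2 * v) : ℝ) : ℂ) by push_cast; ring,
          Complex.norm_real, Real.norm_eq_abs, abs_of_pos (by positivity)]
      have a4 : ‖pk c v ^ 2‖ ≤ q ^ 2 := by
        rw [norm_pow]; exact pow_le_pow_left₀ (norm_nonneg _) hpk 2
      calc _ ≤ ‖(N : ℂ) / 4 + (1 / 4 - (N : ℂ)) * pk c v +
            4 * Real.pi * Real.exp (2 * v)‖ + ‖pk c v ^ 2‖ := norm_sub_le _ _
        _ ≤ (‖(N : ℂ) / 4 + (1 / 4 - (N : ℂ)) * pk c v‖ +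
            ‖(4 * Real.pi * Real.exp (2 * v) : ℂ)‖) + ‖pk c v ^ 2‖ := by
            gcongr; exact norm_add_le _ _
        _ ≤ ((‖(N : ℂ) / 4‖ + ‖(1 / 4 - (N : ℂ)) * pk c v‖) +
            ‖(4 * Real.pi * Real.exp (2 * v) : ℂ)‖) + ‖pk c v ^ 2‖ := by
            gcongr; exact norm_add_le _ _
        _ ≤ _ := by rw [a1, a3]; linarith
    set CN := N / 4 + (1 / 4 + N) * (R + 17 / 2) + 16 + (R + 17 / 2) ^ 2 with hCN
    have hE2 : E ≤ E ^ 2 := by nlinarith
    have hpolyE : N / 4 + (1 / 4 + N) * q + 4 * Real.pi * e + q ^ 2 ≤ CN * E ^ 2 := by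
      have b1 : N / 4 ≤ N / 4 * E ^ 2 := by
        apply le_mul_of_one_le_right (by linarith); linarith
      have b2 : (1 / 4 + N) * q ≤ (1 / 4 + N) * (R + 17 / 2) * E ^ 2 := by
        calc (1 / 4 + N) * q ≤ (1 / 4 + N) * ((R + 17 / 2) * E) := by
              apply mul_le_mul_of_nonneg_left hqE (by linarith)
          _ ≤ (1 / 4 + N) * ((R + 17 / 2) * E ^ 2) := by
              apply mul_le_mul_of_nonneg_left _ (by linarith)
              apply mul_le_mul_of_nonneg_left hE2 (by linarith)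
          _ = _ := by ring
      have b3 : 4 * Real.pi * e ≤ 16 * E ^ 2 := by
        have h5 : 4 * Real.pi * e = 16 * (Real.pi / 4 * e) := by ring
        rw [h5]; linarith
      have b4 : q ^ 2 ≤ (R + 17 / 2) ^ 2 * E ^ 2 := by
        calc q ^ 2 ≤ ((R + 17 / 2) * E) ^ 2 := pow_le_pow_left₀ hq0 hqE 2
          _ = _ := by ring
      have b5 : CN * E ^ 2 = N / 4 * E ^ 2 + (1 / 4 + N) * (R + 17 / 2) * E ^ 2 + 16 * E ^ 2 +
          (R + 17 / 2) ^ 2 * E ^ 2 := by rw [hCN]; ring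
      rw [b5]; linarith
    have hEE : E ^ 2 * Real.exp (-(Real.pi / 2 * e)) = 1 := by
      rw [hE, ← Real.exp_nat_mul, ← Real.exp_add, Real.exp_eq_one_iff]
      push_cast; ring
    have hinv : ‖((N + 1 / 4 : ℝ) : ℂ)⁻¹‖ ≤ 1 := by
      rw [norm_inv, Complex.norm_real, Real.norm_eq_abs, abs_of_pos (by linarith)]
      apply inv_le_one_of_one_le₀; linarith
    have hCN0 : 0 ≤ CN := by positivity
    calc ‖k1 N c v‖ = ‖((N + 1 / 4 : ℝ) : ℂ)⁻¹‖ * ‖((N : ℂ) / 4 + (1 / 4 - (N : ℂ)) * pk c v +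
        4 * Real.pi * Real.exp (2 * v) - pk c v ^ 2)‖ * ‖g1 c v‖ := by
          unfold k1; rw [norm_mul, norm_mul]
      _ ≤ 1 * (CN * E ^ 2) * (2 * Real.exp (-(Real.pi / 2 * e)) * (F * Real.exp (-(B * v)))) := by
          apply mul_le_mul _ hg (norm_nonneg _) (by positivity)
          apply mul_le_mul hinv (le_trans hpoly hpolyE) (norm_nonneg _) (by norm_num)
      _ = 2 * CN * F * (E ^ 2 * Real.exp (-(Real.pi / 2 * e))) * Real.exp (-(B * v)) := by ring
      _ = 2 * CN * F * Real.exp (-(B * v)) := by rw [hEE]; ring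
      _ ≤ _ := by
          apply mul_le_mul_of_nonneg_right _ hEp.le
          apply mul_le_mul_of_nonneg_right _ hFp.le
          rw [habsN, hCN]; linarith


end

end Pool.Agent.BX

namespace Pool.Agent.BX

theorem k1_bd : type_of% @k1_bd_pr := @k1_bd_pr

end Pool.Agent.BX
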