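import Pool.Agent.Lib_helper61.BXF.GK2
import Pool.Agent.Lib_helper61.BX.DefsK

set_option autoImplicit false

namespace Pool.Agent.BX

open MeasureTheory Complex Finset
open Pool.Agent.SGN
open Pool.Agent.QG (ew)
open Pool.Agent.SGD (gz G0 GCl)

noncomputable section

/-- `e^{-δ|v|}` is integrable -/
theorem gk3_exp_int {δ : ℝ} (hδ : 0 < δ) : Integrable (fun v : ℝ => Real.exp (-(δ * |v|))) := by
  rw [← integrableOn_univ, ← Set.Iic_union_Ioi (a := (0 : ℝ))]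
  refine IntegrableOn.union ?_ ?_
  · refine (integrableOn_exp_mul_Iic hδ 0).congr_fun (fun v hv => ?_) measurableSet_Iic
    rw [abs_of_nonpos hv]
    simp
  · refine (exp_neg_integrableOn_Ioi 0 hδ).congr_fun (fun v hv => ?_) measurableSet_Ioi
    show Real.exp (-δ * v) = Real.exp (-(δ * |v|))
    rw [abs_of_pos hv, neg_mul]

/-- two one-sided bounds give a two-sided one -/
theorem gk3_two {f : ℝ → ℂ} {a₁ a₂ B δ : ℝ}
    (h1 : ∀ v, ‖f v‖ ≤ a₁ * Real.exp (-((B + δ) * v)))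
    (h2 : ∀ v, ‖f v‖ ≤ a₂ * Real.exp (-((B - δ) * v))) (v : ℝ) :
    ‖f v‖ ≤ (a₁ + a₂) * Real.exp (-(B * v)) * Real.exp (-(δ * |v|)) := by
  have ha₁ : 0 ≤ a₁ := by
    have := (norm_nonneg _).trans (h1 0)
    simpa using this
  have ha₂ : 0 ≤ a₂ := by
    have := (norm_nonneg _).trans (h2 0)
    simpa using this
  rw [mul_assoc, ← Real.exp_add]
  rcases le_total 0 v with hv | hv
  · rw [abs_of_nonneg hv]
    have h3 : -(B * v) + -(δ * v) = -((B + δ) * v) := by ring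
    rw [h3]
    refine (h1 v).trans (mul_le_mul_of_nonneg_right (by linarith) (Real.exp_pos _).le)
  · rw [abs_of_nonpos hv]
    have h3 : -(B * v) + -(δ * -v) = -((B - δ) * v) := by ring
    rw [h3]
    refine (h2 v).trans (mul_le_mul_of_nonneg_right (by linarith) (Real.exp_pos _).le)

theorem gk3_int {f : ℝ → ℂ} {a₁ a₂ δ : ℝ} (hδ : 0 < δ) (hf : Continuous f)
    (h1 : ∀ v, ‖f v‖ ≤ a₁ * Real.exp (-(δ * v)))
    (h2 : ∀ v, ‖f v‖ ≤ a₂ * Real.exp (-(-δ * v))) : Integrable f := by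
  refine Integrable.mono' ((gk3_exp_int hδ).const_mul (a₁ + a₂)) hf.aestronglyMeasurable
    (Filter.Eventually.of_forall fun v => ?_)
  have h3 := gk3_two (B := 0) (δ := δ) (f := f) (a₁ := a₁) (a₂ := a₂)
    (fun v => by rw [zero_add]; exact h1 v) (fun v => by rw [zero_sub]; exact h2 v) v
  simpa using h3

/-- bound for a convolution -/
theorem gk3_cnv_bd {f r : ℝ → ℂ} {a₁ a₂ b B δ : ℝ} (hδ : 0 < δ)
    (h1 : ∀ v, ‖f v‖ ≤ a₁ * Real.exp (-((B + δ) * v)))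
    (h2 : ∀ v, ‖f v‖ ≤ a₂ * Real.exp (-((B - δ) * v)))
    (h3 : ∀ v, ‖r v‖ ≤ b * Real.exp (-(B * v))) (v : ℝ) :
    ‖cnv f r v‖ ≤ (a₁ + a₂) * b * (∫ u : ℝ, Real.exp (-(δ * |u|))) * Real.exp (-(B * v)) := by
  have hb : 0 ≤ b := by
    have := (norm_nonneg _).trans (h3 0)
    simpa using this
  have h4 : ∀ u : ℝ, ‖f u * r (v - u)‖ ≤
      ((a₁ + a₂) * b * Real.exp (-(B * v))) * Real.exp (-(δ * |u|)) := by
    intro u
    rw [norm_mul]
    have h5 := gk3_two h1 h2 u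
    have h6 := h3 (v - u)
    have h7 : Real.exp (-(B * v)) = Real.exp (-(B * u)) * Real.exp (-(B * (v - u))) := by
      rw [← Real.exp_add]
      congr 1
      ring
    rw [h7]
    calc ‖f u‖ * ‖r (v - u)‖ ≤ ((a₁ + a₂) * Real.exp (-(B * u)) * Real.exp (-(δ * |u|))) *
          (b * Real.exp (-(B * (v - u)))) := mul_le_mul h5 h6 (norm_nonneg _)
            ((norm_nonneg _).trans h5)
      _ = _ := by ring
  unfold cnv
  refine (norm_integral_le_of_norm_le ((gk3_exp_int hδ).const_mul _)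
    (Filter.Eventually.of_forall h4)).trans (le_of_eq ?_)
  rw [integral_const_mul]
  ring

/-- the kernel `gz N` -/
theorem gk3_gz {N : ℝ} (hN : 1 ≤ N) : Continuous (gz N) ∧
    ∀ v : ℝ, ‖gz N v‖ ≤ 1 ∧ ‖gz N v‖ ≤ Real.exp (-(1 / 4 * |v|)) := by
  have hc : Continuous (G0 N) := by
    unfold G0
    refine Continuous.if_le (by fun_prop) (by fun_prop) continuous_const continuous_id ?_
    intro v hv
    subst hv
    simp
  refine ⟨Complex.continuous_ofReal.comp hc, fun v => ?_⟩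
  have h0 : 0 ≤ G0 N v := by
    unfold G0
    split_ifs <;> exact (Real.exp_pos _).le
  have h1 : ‖gz N v‖ = G0 N v := by
    unfold gz
    rw [Complex.norm_real, Real.norm_of_nonneg h0]
  have h2 : G0 N v ≤ Real.exp (-(1 / 4 * |v|)) := by
    unfold G0
    split_ifs with h
    · rw [abs_of_nonneg h]
      refine Real.exp_le_exp.2 ?_
      nlinarith
    · have h' : v < 0 := not_le.1 h
      rw [abs_of_neg h']
      refine Real.exp_le_exp.2 ?_
      linarith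
  rw [h1]
  refine ⟨h2.trans ?_, h2⟩
  rw [Real.exp_le_one_iff]
  have := abs_nonneg v
  linarith

/-- the associativity that is needed -/
theorem gk3_assoc {k r z g : ℝ → ℂ} {b c : ℝ} (hk : Integrable k) (_ : Continuous k)
    (hr : Integrable r)
    (hrc : Continuous r) (hrb : ∀ v, ‖r v‖ ≤ b) (hz : Integrable z) (hzc : Continuous z)
    (hzb : ∀ v, ‖z v‖ ≤ c) (hg : ∀ v, g v = ∫ y : ℝ, k y * z (v - y)) (v : ℝ) :
    cnv g r v = ∫ w : ℝ, cnv k r w * z (v - w) := by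
  have i1 : Integrable (fun p : ℝ × ℝ => k p.2 * z (p.1 - p.2) * r (v - p.1))
      ((volume : Measure ℝ).prod volume) := by
    have h1 := Integrable.convolution_integrand (L := ContinuousLinearMap.mul ℂ ℂ)
      (μ := (volume : Measure ℝ)) (ν := (volume : Measure ℝ)) hk hz
    refine Integrable.mul_bdd (c := b) h1 ?_ (Filter.Eventually.of_forall fun p => hrb _)
    exact (hrc.comp (by fun_prop)).aestronglyMeasurable
  have i2 : Integrable (fun p : ℝ × ℝ => k p.2 * r (p.1 - p.2) * z (v - p.1))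
      ((volume : Measure ℝ).prod volume) := by
    have h1 := Integrable.convolution_integrand (L := ContinuousLinearMap.mul ℂ ℂ)
      (μ := (volume : Measure ℝ)) (ν := (volume : Measure ℝ)) hk hr
    refine Integrable.mul_bdd (c := c) h1 ?_ (Filter.Eventually.of_forall fun p => hzb _)
    exact (hzc.comp (by fun_prop)).aestronglyMeasurable
  have e1 : cnv g r v = ∫ u : ℝ, ∫ y : ℝ, k y * z (u - y) * r (v - u) := by
    unfold cnv
    refine integral_congr_ae (Filter.Eventually.of_forall fun u => ?_)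
    show g u * r (v - u) = ∫ y : ℝ, k y * z (u - y) * r (v - u)
    rw [hg u, ← integral_mul_const]
  have e2 : ∫ w : ℝ, cnv k r w * z (v - w) = ∫ w : ℝ, ∫ y : ℝ, k y * r (w - y) * z (v - w) := by
    refine integral_congr_ae (Filter.Eventually.of_forall fun w => ?_)
    show cnv k r w * z (v - w) = ∫ y : ℝ, k y * r (w - y) * z (v - w)
    unfold cnv
    rw [← integral_mul_const]
  have e3 := integral_integral_swap (f := fun u y : ℝ => k y * z (u - y) * r (v - u)) i1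
  have e4 := integral_integral_swap (f := fun u y : ℝ => k y * r (u - y) * z (v - u)) i2
  rw [e1, e2, e3, e4]
  refine integral_congr_ae (Filter.Eventually.of_forall fun y => ?_)
  show ∫ u : ℝ, k y * z (u - y) * r (v - u) = ∫ w : ℝ, k y * r (w - y) * z (v - w)
  have h1 := integral_sub_left_eq_self (fun w : ℝ => k y * r (w - y) * z (v - w)) volume (v + y)
  rw [← h1]
  refine integral_congr_ae (Filter.Eventually.of_forall fun u => ?_)
  show k y * z (u - y) * r (v - u) = k y * r (v + y - u - y) * z (v - (v + y - u))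
  have h2 : v + y - u - y = v - u := by ring
  have h3 : v - (v + y - u) = u - y := by ring
  rw [h2, h3]
  ring

theorem gk3_cnv_cont {k r : ℝ → ℂ} {b : ℝ} (hk : Integrable k) (hrc : Continuous r)
    (hrb : ∀ v, ‖r v‖ ≤ b) : Continuous (cnv k r) := by
  have h1 : BddAbove (Set.range fun x => ‖r x‖) := by
    refine ⟨b, ?_⟩
    rintro _ ⟨x, rfl⟩
    exact hrb x
  exact BddAbove.continuous_convolution_right_of_integrable (L := ContinuousLinearMap.mul ℂ ℂ)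
    (μ := (volume : Measure ℝ)) h1 hk hrc

theorem gk3_k1_cont (N : ℝ) (c : ℂ) : Continuous (k1 N c) := by
  unfold k1 pk g1
  fun_prop

/-- bounds for `gmu` for all `B ≥ -κ₁` -/
theorem gk3_gmu {n : ℕ} (K : Set (Fin n → ℂ)) (hK : Kok K) : ∃ (κ₁ : ℝ) (M₁ : ℝ → ℝ),
    0 < κ₁ ∧ (∀ B, 0 ≤ M₁ B) ∧ ∀ μ ∈ K, ∀ B : ℝ, -κ₁ ≤ B → ∀ v : ℝ,
      ‖gmu μ v‖ ≤ M₁ B * Real.exp (-(B * v)) := by
  obtain ⟨c₀, hc₀, hbd⟩ := gmu_bd K hK
  have hbd' : ∀ B : ℝ, ∃ C : ℝ, 0 ≤ C ∧ (0 ≤ B → ∀ μ ∈ K, ∀ v : ℝ,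
      ‖gmu μ v‖ ≤ C * Real.exp (c₀ * v) ∧ ‖gmu μ v‖ ≤ C * Real.exp (-(B * v))) := by
    intro B
    by_cases hB : 0 ≤ B
    · obtain ⟨C, hC0, hC⟩ := hbd B hB
      exact ⟨C, hC0, fun _ => hC⟩
    · exact ⟨0, le_rfl, fun h => absurd h hB⟩
  choose C hC0 hC using hbd'
  refine ⟨c₀, fun B => C (max B 0), hc₀, fun B => hC0 _, fun μ hμ B hB v => ?_⟩
  rcases le_total 0 B with hB0 | hB0
  · show ‖gmu μ v‖ ≤ C (max B 0) * Real.exp (-(B * v))
    rw [max_eq_left hB0]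
    exact (hC B hB0 μ hμ v).2
  · show ‖gmu μ v‖ ≤ C (max B 0) * Real.exp (-(B * v))
    rw [max_eq_right hB0]
    obtain ⟨h1, h2⟩ := hC 0 le_rfl μ hμ v
    rcases le_total 0 v with hv | hv
    · refine h2.trans (mul_le_mul_of_nonneg_left (Real.exp_le_exp.2 ?_) (hC0 _))
      nlinarith
    · refine h1.trans (mul_le_mul_of_nonneg_left (Real.exp_le_exp.2 ?_) (hC0 _))
      nlinarith

/-- uniform bounds for the first parameter -/
theorem gk3_par {n : ℕ} (K : Set (Fin (n + 1) → ℂ)) (hK : Kok K) : ∃ κ R : ℝ, 0 < κ ∧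
    ∀ μ ∈ K, -(1 / 2) + κ ≤ (μ 0).re ∧ ‖μ 0‖ ≤ R := by
  rcases K.eq_empty_or_nonempty with h | h
  · exact ⟨1, 0, one_pos, fun μ hμ => absurd hμ (by rw [h]; exact Set.notMem_empty μ)⟩
  obtain ⟨R, hR⟩ := hK.1.exists_bound_of_continuousOn (f := fun μ : Fin (n + 1) → ℂ => μ 0)
    (by fun_prop)
  obtain ⟨μ₀, hμ₀, hmin⟩ := hK.1.exists_isMinOn h
    (f := fun μ : Fin (n + 1) → ℂ => (μ 0).re) (by fun_prop)
  have h1 := hK.2 μ₀ hμ₀ 0
  rw [abs_lt] at h1
  refine ⟨1 / 2 + (μ₀ 0).re, R, by linarith [h1.1], fun μ hμ => ⟨?_, hR μ hμ⟩⟩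
  have h2 := hmin hμ
  simp only [Set.mem_ofPred_eq] at h2
  linarith

/-- the tails of the parameters -/
theorem gk3_tail {m : ℕ} {K : Set (Fin (m + 1) → ℂ)} (hK : Kok K) :
    Kok ((fun (μ : Fin (m + 1) → ℂ) (i : Fin m) => μ i.succ) '' K) := by
  refine ⟨hK.1.image (by fun_prop), ?_⟩
  rintro _ ⟨μ, hμ, rfl⟩ j
  exact hK.2 μ hμ j.succ

theorem gk3_gmu_one (μ : Fin (0 + 1) → ℂ) : gmu μ = g1 (μ 0) := by
  unfold gmu
  rw [List.ofFn_succ, List.ofFn_zero]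
  rfl

theorem gk3_gmu_succ {m : ℕ} (μ : Fin (m + 1 + 1) → ℂ) :
    gmu μ = cnv (g1 (μ 0)) (gmu fun i : Fin (m + 1) => μ i.succ) := by
  unfold gmu
  rw [List.ofFn_succ, List.ofFn_succ]
  rfl

/-- GK3: the class -/
theorem gmu_class_pr {n : ℕ} (hn : 1 ≤ n) (K : Set (Fin n → ℂ)) (hK : Kok K) (T Sg : ℝ) :
    ∃ (κ c₁ : ℝ) (M : ℝ → ℝ → ℝ), 0 < κ ∧ κ ≤ 1 ∧ 0 < c₁ ∧
      ∀ μ ∈ K, GCl κ T Sg c₁ M (gmu μ) := by
  obtain ⟨m, rfl⟩ : ∃ m, n = m + 1 := ⟨n - 1, by omega⟩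
  obtain ⟨κ₁, M₁, hκ₁, hM₁, hb₁⟩ := gk3_gmu K hK
  obtain ⟨κ₀, R, hκ₀, hpar⟩ := gk3_par K hK
  obtain ⟨Mk, hMk⟩ := k1_bd κ₀ R hκ₀
  obtain ⟨c₁, hc₁, hlow⟩ := gam_low K hK (1 / 2 + Sg) (T + 1)
  have hlap : ∀ μ ∈ K, ∀ w : ℂ, 0 ≤ w.re → ∫ v : ℝ, gmu μ v * cexp (w * v) =
      gam μ (1 / 2 + w) := by
    intro μ hμ w hw
    have h1 := (gmu_lap (by omega : 1 ≤ m + 1) μ (1 / 2 + w) (fun j => by
      have := hK.2 μ hμ j
      rw [abs_lt] at this
      simp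
      linarith [this.1])).2
    rw [← h1]
    refine integral_congr_ae (Filter.Eventually.of_forall fun v => ?_)
    show gmu μ v * cexp (w * v) = gmu μ v * ew (1 / 2 + w) v
    unfold ew
    congr 2
    ring
  -- the kernels
  have hker : ∃ (κ₂ : ℝ) (M₂ : ℝ → ℝ → ℝ), 0 < κ₂ ∧ ∀ μ ∈ K, ∀ N : ℝ, 1 ≤ N →
      ∃ k : ℝ → ℂ, Continuous k ∧
        (∀ B : ℝ, -κ₂ ≤ B → ∀ v : ℝ, ‖k v‖ ≤ M₂ N B * Real.exp (-(B * v))) ∧
        ∀ v : ℝ, gmu μ v = ∫ y : ℝ, k y * gz N (v - y) := by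
    rcases m with _ | m
    · refine ⟨κ₀ / 2, Mk, by positivity, fun μ hμ N hN => ⟨k1 N (μ 0), gk3_k1_cont N _, ?_, ?_⟩⟩
      · intro B hB v
        obtain ⟨h1, h2⟩ := hpar μ hμ
        exact ((hMk (μ 0) h1 h2 B (by linarith) v).2) N hN
      · intro v
        rw [gk3_gmu_one]
        exact g1_eq N hN (μ 0) (hK.2 μ hμ 0) v
    · obtain ⟨κ₃, M₃, hκ₃, hM₃, hb₃⟩ := gk3_gmu _ (gk3_tail hK)
      set δ : ℝ := κ₀ / 4 with hδ
      have hδ0 : 0 < δ := by positivity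
      refine ⟨min δ κ₃, fun N B => (Mk N (B + δ) + Mk N (B - δ)) * M₃ B *
        ∫ u : ℝ, Real.exp (-(δ * |u|)), lt_min hδ0 hκ₃, fun μ hμ N hN => ?_⟩
      set r : ℝ → ℂ := gmu (fun i : Fin (m + 1) => μ i.succ) with hr
      obtain ⟨h1, h2⟩ := hpar μ hμ
      have hμ' : (fun i : Fin (m + 1) => μ i.succ) ∈
          (fun (μ : Fin (m + 1 + 1) → ℂ) (i : Fin (m + 1)) => μ i.succ) '' K := ⟨μ, hμ, rfl⟩
      have hr1 : ∀ B : ℝ, -κ₃ ≤ B → ∀ v : ℝ, ‖r v‖ ≤ M₃ B * Real.exp (-(B * v)) :=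
        fun B hB v => hb₃ _ hμ' B hB v
      have hrc : Continuous r := by
        refine gmu_cont _ fun j => ?_
        have := hK.2 μ hμ j.succ
        rw [abs_lt] at this
        exact this.1
      have hri : Integrable r := gk3_int hκ₃ hrc (hr1 κ₃ (by linarith)) (hr1 (-κ₃) le_rfl)
      have hrb : ∀ v, ‖r v‖ ≤ M₃ 0 := by
        intro v
        have := hr1 0 (by linarith) v
        simpa using this
      have hk1 : ∀ B : ℝ, -(κ₀ / 2) ≤ B → ∀ v : ℝ,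
          ‖k1 N (μ 0) v‖ ≤ Mk N B * Real.exp (-(B * v)) :=
        fun B hB v => ((hMk (μ 0) h1 h2 B hB v).2) N hN
      have hki : Integrable (k1 N (μ 0)) := gk3_int hδ0 (gk3_k1_cont N _)
        (hk1 δ (by linarith)) (hk1 (-δ) (by linarith))
      obtain ⟨hzc, hzb⟩ := gk3_gz hN
      have hzi : Integrable (gz N) :=
        Integrable.mono' (gk3_exp_int (by norm_num : (0 : ℝ) < 1 / 4)) hzc.aestronglyMeasurable
          (Filter.Eventually.of_forall fun v => (hzb v).2)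
      refine ⟨cnv (k1 N (μ 0)) r, gk3_cnv_cont hki hrc hrb, ?_, ?_⟩
      · intro B hB v
        have hB1 : -δ ≤ B := (neg_le_neg (min_le_left _ _)).trans hB
        have hB2 : -κ₃ ≤ B := (neg_le_neg (min_le_right _ _)).trans hB
        exact gk3_cnv_bd hδ0 (hk1 (B + δ) (by linarith)) (hk1 (B - δ) (by linarith))
          (hr1 B hB2) v
      · intro v
        rw [gk3_gmu_succ]
        exact gk3_assoc hki (gk3_k1_cont N _) hri hrc hrb hzi hzc (fun v => (hzb v).1)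
          (fun v => g1_eq N hN (μ 0) (hK.2 μ hμ 0) v) v
  obtain ⟨κ₂, M₂, hκ₂, hk₂⟩ := hker
  refine ⟨min 1 (min κ₁ κ₂), c₁, fun N B => if N = 0 then M₁ B else M₂ N B,
    lt_min one_pos (lt_min hκ₁ hκ₂), min_le_left _ _, hc₁, fun μ hμ => ?_⟩
  have hκ1 : ∀ B : ℝ, -(min 1 (min κ₁ κ₂)) ≤ B → -κ₁ ≤ B := fun B hB =>
    (neg_le_neg ((min_le_right _ _).trans (min_le_left _ _))).trans hB
  have hκ2 : ∀ B : ℝ, -(min 1 (min κ₁ κ₂)) ≤ B → -κ₂ ≤ B := fun B hB =>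
    (neg_le_neg ((min_le_right _ _).trans (min_le_right _ _))).trans hB
  refine ⟨?_, ?_, ?_, ?_, ?_⟩
  · refine gmu_cont _ fun j => ?_
    have := hK.2 μ hμ j
    rw [abs_lt] at this
    exact this.1
  · intro B hB v
    rw [if_pos rfl]
    exact hb₁ μ hμ B (hκ1 B hB) v
  · intro N hN
    obtain ⟨k, hk1, hk2, hk3⟩ := hk₂ μ hμ N hN
    refine ⟨k, hk1, fun B hB v => ?_, hk3⟩
    rw [if_neg (by linarith)]
    exact hk2 B (hκ2 B hB) v
  · intro σ t h0 h1 h2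
    rw [hlap μ hμ (σ + t * I) (by simpa using h0)]
    refine hlow μ hμ _ ?_ ?_ ?_
    · simp
      linarith
    · simp
      linarith
    · simpa using h2
  · intro s hs
    rw [hlap μ hμ s hs]
    unfold gam
    refine Finset.prod_ne_zero_iff.2 fun j _ => Gammaℝ_ne_zero_of_re_pos ?_
    have := hK.2 μ hμ j
    rw [abs_lt] at this
    simp
    linarith [this.1]


end

end Pool.Agent.BX

namespace Pool.Agent.BX

theorem gmu_class : type_of% @gmu_class_pr := @gmu_class_pr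

end Pool.Agent.BX
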