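import Pool.Agent.Lib_helper61.BXF.AR8

/-!
# BX, block LM12: bound and continuity of the density `D0`
-/

set_option autoImplicit false

namespace Pool.Agent.BX

open MeasureTheory Complex Finset
open Pool.Agent.SGN
open Pool.Agent.QG (ew)
open scoped ENNReal

noncomputable section

/-- the bound of one term -/
theorem lm12_term {n : ℕ} (μ : Fin n → ℂ) (B C : ℝ) (hB : (n : ℝ) + 1 ≤ B) (hC : 0 ≤ C)
    (hg : ∀ v : ℝ, ‖gmu μ v‖ ≤ C * Real.exp (-(B * v))) (lam : ℕ → ℂ) (hl : Triv n lam) (v : ℝ)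
    (m : ℕ) :
    ‖lam (m + 1) * (((m : ℝ) + 1) ^ (-(1 / 2) : ℝ) : ℝ) * gmu μ (v + Real.log (m + 1))‖ ≤
      C * Real.exp (-(B * v)) * ((m : ℝ) + 1) ^ (-(3 / 2) : ℝ) := by
  have hm : (0 : ℝ) < (m : ℝ) + 1 := by positivity
  have hm1 : (1 : ℝ) ≤ (m : ℝ) + 1 := by linarith [Nat.cast_nonneg (α := ℝ) m]
  have h1 : ‖lam (m + 1)‖ ≤ ((m : ℝ) + 1) ^ ((n : ℝ)) := by
    have := hl.2 (m + 1)
    rw [Real.rpow_natCast]
    push_cast at this
    exact this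
  have h2 : ‖((((m : ℝ) + 1) ^ (-(1 / 2) : ℝ) : ℝ) : ℂ)‖ = ((m : ℝ) + 1) ^ (-(1 / 2) : ℝ) := by
    rw [Complex.norm_real, Real.norm_eq_abs, abs_of_nonneg (Real.rpow_nonneg hm.le _)]
  have h3 := hg (v + Real.log (m + 1))
  have h4 : Real.exp (-(B * (v + Real.log (m + 1)))) =
      Real.exp (-(B * v)) * ((m : ℝ) + 1) ^ (-B) := by
    rw [Real.rpow_def_of_pos hm, ← Real.exp_add]
    congr 1
    ring
  rw [h4] at h3
  rw [norm_mul, norm_mul, h2]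
  calc ‖lam (m + 1)‖ * ((m : ℝ) + 1) ^ (-(1 / 2) : ℝ) * ‖gmu μ (v + Real.log (m + 1))‖
      ≤ ((m : ℝ) + 1) ^ ((n : ℝ)) * ((m : ℝ) + 1) ^ (-(1 / 2) : ℝ) *
        (C * (Real.exp (-(B * v)) * ((m : ℝ) + 1) ^ (-B))) := by gcongr
    _ = C * Real.exp (-(B * v)) * (((m : ℝ) + 1) ^ ((n : ℝ)) * ((m : ℝ) + 1) ^ (-(1 / 2) : ℝ) *
        ((m : ℝ) + 1) ^ (-B)) := by ring
    _ = C * Real.exp (-(B * v)) * ((m : ℝ) + 1) ^ ((n : ℝ) + -(1 / 2) + -B) := by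
        rw [Real.rpow_add hm, Real.rpow_add hm]
    _ ≤ C * Real.exp (-(B * v)) * ((m : ℝ) + 1) ^ (-(3 / 2) : ℝ) := by
        refine mul_le_mul_of_nonneg_left ?_ (mul_nonneg hC (Real.exp_pos _).le)
        exact Real.rpow_le_rpow_of_exponent_le hm1 (by linarith)

theorem lm12_sum : Summable fun m : ℕ => ((m : ℝ) + 1) ^ (-(3 / 2) : ℝ) := by
  have h := (summable_nat_add_iff (f := fun m : ℕ => (m : ℝ) ^ (-(3 / 2) : ℝ)) 1).mpr
    (Real.summable_nat_rpow.mpr (by norm_num))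
  simpa using h

/-- LM1 -/
theorem D0_bd_pr {n : ℕ} (K : Set (Fin n → ℂ)) (hK : Kok K) (B : ℝ) (hB : (n : ℝ) + 1 ≤ B) :
    ∃ C : ℝ, 0 ≤ C ∧ ∀ μ ∈ K, ∀ lam : ℕ → ℂ, Triv n lam → ∀ v : ℝ,
      ‖D0 μ lam v‖ ≤ C * Real.exp (-(B * v)) := by
  obtain ⟨c₀, -, h0⟩ := gmu_bd K hK
  obtain ⟨C, hC, h⟩ := h0 B (by linarith [Nat.cast_nonneg (α := ℝ) n])
  refine ⟨C * ∑' m : ℕ, ((m : ℝ) + 1) ^ (-(3 / 2) : ℝ),
    mul_nonneg hC (tsum_nonneg fun m => by positivity), fun μ hμ lam hl v => ?_⟩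
  have hs := (lm12_sum.mul_left (C * Real.exp (-(B * v)))).hasSum
  have h1 := tsum_of_norm_bounded hs
    (lm12_term μ B C hB hC (fun v => (h μ hμ v).2) lam hl v)
  refine h1.trans (le_of_eq ?_)
  rw [tsum_mul_left]
  ring

/-- LM2 -/
theorem D0_cont_pr {n : ℕ} (μ : Fin n → ℂ) (h : ∀ j, |(μ j).re| < 1 / 2) (lam : ℕ → ℂ)
    (hl : Triv n lam) : Continuous (D0 μ lam) := by
  have hK : Kok ({μ} : Set (Fin n → ℂ)) :=
    ⟨isCompact_singleton, fun ν hν j => by rw [Set.mem_singleton_iff.mp hν]; exact h j⟩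
  obtain ⟨c₀, -, h0⟩ := gmu_bd {μ} hK
  obtain ⟨C, hC, hg⟩ := h0 ((n : ℝ) + 1) (by positivity)
  have hcon : Continuous (gmu μ) := gmu_cont μ fun j => by linarith [(abs_lt.mp (h j)).1]
  rw [continuous_iff_continuousAt]
  intro v₀
  have h1 : ContinuousOn (D0 μ lam) (Set.Ioi (v₀ - 1)) := by
    unfold D0
    refine continuousOn_tsum (u := fun m : ℕ =>
      C * Real.exp (-(((n : ℝ) + 1) * (v₀ - 1))) * ((m : ℝ) + 1) ^ (-(3 / 2) : ℝ))
      (fun m => ?_) (lm12_sum.mul_left _) (fun m v hv => ?_)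
    · exact (continuous_const.mul
        (hcon.comp (continuous_id.add continuous_const))).continuousOn
    · refine (lm12_term μ _ C le_rfl hC (fun v => (hg μ rfl v).2) lam hl v m).trans ?_
      have hv' : v₀ - 1 ≤ v := le_of_lt hv
      have : Real.exp (-(((n : ℝ) + 1) * v)) ≤ Real.exp (-(((n : ℝ) + 1) * (v₀ - 1))) := by
        apply Real.exp_le_exp.mpr
        nlinarith [Nat.cast_nonneg (α := ℝ) n]
      gcongr
  exact h1.continuousAt (Ioi_mem_nhds (by linarith))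

end

end Pool.Agent.BX

namespace Pool.Agent.BX

theorem D0_bd : type_of% @D0_bd_pr := @D0_bd_pr
theorem D0_cont : type_of% @D0_cont_pr := @D0_cont_pr

end Pool.Agent.BX
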