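import Pool.Agent.Lib_helper61.BXF.LM12

/-!
# BX, block LM3: the transform of `D0`
-/

set_option autoImplicit false

namespace Pool.Agent.BX

open MeasureTheory Complex Finset
open Pool.Agent.SGN
open Pool.Agent.QG (ew)
open scoped ENNReal

noncomputable section

/-- the sum of a series of integrable functions with summable norms is integrable -/
theorem lm3_int {F : ℕ → ℝ → ℂ} (hF : ∀ m, Integrable (F m))
    (hs : Summable fun m => ∫ v, ‖F m v‖)
    (hm : AEStronglyMeasurable (fun v => ∑' m, F m v) volume) :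
    Integrable (fun v => ∑' m, F m v) := by
  refine ⟨hm, ?_⟩
  rw [hasFiniteIntegral_iff_enorm]
  have h1 : ∫⁻ v, ‖∑' m, F m v‖ₑ ≤ ∫⁻ v, ∑' m, ‖F m v‖ₑ :=
    lintegral_mono fun v => enorm_tsum_le_tsum_enorm
  have h2 : ∫⁻ v, ∑' m, ‖F m v‖ₑ = ∑' m, ∫⁻ v, ‖F m v‖ₑ :=
    lintegral_tsum fun m => (hF m).1.enorm
  have h3 : ∀ m, ∫⁻ v, ‖F m v‖ₑ = ENNReal.ofReal (∫ v, ‖F m v‖) := fun m =>
    (ofReal_integral_norm_eq_lintegral_enorm (hF m)).symm
  refine (h1.trans h2.le).trans_lt ?_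
  rw [tsum_congr h3]
  rw [← ENNReal.ofReal_tsum_of_nonneg (fun m => integral_nonneg fun v => norm_nonneg _) hs]
  exact ENNReal.ofReal_lt_top

theorem lm3_pow {s : ℂ} (m : ℕ) :
    ((((m : ℝ) + 1) ^ (-(1 / 2) : ℝ) : ℝ) : ℂ) * ew s (-Real.log (m + 1)) =
      (((m + 1 : ℕ) : ℂ) ^ s)⁻¹ := by
  have hp : (0 : ℝ) < (m : ℝ) + 1 := by positivity
  have h0 : ((m + 1 : ℕ) : ℂ) ≠ 0 := by exact_mod_cast Nat.succ_ne_zero m
  rw [← Complex.cpow_neg, Complex.cpow_def_of_ne_zero h0, Real.rpow_def_of_pos hp]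
  unfold ew
  rw [Complex.ofReal_exp, ← Complex.exp_add]
  congr 1
  have : Complex.log ((m + 1 : ℕ) : ℂ) = ((Real.log (m + 1) : ℝ) : ℂ) := by
    rw [Complex.ofReal_log hp.le]
    push_cast
    rfl
  rw [this]
  push_cast
  ring

theorem lm3_term (lam : ℕ → ℂ) (s : ℂ) (m : ℕ) :
    LSeries.term lam s (m + 1) = lam (m + 1) *
      (((((m : ℝ) + 1) ^ (-(1 / 2) : ℝ) : ℝ) : ℂ) * ew s (-Real.log (m + 1))) := by
  rw [LSeries.term_of_ne_zero (Nat.succ_ne_zero m), lm3_pow]
  exact div_eq_mul_inv _ _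

theorem D0_lap_pr {n : ℕ} (hn : 1 ≤ n) (μ : Fin n → ℂ) (h : ∀ j, |(μ j).re| < 1 / 2)
    (lam : ℕ → ℂ) (hl : Triv n lam) (s : ℂ) (hs : (n : ℝ) + 1 < s.re) :
    LSeriesSummable lam s ∧ Integrable (fun v => D0 μ lam v * ew s v) ∧
      Lap (D0 μ lam) s = gam μ s * LSeries lam s := by
  have hn' : (1 : ℝ) ≤ n := by exact_mod_cast hn
  have hre : ∀ j, 0 < (s + μ j).re := fun j => by
    have := (abs_lt.1 (h j)).1
    rw [Complex.add_re]
    linarith
  obtain ⟨hGi, hGz⟩ := gmu_lap hn μ s hre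
  have hLS : LSeriesSummable lam s := by
    refine LSeriesSummable_of_le_const_mul_rpow (x := (n : ℝ) + 1) hs ⟨1, fun m _ => ?_⟩
    rw [one_mul, add_sub_cancel_right, Real.rpow_natCast]
    exact hl.2 m
  set G := gmu μ with hG
  set F : ℕ → ℝ → ℂ := fun m v =>
    lam (m + 1) * (((m : ℝ) + 1) ^ (-(1 / 2) : ℝ) : ℝ) * G (v + Real.log (m + 1)) * ew s v with hF
  have hsh := fun m : ℕ => Pool.Agent.QG.laplace_shift hGi hGz (Real.log ((m : ℝ) + 1))
  have hFi : ∀ m, Integrable (F m) := fun m => by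
    have := ((hsh m).1).const_mul (lam (m + 1) * (((m : ℝ) + 1) ^ (-(1 / 2) : ℝ) : ℝ))
    refine this.congr (Filter.Eventually.of_forall fun v => ?_)
    simp only [hF]
    ring
  have hFz : ∀ m, ∫ v, F m v = gam μ s * LSeries.term lam s (m + 1) := fun m => by
    have h1 : ∀ v, F m v = lam (m + 1) * (((m : ℝ) + 1) ^ (-(1 / 2) : ℝ) : ℝ) *
        (G (v + Real.log (m + 1)) * ew s v) := fun v => by
      simp only [hF]; ring
    rw [integral_congr_ae (Filter.Eventually.of_forall h1), integral_const_mul, (hsh m).2,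
      lm3_term]
    ring
  -- the norms
  have hN : ∀ m, ∫ v, ‖F m v‖ = ‖LSeries.term lam s (m + 1)‖ * ∫ v, ‖G v * ew s v‖ := fun m => by
    have h1 : ∀ v, ‖F m v‖ = ‖LSeries.term lam s (m + 1)‖ *
        ‖G (v + Real.log (m + 1)) * ew s (v + Real.log (m + 1))‖ := fun v => by
      rw [lm3_term, ← norm_mul]
      congr 1
      simp only [hF]
      have h2 : ew s v = ew s (-Real.log (m + 1)) * ew s (v + Real.log (m + 1)) := by
        rw [← Pool.Agent.QG.ew_add]
        congr 1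
        ring
      rw [h2]
      ring
    rw [integral_congr_ae (Filter.Eventually.of_forall h1), integral_const_mul]
    congr 1
    exact integral_add_right_eq_self (fun v => ‖G v * ew s v‖) (Real.log ((m : ℝ) + 1))
  have hsum : Summable fun m => ∫ v, ‖F m v‖ := by
    simp only [hN]
    refine Summable.mul_right _ ?_
    exact (summable_nat_add_iff 1).2 hLS.norm
  have hD : ∀ v, ∑' m, F m v = D0 μ lam v * ew s v := fun v => by
    simp only [hF]
    rw [tsum_mul_right]
    rfl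
  have hcont : Continuous (D0 μ lam) := D0_cont μ h lam hl
  have hew : Continuous (ew s) := by
    unfold ew
    fun_prop
  have hInt : Integrable (fun v => D0 μ lam v * ew s v) := by
    have h1 := lm3_int hFi hsum (by
      refine ((hcont.mul hew).aestronglyMeasurable).congr (Filter.Eventually.of_forall fun v => ?_)
      exact (hD v).symm)
    exact h1.congr (Filter.Eventually.of_forall hD)
  refine ⟨hLS, hInt, ?_⟩
  have h1 := (hasSum_integral_of_summable_integral_norm hFi hsum).tsum_eq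
  unfold Lap
  rw [← integral_congr_ae (Filter.Eventually.of_forall hD), ← h1, tsum_congr hFz, tsum_mul_left]
  congr 1
  unfold LSeries
  rw [hLS.tsum_eq_zero_add]
  simp

end

end Pool.Agent.BX

namespace Pool.Agent.BX

theorem D0_lap : type_of% @D0_lap_pr := @D0_lap_pr

end Pool.Agent.BX
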