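import Pool.Agent.Lib_helper61.BXF.ZF

set_option autoImplicit false

namespace Pool.Agent.BX

open MeasureTheory Complex Finset
open Pool.Agent.SGN
open Pool.Agent.QG (ew)
open scoped ENNReal

noncomputable section

theorem OF_fin_pr (k : ℕ) (hk : 1 ≤ k) :
    {l : List ℕ | (∀ a ∈ l, 2 ≤ a) ∧ l.prod = k}.Finite := by
  induction k using Nat.strong_induction_on with
  | _ k ih =>
    have h1 : (({[]} : Set (List ℕ)) ∪ ⋃ a ∈ (k.divisors.filter fun a => 2 ≤ a : Finset ℕ),
        (fun l => a :: l) '' {l : List ℕ | (∀ b ∈ l, 2 ≤ b) ∧ l.prod = k / a}).Finite := by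
      refine (Set.finite_singleton _).union ?_
      refine Set.Finite.biUnion (Finset.finite_toSet _) ?_
      intro a ha
      rw [Finset.coe_filter] at ha
      obtain ⟨ha1, ha2⟩ := ha
      have had : a ∣ k := Nat.dvd_of_mem_divisors ha1
      refine Set.Finite.image _ (ih (k / a) (Nat.div_lt_self hk (by omega)) ?_)
      exact Nat.div_pos (Nat.le_of_dvd hk had) (by omega)
    refine h1.subset ?_
    rintro l ⟨hl1, hl2⟩
    cases l with
    | nil => left; rfl
    | cons a l =>
      right
      rw [List.prod_cons] at hl2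
      have ha2 : 2 ≤ a := hl1 a (by simp)
      have had : a ∣ k := ⟨_, hl2.symm⟩
      simp only [Set.mem_iUnion]
      refine ⟨a, ?_, l, ⟨fun b hb => hl1 b (by simp [hb]), ?_⟩, rfl⟩
      · rw [Finset.mem_filter, Nat.mem_divisors]
        exact ⟨⟨had, by omega⟩, ha2⟩
      · rw [← hl2, Nat.mul_div_cancel_left _ (by omega)]

theorem mem_OF_pr (k : ℕ) (hk : 1 ≤ k) (l : List ℕ) :
    l ∈ OF k ↔ (∀ a ∈ l, 2 ≤ a) ∧ l.prod = k := by
  unfold OF
  rw [dif_pos (OF_fin_pr k hk)]
  simp

theorem mo1_one : OF 1 = {[]} := by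
  ext l
  rw [mem_OF_pr 1 le_rfl, Finset.mem_singleton]
  constructor
  · rintro ⟨h1, h2⟩
    cases l with
    | nil => rfl
    | cons a l =>
      exfalso
      rw [List.prod_cons] at h2
      have := Nat.eq_one_of_mul_eq_one_right h2
      have := h1 a (by simp)
      omega
  · rintro rfl
    simp

theorem minv_one_pr (lam : ℕ → ℂ) : minv lam 1 = 1 := by
  unfold minv
  rw [mo1_one]
  simp

open Classical in
theorem mo1_step (r : ℕ) (hr : 2 ≤ r) :
    OF r = (r.divisors.filter fun a => 2 ≤ a).biUnion fun a => (OF (r / a)).image (List.cons a) := by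
  ext l
  rw [mem_OF_pr r (by omega), Finset.mem_biUnion]
  constructor
  · rintro ⟨h1, h2⟩
    cases l with
    | nil => simp at h2; omega
    | cons a l =>
      rw [List.prod_cons] at h2
      have ha2 : 2 ≤ a := h1 a (by simp)
      have had : a ∣ r := ⟨_, h2.symm⟩
      refine ⟨a, ?_, ?_⟩
      · rw [Finset.mem_filter, Nat.mem_divisors]
        exact ⟨⟨had, by omega⟩, ha2⟩
      · rw [Finset.mem_image]
        refine ⟨l, ?_, rfl⟩
        rw [mem_OF_pr _ (Nat.div_pos (Nat.le_of_dvd (by omega) had) (by omega))]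
        refine ⟨fun b hb => h1 b (by simp [hb]), ?_⟩
        rw [← h2, Nat.mul_div_cancel_left _ (by omega)]
  · rintro ⟨a, ha, hl⟩
    rw [Finset.mem_filter, Nat.mem_divisors] at ha
    rw [Finset.mem_image] at hl
    obtain ⟨l', hl', rfl⟩ := hl
    rw [mem_OF_pr _ (Nat.div_pos (Nat.le_of_dvd (by omega) ha.1.1) (by omega))] at hl'
    refine ⟨?_, ?_⟩
    · intro b hb
      rcases List.mem_cons.1 hb with rfl | hb
      · exact ha.2
      · exact hl'.1 b hb
    · rw [List.prod_cons, hl'.2]
      exact Nat.mul_div_cancel' ha.1.1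

theorem mo1_rec (lam : ℕ → ℂ) (r : ℕ) (hr : 2 ≤ r) :
    minv lam r = -∑ a ∈ r.divisors.filter (fun a => 2 ≤ a), lam a * minv lam (r / a) := by
  classical
  unfold minv
  rw [mo1_step r hr, Finset.sum_biUnion]
  · rw [← Finset.sum_neg_distrib]
    apply Finset.sum_congr rfl
    intro a _
    rw [Finset.sum_image (fun x _ y _ hxy => (List.cons.inj hxy).2), Finset.mul_sum,
      ← Finset.sum_neg_distrib]
    apply Finset.sum_congr rfl
    intro l _
    rw [List.length_cons, List.map_cons, List.prod_cons]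
    ring
  · intro a _ b _ hab
    rw [Function.onFun, Finset.disjoint_left]
    intro l hl hl'
    rw [Finset.mem_image] at hl hl'
    obtain ⟨l1, -, rfl⟩ := hl
    obtain ⟨l2, -, h2⟩ := hl'
    exact hab (List.cons.inj h2).1.symm

theorem minv_conv_pr (lam : ℕ → ℂ) (h : lam 1 = 1) (r : ℕ) (hr : 1 ≤ r) :
    ∑ k ∈ r.divisors, lam (r / k) * minv lam k = if r = 1 then 1 else 0 := by
  by_cases h1 : r = 1
  · subst h1
    simp [h, minv_one_pr]
  · rw [if_neg h1]
    have hr2 : 2 ≤ r := by omega
    have e1 : ∑ k ∈ r.divisors, lam (r / k) * minv lam k =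
        ∑ k ∈ r.divisors, lam k * minv lam (r / k) := by
      rw [← Nat.sum_div_divisors r (fun k => lam k * minv lam (r / k))]
      apply Finset.sum_congr rfl
      intro k hk
      rw [Nat.div_div_self (Nat.dvd_of_mem_divisors hk) (by omega)]
    rw [e1]
    have e2 : r.divisors = insert 1 (r.divisors.filter fun a => 2 ≤ a) := by
      ext a
      simp only [Finset.mem_insert, Finset.mem_filter, Nat.mem_divisors]
      constructor
      · rintro ⟨h2, h3⟩
        have : a ≠ 0 := by
          rintro rfl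
          exact h3 (Nat.eq_zero_of_zero_dvd h2)
        by_cases ha : a = 1
        · left; exact ha
        · right; exact ⟨⟨h2, h3⟩, by omega⟩
      · rintro (rfl | ⟨h2, -⟩)
        · exact ⟨one_dvd _, by omega⟩
        · exact h2
    rw [e2, Finset.sum_insert (by simp), h, Nat.div_one, one_mul, mo1_rec lam r hr2]
    ring

end

end Pool.Agent.BX

namespace Pool.Agent.BX

theorem OF_fin : type_of% @OF_fin_pr := @OF_fin_pr
theorem mem_OF : type_of% @mem_OF_pr := @mem_OF_pr
theorem minv_one : type_of% @minv_one_pr := @minv_one_pr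
theorem minv_conv : type_of% @minv_conv_pr := @minv_conv_pr

end Pool.Agent.BX
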