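import Pool.Agent.Lib_helper61.BXF.MO1

/-!
# Block MO2: number of ordered factorisations
-/

set_option autoImplicit false

namespace Pool.Agent.BX

open MeasureTheory Complex Finset
open Pool.Agent.SGN
open Pool.Agent.QG (ew)
open scoped ENNReal

noncomputable section

theorem mo2_sum_sq (k : ℕ) (hk : 1 ≤ k) :
    ∑ a ∈ Icc 2 k, (1 : ℝ) / (a : ℝ) ^ 2 ≤ 1 - 1 / (k : ℝ) := by
  induction k, hk using Nat.le_induction with
  | base => simp
  | succ k hk ih =>
    rw [← Finset.insert_Icc_right_eq_Icc_add_one (by omega), Finset.sum_insert (by simp)]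
    have hk' : (0 : ℝ) < k := by exact_mod_cast hk
    have h1 : (1 : ℝ) / ((k + 1 : ℕ) : ℝ) ^ 2 ≤ 1 / (k : ℝ) - 1 / ((k + 1 : ℕ) : ℝ) := by
      push_cast
      rw [div_sub_div _ _ (by positivity) (by positivity), div_le_div_iff₀ (by positivity)
        (by positivity)]
      nlinarith
    linarith

theorem mo2_sum_div (k : ℕ) (hk : 1 ≤ k) :
    ∑ a ∈ k.divisors.filter (2 ≤ ·), (k / a) ^ 2 ≤ k ^ 2 := by
  have hk' : (0 : ℝ) < k := by exact_mod_cast hk
  have h1 : ((∑ a ∈ k.divisors.filter (2 ≤ ·), (k / a) ^ 2 : ℕ) : ℝ) ≤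
      ∑ a ∈ Icc 2 k, (k : ℝ) ^ 2 * (1 / (a : ℝ) ^ 2) := by
    push_cast
    have h2 : ∑ a ∈ k.divisors.filter (2 ≤ ·), (((k / a : ℕ) : ℝ)) ^ 2 ≤
        ∑ a ∈ k.divisors.filter (2 ≤ ·), (k : ℝ) ^ 2 * (1 / (a : ℝ) ^ 2) := by
      refine Finset.sum_le_sum fun a ha => ?_
      rw [mul_one_div, ← div_pow]
      exact pow_le_pow_left₀ (by positivity) Nat.cast_div_le 2
    refine h2.trans (Finset.sum_le_sum_of_subset_of_nonneg ?_ fun a _ _ => by positivity)
    intro a ha
    rw [Finset.mem_filter, Nat.mem_divisors] at ha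
    rw [Finset.mem_Icc]
    exact ⟨ha.2, Nat.le_of_dvd hk ha.1.1⟩
  rw [← Finset.mul_sum] at h1
  have h3 := mo2_sum_sq k hk
  have h4 : (0 : ℝ) < 1 / k := by positivity
  have h5 : (k : ℝ) ^ 2 * ∑ a ∈ Icc 2 k, (1 : ℝ) / (a : ℝ) ^ 2 ≤ (k : ℝ) ^ 2 * 1 :=
    mul_le_mul_of_nonneg_left (by linarith) (by positivity)
  have h6 : ((∑ a ∈ k.divisors.filter (2 ≤ ·), (k / a) ^ 2 : ℕ) : ℝ) ≤ ((k ^ 2 : ℕ) : ℝ) := by
    push_cast
    push_cast at h1
    linarith
  exact_mod_cast h6

/-- MO2 -/
theorem OF_card_pr (k : ℕ) (hk : 1 ≤ k) : (OF k).card ≤ k ^ 2 := by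
  classical
  induction k using Nat.strong_induction_on with
  | _ k ih =>
    rcases Nat.lt_or_ge 1 k with h1 | h1
    · have hsub : OF k ⊆ (k.divisors.filter (2 ≤ ·)).biUnion
          fun a => (OF (k / a)).image fun l => a :: l := by
        intro l hl
        rw [mem_OF k hk] at hl
        rcases l with _ | ⟨a, l⟩
        · simp at hl
          omega
        · have ha2 : 2 ≤ a := hl.1 a (List.mem_cons_self ..)
          have hprod : a * l.prod = k := by rw [← List.prod_cons]; exact hl.2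
          have hdvd : a ∣ k := ⟨l.prod, hprod.symm⟩
          rw [Finset.mem_biUnion]
          refine ⟨a, ?_, ?_⟩
          · rw [Finset.mem_filter, Nat.mem_divisors]
            exact ⟨⟨hdvd, by omega⟩, ha2⟩
          · rw [Finset.mem_image]
            refine ⟨l, ?_, rfl⟩
            have hka : k / a = l.prod := by
              rw [← hprod]
              exact Nat.mul_div_cancel_left _ (by omega)
            rw [mem_OF (k / a) (Nat.div_pos (Nat.le_of_dvd hk hdvd) (by omega))]
            exact ⟨fun b hb => hl.1 b (List.mem_cons_of_mem _ hb), hka.symm⟩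
      refine (Finset.card_le_card hsub).trans (Finset.card_biUnion_le.trans ?_)
      refine (Finset.sum_le_sum fun a ha => ?_).trans (mo2_sum_div k hk)
      rw [Finset.mem_filter, Nat.mem_divisors] at ha
      refine Finset.card_image_le.trans (ih (k / a) (Nat.div_lt_self hk (by omega)) ?_)
      exact Nat.div_pos (Nat.le_of_dvd hk ha.1.1) (by omega)
    · have hk1 : k = 1 := by omega
      subst hk1
      have hsub : OF 1 ⊆ {[]} := by
        intro l hl
        rw [mem_OF 1 le_rfl] at hl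
        rw [Finset.mem_singleton]
        rcases l with _ | ⟨a, l⟩
        · rfl
        · have ha2 : 2 ≤ a := hl.1 a (List.mem_cons_self ..)
          have hprod : a * l.prod = 1 := by rw [← List.prod_cons]; exact hl.2
          have := Nat.eq_one_of_mul_eq_one_right hprod
          omega
      simpa using Finset.card_le_card hsub

theorem mo2_list {n : ℕ} (lam : ℕ → ℂ) (hl : Triv n lam) (l : List ℕ) :
    ‖(l.map lam).prod‖ ≤ (l.prod : ℝ) ^ n := by
  induction l with
  | nil => simp
  | cons a l ih =>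
    rw [List.map_cons, List.prod_cons, norm_mul, List.prod_cons, Nat.cast_mul, mul_pow]
    exact mul_le_mul (hl.2 a) ih (norm_nonneg _) (by positivity)

/-- MO2 -/
theorem minv_bd_pr {n : ℕ} (lam : ℕ → ℂ) (hl : Triv n lam) (k : ℕ) (hk : 1 ≤ k) :
    ‖minv lam k‖ ≤ (k : ℝ) ^ (n + 2) := by
  unfold minv
  refine (norm_sum_le _ _).trans ?_
  have h1 : ∑ l ∈ OF k, ‖(-1 : ℂ) ^ l.length * (l.map lam).prod‖ ≤
      ∑ _l ∈ OF k, (k : ℝ) ^ n := by
    refine Finset.sum_le_sum fun l hl' => ?_
    rw [mem_OF k hk] at hl'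
    rw [norm_mul, norm_pow, norm_neg, norm_one, one_pow, one_mul]
    have := mo2_list lam hl l
    rwa [hl'.2] at this
  refine h1.trans ?_
  rw [Finset.sum_const, nsmul_eq_mul, pow_add, mul_comm]
  refine mul_le_mul_of_nonneg_left ?_ (by positivity)
  exact_mod_cast OF_card_pr k hk

end

end Pool.Agent.BX

namespace Pool.Agent.BX

theorem OF_card : type_of% @OF_card_pr := @OF_card_pr
theorem minv_bd : type_of% @minv_bd_pr := @minv_bd_pr

end Pool.Agent.BX
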