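import Pool.Agent.Lib_helper61.BXF.MO2

/-!
# Block MO34: words
-/

set_option autoImplicit false

namespace Pool.Agent.BX

open MeasureTheory Complex Finset
open Pool.Agent.SGN
open Pool.Agent.QG (ew)
open scoped ENNReal

noncomputable section

/-- membership in `OFy` -/
theorem mo34_mem_OFy (y : ℕ) (l : List ℕ) :
    l ∈ OFy y ↔ ∃ k, 1 ≤ k ∧ k ≤ y ∧ l ∈ OF k := by
  classical
  unfold OFy
  rw [Finset.mem_biUnion]
  constructor
  · rintro ⟨k, hk, hl⟩
    rw [Finset.mem_Icc] at hk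
    exact ⟨k, hk.1, hk.2, hl⟩
  · rintro ⟨k, h1, h2, hl⟩
    exact ⟨k, Finset.mem_Icc.2 ⟨h1, h2⟩, hl⟩

/-- the number of elements of `OFy` -/
theorem mo34_card (y : ℕ) : (OFy y).card ≤ y ^ 3 := by
  classical
  unfold OFy
  refine Finset.card_biUnion_le.trans ?_
  have h : ∀ k ∈ Icc 1 y, (OF k).card ≤ y ^ 2 := by
    intro k hk
    rw [Finset.mem_Icc] at hk
    exact (OF_card k hk.1).trans (Nat.pow_le_pow_left hk.2 2)
  refine (Finset.sum_le_card_nsmul _ _ _ h).trans ?_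
  rw [Nat.card_Icc, smul_eq_mul]
  apply le_of_eq
  have : y + 1 - 1 = y := by omega
  rw [this]
  ring

/-- properties of the elements of `OFy` -/
theorem mo34_prop (y : ℕ) (l : List ℕ) (hl : l ∈ OFy y) :
    1 ≤ l.prod ∧ l.prod ≤ y ∧ ∀ a ∈ l, 2 ≤ a ∧ a ≤ y := by
  obtain ⟨k, h1, h2, h3⟩ := (mo34_mem_OFy y l).1 hl
  obtain ⟨h4, h5⟩ := (mem_OF k h1 l).1 h3
  rw [h5]
  refine ⟨h1, h2, fun a ha => ⟨h4 a ha, ?_⟩⟩
  have : a ∣ k := by
    rw [← h5]
    exact List.dvd_prod ha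
  exact (Nat.le_of_dvd (by omega) this).trans h2

/-- MO3 -/
theorem V_ok_pr (y : ℕ) : (VA y).card ≤ y ^ 3 ∧ (VB y).card ≤ y ^ 3 ∧
    ∀ W ∈ VA y ∪ VB y, 1 ≤ wt W ∧ wt W ≤ y ∧ ∀ q : ℕ, q.Prime → y < q → WOk q W := by
  classical
  refine ⟨?_, ?_, ?_⟩
  · unfold VA
    exact Finset.card_image_le.trans (mo34_card y)
  · unfold VB
    exact Finset.card_image_le.trans (mo34_card y)
  · intro W hW
    have hcop : ∀ l ∈ OFy y, ∀ q : ℕ, q.Prime → y < q → ∀ a ∈ l, 1 ≤ a ∧ Nat.Coprime a q := by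
      intro l hl q hq hy a ha
      obtain ⟨_, _, h3⟩ := mo34_prop y l hl
      obtain ⟨h4, h5⟩ := h3 a ha
      refine ⟨by omega, ?_⟩
      refine Nat.Coprime.symm ((Nat.Prime.coprime_iff_not_dvd hq).2 fun h => ?_)
      have := Nat.le_of_dvd (by omega) h
      omega
    rcases Finset.mem_union.1 hW with h | h
    · obtain ⟨l, hl, rfl⟩ : ∃ l ∈ OFy y, ((l, []) : Wd) = W := by
        have := h
        unfold VA at this
        simpa using this
      obtain ⟨h1, h2, h3⟩ := mo34_prop y l hl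
      have hw : wt ((l, []) : Wd) = l.prod := by simp [wt]
      rw [hw]
      refine ⟨h1, h2, fun q hq hy => ⟨fun a ha => hcop l hl q hq hy a ha, ?_⟩⟩
      intro b hb
      simp at hb
    · obtain ⟨l, hl, rfl⟩ : ∃ l ∈ OFy y, (([], l) : Wd) = W := by
        have := h
        unfold VB at this
        simpa using this
      obtain ⟨h1, h2, h3⟩ := mo34_prop y l hl
      have hw : wt (([], l) : Wd) = l.prod := by simp [wt]
      rw [hw]
      refine ⟨h1, h2, fun q hq hy => ⟨?_, fun a ha => hcop l hl q hq hy a ha⟩⟩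
      intro b hb
      simp at hb

/-- a sum over `OFy` is regrouped by the product -/
theorem mo34_sum (y : ℕ) (F : List ℕ → ℂ) :
    ∑ l ∈ OFy y, F l = ∑ k ∈ Icc 1 y, ∑ l ∈ OF k, F l := by
  classical
  unfold OFy
  refine Finset.sum_biUnion ?_
  intro k hk k' hk' hne
  rw [Function.onFun, Finset.disjoint_left]
  intro l hl hl'
  have hk1 : 1 ≤ k := (Finset.mem_Icc.1 (Finset.mem_coe.1 hk)).1
  have hk2 : 1 ≤ k' := (Finset.mem_Icc.1 (Finset.mem_coe.1 hk')).1
  have h1 := ((mem_OF k hk1 l).1 hl).2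
  have h2 := ((mem_OF k' hk2 l).1 hl').2
  exact hne (h1.symm.trans h2)

theorem mo34_rt (m k : ℕ) :
    ((((m : ℝ) * (k : ℝ)) ^ (-(1 / 2) : ℝ) : ℝ) : ℂ) = rt m * rt k := by
  unfold rt
  rw [Real.mul_rpow (Nat.cast_nonneg m) (Nat.cast_nonneg k)]
  push_cast
  ring

/-- MO4 -/
theorem xval_A_pr (N y : ℕ) (ψ : ℕ → ℕ → ℂ) (lam : ℕ → ℂ) :
    xval N (VA y) (cw ψ) lam =
      ∑ m ∈ Icc 1 N, ∑ k ∈ Icc 1 y, ψ m k * rt m * rt k * lam m * minv lam k := by
  classical
  unfold xval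
  refine Finset.sum_congr rfl fun m _ => ?_
  have h1 : ∑ W ∈ VA y, cw ψ m W * lam m * lw lam W =
      ∑ l ∈ OFy y, cw ψ m ((l, []) : Wd) * lam m * lw lam ((l, []) : Wd) := by
    unfold VA
    refine Finset.sum_image ?_
    intro a _ b _ h
    exact (Prod.mk.inj h).1
  rw [h1, mo34_sum]
  refine Finset.sum_congr rfl fun k hk => ?_
  have hk1 : 1 ≤ k := (Finset.mem_Icc.1 hk).1
  unfold minv
  rw [Finset.mul_sum]
  refine Finset.sum_congr rfl fun l hl => ?_
  have h2 := ((mem_OF k hk1 l).1 hl).2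
  have h3 : wt ((l, []) : Wd) = k := by simp [wt, h2]
  have h4 : lw lam ((l, []) : Wd) = (l.map lam).prod := by simp [lw]
  rw [h4]
  unfold cw
  rw [h3, mo34_rt]
  simp only [List.length_nil, add_zero]
  ring

/-- MO4 -/
theorem xval_B_pr (N y : ℕ) (ψ : ℕ → ℕ → ℂ) (lam : ℕ → ℂ) :
    xval N (VB y) (cw ψ) lam = ∑ m ∈ Icc 1 N, ∑ k ∈ Icc 1 y,
      ψ m k * rt m * rt k * lam m * (starRingEnd ℂ) (minv lam k) := by
  classical
  unfold xval
  refine Finset.sum_congr rfl fun m _ => ?_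
  have h1 : ∑ W ∈ VB y, cw ψ m W * lam m * lw lam W =
      ∑ l ∈ OFy y, cw ψ m (([], l) : Wd) * lam m * lw lam (([], l) : Wd) := by
    unfold VB
    refine Finset.sum_image ?_
    intro a _ b _ h
    exact (Prod.mk.inj h).2
  rw [h1, mo34_sum]
  refine Finset.sum_congr rfl fun k hk => ?_
  have hk1 : 1 ≤ k := (Finset.mem_Icc.1 hk).1
  unfold minv
  rw [map_sum, Finset.mul_sum]
  refine Finset.sum_congr rfl fun l hl => ?_
  have h2 := ((mem_OF k hk1 l).1 hl).2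
  have h3 : wt (([], l) : Wd) = k := by simp [wt, h2]
  have h4 : lw lam (([], l) : Wd) = (starRingEnd ℂ) (l.map lam).prod := by
    simp only [lw, List.map_nil, List.prod_nil, one_mul]
    rw [map_list_prod, List.map_map]
    rfl
  rw [h4]
  unfold cw
  rw [h3, mo34_rt]
  simp only [List.length_nil, zero_add, map_mul, map_pow, map_neg, map_one]
  ring

end

end Pool.Agent.BX

namespace Pool.Agent.BX

theorem V_ok : type_of% @V_ok_pr := @V_ok_pr
theorem xval_A : type_of% @xval_A_pr := @xval_A_pr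
theorem xval_B : type_of% @xval_B_pr := @xval_B_pr

end Pool.Agent.BX
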