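import Pool.Agent.Lib_helper61.BXF.TL

set_option autoImplicit false

namespace Pool.Agent.BX

open MeasureTheory Complex Finset
open Pool.Agent.SGN
open Pool.Agent.QG (ew)
open scoped ENNReal

noncomputable section

/-- the sum of `m^{-2}` -/
theorem ms0_tsum (M : ℕ) : Summable (fun j : ℕ => (((M + j : ℕ) : ℝ) + 1) ^ (-2 : ℝ)) ∧
    ∑' j : ℕ, (((M + j : ℕ) : ℝ) + 1) ^ (-2 : ℝ) ≤ 2 := by
  have h1 : HasSum (fun n : ℕ => 1 / (n : ℝ) ^ 2) (Real.pi ^ 2 / 6) := hasSum_zeta_two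
  have hs : Summable (fun n : ℕ => 1 / (n : ℝ) ^ 2) := h1.summable
  have he : ∀ n : ℕ, (((n : ℕ) : ℝ) + 1) ^ (-2 : ℝ) = 1 / ((n + 1 : ℕ) : ℝ) ^ 2 := by
    intro n
    push_cast
    rw [Real.rpow_neg (by positivity), one_div]
    congr 1
    exact_mod_cast Real.rpow_natCast ((n : ℝ) + 1) 2
  have hs1 : Summable (fun n : ℕ => (((n : ℕ) : ℝ) + 1) ^ (-2 : ℝ)) := by
    simp_rw [he]
    exact (summable_nat_add_iff 1).2 hs
  have hs2 : Summable (fun j : ℕ => (((M + j : ℕ) : ℝ) + 1) ^ (-2 : ℝ)) := by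
    have := (summable_nat_add_iff M).2 hs1
    refine this.congr fun j => ?_
    rw [add_comm j M]
  refine ⟨hs2, ?_⟩
  have h2 : ∑' n : ℕ, (((n : ℕ) : ℝ) + 1) ^ (-2 : ℝ) = Real.pi ^ 2 / 6 := by
    simp_rw [he]
    have h3 := hs.sum_add_tsum_nat_add 1
    rw [h1.tsum_eq] at h3
    simp at h3
    simpa using h3
  have h3 : ∑' j : ℕ, (((M + j : ℕ) : ℝ) + 1) ^ (-2 : ℝ) ≤
      ∑' n : ℕ, (((n : ℕ) : ℝ) + 1) ^ (-2 : ℝ) := by
    have h4 := hs1.sum_add_tsum_nat_add M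
    have h5 : 0 ≤ ∑ i ∈ Finset.range M, (((i : ℕ) : ℝ) + 1) ^ (-2 : ℝ) :=
      Finset.sum_nonneg fun i _ => by positivity
    have h6 : ∑' j : ℕ, (((M + j : ℕ) : ℝ) + 1) ^ (-2 : ℝ) =
        ∑' j : ℕ, (((j + M : ℕ) : ℝ) + 1) ^ (-2 : ℝ) := by
      refine tsum_congr fun j => ?_
      rw [add_comm j M]
    rw [h6]
    linarith
  have h7 : Real.pi ^ 2 / 6 ≤ 2 := by
    have := Real.pi_lt_d2
    have := Real.pi_pos
    nlinarith
  linarith

/-- the terms of the series of `D0` -/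
def ms0_T {n : ℕ} (μ : Fin n → ℂ) (lam : ℕ → ℂ) (x : ℝ) (m : ℕ) : ℂ :=
  lam (m + 1) * (((m : ℝ) + 1) ^ (-(1 / 2) : ℝ) : ℝ) * gmu μ (x + Real.log (m + 1))

theorem ms0_term {n : ℕ} {μ : Fin n → ℂ} {lam : ℕ → ℂ} (hl : Triv n lam) {C B : ℝ} (_ : 0 ≤ C)
    (hg : ∀ v : ℝ, ‖gmu μ v‖ ≤ C * Real.exp (-(B * v))) (x : ℝ) (m : ℕ) :
    ‖ms0_T μ lam x m‖ ≤ C * Real.exp (-(B * x)) *
      Real.exp (((n : ℝ) - B) * Real.log ((m : ℝ) + 1)) := by
  have hm1 : (1 : ℝ) ≤ (m : ℝ) + 1 := by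
    have : (0 : ℝ) ≤ (m : ℝ) := Nat.cast_nonneg _
    linarith
  have hm0 : (0 : ℝ) < (m : ℝ) + 1 := by linarith
  unfold ms0_T
  rw [norm_mul, norm_mul, Complex.norm_real, Real.norm_of_nonneg (Real.rpow_nonneg hm0.le _)]
  have h5 : ‖lam (m + 1)‖ ≤ ((m : ℝ) + 1) ^ n := by
    have := hl.2 (m + 1)
    exact_mod_cast this
  have h6 : ((m : ℝ) + 1) ^ (-(1 / 2) : ℝ) ≤ 1 :=
    Real.rpow_le_one_of_one_le_of_nonpos hm1 (by norm_num)
  have h7 := hg (x + Real.log ((m : ℝ) + 1))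
  have h8 : ‖lam (m + 1)‖ * ((m : ℝ) + 1) ^ (-(1 / 2) : ℝ) *
      ‖gmu μ (x + Real.log ((m : ℝ) + 1))‖ ≤
      ((m : ℝ) + 1) ^ n * 1 * (C * Real.exp (-(B * (x + Real.log ((m : ℝ) + 1))))) := by
    refine mul_le_mul (mul_le_mul h5 h6 (Real.rpow_nonneg hm0.le _) (by positivity)) h7
      (norm_nonneg _) (by positivity)
  refine h8.trans (le_of_eq ?_)
  have h9 : ((m : ℝ) + 1) ^ n = Real.exp ((n : ℝ) * Real.log ((m : ℝ) + 1)) := by
    rw [← Real.rpow_natCast, Real.rpow_def_of_pos hm0, mul_comm]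
  rw [h9, mul_one]
  have h10 : Real.exp (-(B * (x + Real.log ((m : ℝ) + 1)))) =
      Real.exp (-(B * x)) * Real.exp (-(B * Real.log ((m : ℝ) + 1))) := by
    rw [← Real.exp_add]
    congr 1
    ring
  have h11 : Real.exp (((n : ℝ) - B) * Real.log ((m : ℝ) + 1)) =
      Real.exp ((n : ℝ) * Real.log ((m : ℝ) + 1)) *
        Real.exp (-(B * Real.log ((m : ℝ) + 1))) := by
    rw [← Real.exp_add]
    congr 1
    ring
  rw [h10, h11]
  ring

/-- MS0: truncation of the density -/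
theorem D0_trunc_pr {n : ℕ} (K : Set (Fin n → ℂ)) (hK : Kok K) (κ R : ℝ) (hκ : 0 < κ) :
    ∃ C : ℝ, 0 ≤ C ∧ ∀ μ ∈ K, ∀ lam : ℕ → ℂ, Triv n lam → ∀ q : ℕ, 1 ≤ q → ∀ x : ℝ,
      -((1 / 2 + κ / 2) * Real.log q) ≤ x →
        ‖D0 μ lam x - ∑ m ∈ Icc 1 ⌊(q : ℝ) ^ (1 / 2 + κ)⌋₊,
          lam m * rt m * gmu μ (x + Real.log m)‖ ≤ C * (q : ℝ) ^ (-R) := by
  obtain ⟨c₀, hc₀, hbd⟩ := gmu_bd K hK
  set B : ℝ := max ((n : ℝ) + 2) (2 / κ * (R + (1 / 2 + κ) * ((n : ℝ) + 2))) with hB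
  have hB1 : (n : ℝ) + 2 ≤ B := le_max_left _ _
  have hB2 : 2 / κ * (R + (1 / 2 + κ) * ((n : ℝ) + 2)) ≤ B := le_max_right _ _
  have hn0 : (0 : ℝ) ≤ (n : ℝ) := Nat.cast_nonneg _
  have hB0 : 0 ≤ B := by linarith
  obtain ⟨C, hC0, hC⟩ := hbd B hB0
  refine ⟨2 * C, by positivity, fun μ hμ lam hl q hq x hx => ?_⟩
  have hg : ∀ v : ℝ, ‖gmu μ v‖ ≤ C * Real.exp (-(B * v)) := fun v => (hC μ hμ v).2
  have hq1 : (1 : ℝ) ≤ (q : ℝ) := by exact_mod_cast hq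
  have hq0 : (0 : ℝ) < (q : ℝ) := by linarith
  set L : ℝ := Real.log q with hL
  have hL0 : 0 ≤ L := Real.log_nonneg hq1
  set Y : ℝ := (q : ℝ) ^ (1 / 2 + κ) with hY
  have hY0 : 0 < Y := Real.rpow_pos_of_pos hq0 _
  have hYL : Real.log Y = (1 / 2 + κ) * L := by rw [hY, Real.log_rpow hq0]
  set M : ℕ := ⌊Y⌋₊ with hM
  -- the series
  have h1 : D0 μ lam x = ∑' m : ℕ, ms0_T μ lam x m := rfl
  have hterm := ms0_term hl hC0 hg x
  have hs : Summable (fun m : ℕ => ms0_T μ lam x m) := by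
    refine Summable.of_norm_bounded
      (g := fun m : ℕ => C * Real.exp (-(B * x)) * (((0 + m : ℕ) : ℝ) + 1) ^ (-2 : ℝ))
      ((ms0_tsum 0).1.mul_left _) fun m => ?_
    refine (hterm m).trans (mul_le_mul_of_nonneg_left ?_ (by positivity))
    have hm0 : (0 : ℝ) < (m : ℝ) + 1 := by positivity
    rw [zero_add, Real.rpow_def_of_pos hm0, mul_comm (Real.log _)]
    refine Real.exp_le_exp.2 (mul_le_mul_of_nonneg_right (by linarith) (Real.log_nonneg ?_))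
    have : (0 : ℝ) ≤ (m : ℝ) := Nat.cast_nonneg _
    linarith
  have h2 := hs.sum_add_tsum_nat_add M
  have h3 : ∑ m ∈ Icc 1 M, lam m * rt m * gmu μ (x + Real.log m) =
      ∑ m ∈ range M, ms0_T μ lam x m := by
    have h4 : Icc 1 M = (range M).image (fun m => m + 1) := by
      ext a
      simp only [mem_Icc, mem_image, mem_range]
      constructor
      · rintro ⟨h1, h2⟩
        exact ⟨a - 1, by omega, by omega⟩
      · rintro ⟨b, hb, rfl⟩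
        omega
    rw [h4, sum_image (fun a _ b _ h => by simpa using h)]
    refine sum_congr rfl fun m _ => ?_
    unfold ms0_T rt
    push_cast
    rfl
  rw [h3, h1, ← h2, add_sub_cancel_left]
  obtain ⟨hs2, hs3⟩ := ms0_tsum M
  have hbound : ∀ j : ℕ, ‖ms0_T μ lam x (j + M)‖ ≤
      (((M + j : ℕ) : ℝ) + 1) ^ (-2 : ℝ) * (C * (q : ℝ) ^ (-R)) := by
    intro j
    have hcast : (((j + M : ℕ) : ℝ)) = ((M + j : ℕ) : ℝ) := by rw [add_comm]
    refine (hterm (j + M)).trans ?_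
    rw [hcast]
    set m : ℝ := ((M + j : ℕ) : ℝ) + 1 with hm
    have hm1 : 1 ≤ m := by
      have : (0 : ℝ) ≤ ((M + j : ℕ) : ℝ) := Nat.cast_nonneg _
      linarith
    have hm0 : 0 < m := by linarith
    have hmY : Y < m := by
      have h3 := Nat.lt_floor_add_one Y
      rw [← hM] at h3
      have h4 : (M : ℝ) ≤ ((M + j : ℕ) : ℝ) := by exact_mod_cast Nat.le_add_right M j
      linarith
    have hlm : (1 / 2 + κ) * L < Real.log m := by
      rw [← hYL]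
      exact Real.log_lt_log hY0 hmY
    rw [Real.rpow_def_of_pos hm0, Real.rpow_def_of_pos hq0, ← hL, mul_assoc, ← Real.exp_add,
      mul_left_comm, ← Real.exp_add]
    refine mul_le_mul_of_nonneg_left (Real.exp_le_exp.2 ?_) hC0
    set lm : ℝ := Real.log m with hlm'
    have h9 : (B - n - 2) * ((1 / 2 + κ) * L) ≤ (B - n - 2) * lm :=
      mul_le_mul_of_nonneg_left hlm.le (by linarith)
    have h10 : B * (-((1 / 2 + κ / 2) * L)) ≤ B * x := mul_le_mul_of_nonneg_left hx hB0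
    have h11 : (R + (1 / 2 + κ) * ((n : ℝ) + 2)) ≤ B * (κ / 2) := by
      have h12 := mul_le_mul_of_nonneg_right hB2 (by positivity : 0 ≤ κ / 2)
      have h13 : 2 / κ * (R + (1 / 2 + κ) * ((n : ℝ) + 2)) * (κ / 2) =
          R + (1 / 2 + κ) * ((n : ℝ) + 2) := by
        field_simp
      linarith
    have h12 := mul_le_mul_of_nonneg_right h11 hL0
    nlinarith
  have h5 : ‖∑' j : ℕ, ms0_T μ lam x (j + M)‖ ≤
      ∑' j : ℕ, (((M + j : ℕ) : ℝ) + 1) ^ (-2 : ℝ) * (C * (q : ℝ) ^ (-R)) :=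
    tsum_of_norm_bounded (hs2.mul_right _).hasSum hbound
  refine h5.trans ?_
  rw [tsum_mul_right]
  have h6 : 0 ≤ C * (q : ℝ) ^ (-R) := mul_nonneg hC0 (Real.rpow_nonneg hq0.le _)
  calc _ ≤ 2 * (C * (q : ℝ) ^ (-R)) := mul_le_mul_of_nonneg_right hs3 h6
    _ = _ := by ring


end

end Pool.Agent.BX

namespace Pool.Agent.BX

theorem D0_trunc : type_of% @D0_trunc_pr := @D0_trunc_pr

end Pool.Agent.BX
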