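import Pool.Agent.Lib_helper61.BXF.MSG

/-!
# Block MS1: the mean square of `hh`
-/

set_option autoImplicit false

namespace Pool.Agent.BX

open MeasureTheory Complex Finset
open Pool.Agent.SGN
open Pool.Agent.QG (ew)
open scoped ENNReal

noncomputable section

private lemma ms1_psi (t : ℝ) (σ : ℝ) (m k : ℕ) :
    ‖cexp (-(t * (Real.log m + σ * Real.log k) * I))‖ = 1 := by
  rw [show (-(t * (Real.log m + σ * Real.log k) * I) : ℂ) =
    ((-(t * (Real.log m + σ * Real.log k)) : ℝ) : ℂ) * I by push_cast; ring]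
  exact Complex.norm_exp_ofReal_mul_I _

private lemma ms1_rt (k : ℕ) : (starRingEnd ℂ) (rt k) = rt k := by
  unfold rt; exact Complex.conj_ofReal _

private lemma ms1_flip {n : ℕ} (μ : Fin n → ℂ) (lam : ℕ → ℂ) (q : ℕ) (e : ℂ)
    (he : FEq q μ lam e) (c : ℕ → ℂ) (y : ℕ) (x : ℝ) :
    ‖MG μ lam c 1 y x‖ = ‖MG μ lam (fun k => (starRingEnd ℂ) (c k)) (-1) y
      (-x - Real.log q)‖ := by
  have h : MG μ lam c 1 y x = e * (starRingEnd ℂ) (MG μ lam (fun k => (starRingEnd ℂ) (c k)) (-1) y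
      (-x - Real.log q)) := by
    unfold MG
    rw [map_sum, Finset.mul_sum]
    apply Finset.sum_congr rfl
    intro k _
    rw [he.2 (x + 1 * Real.log k)]
    rw [map_mul, map_mul, ms1_rt, Complex.conj_conj]
    rw [show -(x + 1 * Real.log (k : ℝ)) - Real.log q = -x - Real.log q + -1 * Real.log (k : ℝ) by
      ring]
    ring
  rw [h, norm_mul, he.1, one_mul, Complex.norm_conj]

set_option maxHeartbeats 1000000

private lemma ms1_cw (ψ : ℕ → ℕ → ℂ) (hψ : ∀ m k, ‖ψ m k‖ ≤ 1) (m : ℕ) (hm : 1 ≤ m) (W : Wd)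
    (hW : 1 ≤ wt W) : ‖cw ψ m W‖ ≤ 1 * (m : ℝ) ^ (-(1 / 2) : ℝ) := by
  unfold cw
  have hm0 : (0 : ℝ) < m := by exact_mod_cast hm
  have hW0 : (1 : ℝ) ≤ wt W := by exact_mod_cast hW
  rw [norm_mul, norm_mul, norm_pow, norm_neg, norm_one, one_pow, one_mul, Complex.norm_real,
    Real.norm_eq_abs, abs_of_nonneg (by positivity)]
  apply mul_le_mul (hψ _ _) _ (by positivity) (by norm_num)
  apply Real.rpow_le_rpow_of_nonpos hm0 _ (by norm_num)
  nlinarith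

/-- MS1: the mean square of `hh` -/
theorem hh_ms_pr {n : ℕ} (hn : 2 ≤ n) (K : Set (Fin n → ℂ)) (hK : Kok K) (hC : HC n)
    (C₀ κ η δ : ℝ) (hC₀ : 0 < C₀) (hκ : 0 < κ) (hη : 0 < η) (hηκ : η < κ) (hκ' : κ < 1 / 4)
    (hδ : 0 < δ) :
    ∃ C A : ℝ, 0 ≤ C ∧ 0 ≤ A ∧ ∀ q : ℕ, q.Prime → 5 ≤ q →
      ∀ (β : Type) [Fintype β] (lam : β → ℕ → ℂ) (μ : β → Fin n → ℂ) (om : β → ℝ)
        (e : β → ℂ), (∀ b, μ b ∈ K) → (∀ b, Triv n (lam b)) →
      (∀ b, FEq q (μ b) (lam b) (e b)) → (Fintype.card β : ℝ) ≤ C₀ * (q : ℝ) ^ (n : ℝ) →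
      LS n q lam om C₀ κ η δ → ∀ x : ℝ,
        ∑ b, om b * ‖hh (μ b) (lam b) ⌊(q : ℝ) ^ (η / 3)⌋₊ x‖ ^ 2 ≤
          C * Real.log q ^ A * (q : ℝ) ^ (n : ℝ) := by
  obtain ⟨C₁, A, hC₁, hA, hHC⟩ := hC
  obtain ⟨CM, hCM, hMG⟩ := MG_ms hn K hK κ hκ C₀ hC₀.le
  obtain ⟨c₀, hc₀, hgB⟩ := gmu_bd K hK
  obtain ⟨Cg, hCg, hg⟩ := hgB 0 le_rfl
  refine ⟨2 * CM * (C₀ * C₁ + C₀ + 1) + 2 * Cg ^ 2 * C₀, A, by positivity, hA, ?_⟩
  intro q hqp hq5 β _ lam μ om e hμ htriv hfe hcard hLS x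
  have hq5R : (5 : ℝ) ≤ q := by exact_mod_cast hq5
  have hq1 : (1 : ℝ) ≤ q := by linarith
  have hq0 : (0 : ℝ) < q := by linarith
  have hlog : 1 ≤ Real.log q := by
    have h3 : Real.exp 1 ≤ q := by linarith [Real.exp_one_lt_d9]
    rw [← Real.log_exp 1]
    exact Real.log_le_log (Real.exp_pos 1) h3
  have hlog0 : 0 ≤ Real.log q := by linarith
  set N : ℕ := ⌊(q : ℝ) ^ (1 / 2 + κ)⌋₊ with hN
  set y : ℕ := ⌊(q : ℝ) ^ (η / 3)⌋₊ with hy
  have hyR : (y : ℝ) ≤ (q : ℝ) ^ (η / 3) := Nat.floor_le (by positivity)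
  have hNR : (N : ℝ) ≤ (q : ℝ) ^ (1 / 2 + κ) := Nat.floor_le (by positivity)
  have hy1 : 1 ≤ y := by
    rw [hy]; apply Nat.le_floor
    simpa using Real.one_le_rpow hq1 (by positivity)
  have hN2 : 2 ≤ N := by
    rw [hN]; apply Nat.le_floor
    have h1 : (q : ℝ) ^ (1 / 2 : ℝ) ≤ (q : ℝ) ^ (1 / 2 + κ) :=
      Real.rpow_le_rpow_of_exponent_le hq1 (by linarith)
    have h2 : (2 : ℝ) ≤ (q : ℝ) ^ (1 / 2 : ℝ) := by
      rw [← Real.sqrt_eq_rpow]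
      apply Real.le_sqrt_of_sq_le; linarith
    push_cast; linarith
  have hyR1 : (1 : ℝ) ≤ y := by exact_mod_cast hy1
  have hNR1 : (2 : ℝ) ≤ N := by exact_mod_cast hN2
  have hlogy : Real.log y ≤ η / 3 * Real.log q := by
    rw [← Real.log_rpow hq0]
    exact Real.log_le_log (by linarith) hyR
  have hlogN : Real.log N ≤ (1 / 2 + κ) * Real.log q := by
    rw [← Real.log_rpow hq0]
    exact Real.log_le_log (by linarith) hNR
  have hlogy' : Real.log y ≤ κ / 2 * Real.log q := by nlinarith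
  have hyq : y < q := by
    have h1 : (q : ℝ) ^ (η / 3) < (q : ℝ) ^ (1 : ℝ) :=
      Real.rpow_lt_rpow_of_exponent_lt (by linarith) (by linarith)
    rw [Real.rpow_one] at h1
    exact_mod_cast lt_of_le_of_lt hyR h1
  obtain ⟨hVA, hVB, hVok⟩ := V_ok y
  have hom := hLS.1
  have hsum0 : 0 ≤ Real.log N + Real.log y :=
    add_nonneg (Real.log_nonneg (by linarith)) (Real.log_nonneg hyR1)
  have hsum : Real.log N + Real.log y ≤ Real.log q := by nlinarith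
  have hqn1 : (1 : ℝ) ≤ (q : ℝ) ^ (n : ℝ) := Real.one_le_rpow hq1 (by positivity)
  have hLA1 : 1 ≤ Real.log q ^ A := Real.one_le_rpow hlog hA
  have hqδ : (q : ℝ) ^ (-δ) ≤ 1 := by
    apply Real.rpow_le_one_of_one_le_of_nonpos hq1; linarith
  have hlargesieve : ∀ (V : Finset Wd), (V.card ≤ y ^ 3) → (∀ W ∈ V, W ∈ VA y ∪ VB y) →
      ∀ ψ : ℕ → ℕ → ℂ, (∀ m k, ‖ψ m k‖ ≤ 1) →
      unrm n N V (cw ψ) ≤ C₁ * (Real.log N + Real.log y) ^ A →
      ∑ b, om b * ‖xval N V (cw ψ) (lam b)‖ ^ 2 ≤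
        C₀ * (q : ℝ) ^ (n : ℝ) * (C₁ * Real.log q ^ A + 1) := by
    intro V hVc hVs ψ hψ hun
    have hq3 : ((q : ℝ) ^ (η / 3)) ^ 3 = (q : ℝ) ^ η := by
      rw [← Real.rpow_natCast, ← Real.rpow_mul hq0.le]; congr 1; push_cast; ring
    have h1 := hLS.2.2 V 1 (cw ψ) zero_le_one (by
      calc (V.card : ℝ) ≤ ((y ^ 3 : ℕ) : ℝ) := by exact_mod_cast hVc
        _ = (y : ℝ) ^ 3 := by push_cast; ring
        _ ≤ ((q : ℝ) ^ (η / 3)) ^ 3 := pow_le_pow_left₀ (by linarith) hyR 3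
        _ = _ := hq3) (by
      intro W hW
      obtain ⟨w1, w2, w3⟩ := hVok W (hVs W hW)
      refine ⟨w3 q hqp hyq, ?_⟩
      calc ((wt W : ℕ) : ℝ) ≤ (y : ℝ) := by exact_mod_cast w2
        _ ≤ (q : ℝ) ^ (η / 3) := hyR
        _ ≤ (q : ℝ) ^ η := Real.rpow_le_rpow_of_exponent_le hq1 (by linarith)) (by
      intro m hm W hW
      obtain ⟨w1, w2, w3⟩ := hVok W (hVs W hW)
      exact ms1_cw ψ hψ m (Finset.mem_Icc.mp hm).1 W w1)
    refine le_trans h1 ?_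
    apply mul_le_mul_of_nonneg_left _ (by positivity)
    have h2 : (Real.log N + Real.log y) ^ A ≤ Real.log q ^ A :=
      Real.rpow_le_rpow hsum0 hsum hA
    have h3 : unrm n N V (cw ψ) ≤ C₁ * Real.log q ^ A :=
      le_trans hun (mul_le_mul_of_nonneg_left h2 hC₁.le)
    rw [one_pow, one_mul]
    linarith
  set M : ℝ := C₀ * (q : ℝ) ^ (n : ℝ) * (C₁ * Real.log q ^ A + 1) with hM
  have hcb : ∀ b, ∀ k : ℕ, 1 ≤ k → ‖minv (lam b) k‖ ≤ (k : ℝ) ^ (n + 2) :=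
    fun b k hk => minv_bd (lam b) (htriv b) k hk
  have hMGx : ∑ b, om b * ‖MG (μ b) (lam b) (minv (lam b)) 1 y x‖ ^ 2 ≤ CM * (M + 1) := by
    rcases le_total (-(Real.log q / 2)) x with hx | hx
    · apply hMG q y (by omega) hy1 hlogy' β om hom hcard μ lam (fun b => minv (lam b)) hμ htriv hcb
        1 (by norm_num) M _ x hx
      intro τ
      have hA1 := hlargesieve (VA y) hVA (fun W hW => Finset.mem_union_left _ hW)
        (fun m k => cexp (-(τ * (Real.log m + (1 : ℝ) * Real.log k) * I)))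
        (fun m k => (ms1_psi τ 1 m k).le) (hHC N y hN2 hy1 _ (fun m k => (ms1_psi τ 1 m k).le)).1
      simp only [xval_A] at hA1
      exact hA1
    · have hflip : ∀ b, ‖MG (μ b) (lam b) (minv (lam b)) 1 y x‖ =
          ‖MG (μ b) (lam b) (fun k => (starRingEnd ℂ) (minv (lam b) k)) (-1) y
            (-x - Real.log q)‖ :=
        fun b => ms1_flip (μ b) (lam b) q (e b) (hfe b) _ y x
      simp only [hflip]
      apply hMG q y (by omega) hy1 hlogy' β om hom hcard μ lam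
        (fun b k => (starRingEnd ℂ) (minv (lam b) k)) hμ htriv
        (fun b k hk => by rw [Complex.norm_conj]; exact hcb b k hk)
        (-1) (by norm_num) M _ (-x - Real.log q) (by linarith)
      intro τ
      have hB1 := hlargesieve (VB y) hVB (fun W hW => Finset.mem_union_right _ hW)
        (fun m k => cexp (-(τ * (Real.log m + ((-1 : ℝ) : ℂ) * Real.log k) * I)))
        (fun m k => (ms1_psi τ (-1) m k).le)
        (hHC N y hN2 hy1 _ (fun m k => (ms1_psi τ (-1) m k).le)).2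
      simp only [xval_B] at hB1
      exact hB1
  have hgx : ∀ b, ‖gmu (μ b) x‖ ≤ Cg := by
    intro b
    have := (hg (μ b) (hμ b) x).2
    simpa using this
  have hterm : ∀ b, om b * ‖hh (μ b) (lam b) y x‖ ^ 2 ≤
      2 * (om b * ‖MG (μ b) (lam b) (minv (lam b)) 1 y x‖ ^ 2) + 2 * Cg ^ 2 := by
    intro b
    have h1 : ‖hh (μ b) (lam b) y x‖ ≤ ‖MG (μ b) (lam b) (minv (lam b)) 1 y x‖ + Cg := by
      unfold hh
      exact le_trans (norm_sub_le _ _) (by linarith [hgx b])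
    have h2 : ‖hh (μ b) (lam b) y x‖ ^ 2 ≤
        2 * ‖MG (μ b) (lam b) (minv (lam b)) 1 y x‖ ^ 2 + 2 * Cg ^ 2 := by
      have h3 := pow_le_pow_left₀ (norm_nonneg _) h1 2
      nlinarith [sq_nonneg (‖MG (μ b) (lam b) (minv (lam b)) 1 y x‖ - Cg)]
    have h4 := mul_le_mul_of_nonneg_left h2 (hom b).1
    have h5 : om b * (2 * Cg ^ 2) ≤ 1 * (2 * Cg ^ 2) :=
      mul_le_mul_of_nonneg_right (hom b).2 (by positivity)
    linarith
  have hfin : ∑ b, om b * ‖hh (μ b) (lam b) y x‖ ^ 2 ≤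
      2 * (CM * (M + 1)) + (Fintype.card β : ℝ) * (2 * Cg ^ 2) := by
    calc ∑ b, om b * ‖hh (μ b) (lam b) y x‖ ^ 2
        ≤ ∑ b, (2 * (om b * ‖MG (μ b) (lam b) (minv (lam b)) 1 y x‖ ^ 2) + 2 * Cg ^ 2) :=
          Finset.sum_le_sum fun b _ => hterm b
      _ = 2 * ∑ b, (om b * ‖MG (μ b) (lam b) (minv (lam b)) 1 y x‖ ^ 2) +
          (Fintype.card β : ℝ) * (2 * Cg ^ 2) := by
          rw [Finset.sum_add_distrib, ← Finset.mul_sum]
          simp [Finset.card_univ]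
      _ ≤ _ := by linarith
  refine le_trans hfin ?_
  have hQ0 : 0 ≤ (q : ℝ) ^ (n : ℝ) := by positivity
  set Q := (q : ℝ) ^ (n : ℝ) with hQ
  set LA := Real.log q ^ A with hLA
  have hLA0 : 0 ≤ LA := by linarith
  have hM1 : M + 1 ≤ (C₀ * C₁ + C₀ + 1) * LA * Q := by
    have e1 : M = C₀ * C₁ * LA * Q + C₀ * Q := by rw [hM]; ring
    have e2 : C₀ * Q ≤ C₀ * LA * Q := by
      have : C₀ * Q * 1 ≤ C₀ * Q * LA := mul_le_mul_of_nonneg_left hLA1 (by positivity)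
      linarith
    have e3 : (1 : ℝ) ≤ LA * Q := by nlinarith
    rw [e1]; nlinarith
  have hM2 : CM * (M + 1) ≤ CM * ((C₀ * C₁ + C₀ + 1) * LA * Q) :=
    mul_le_mul_of_nonneg_left hM1 hCM
  have hM3 : (Fintype.card β : ℝ) * (2 * Cg ^ 2) ≤ 2 * Cg ^ 2 * C₀ * LA * Q := by
    calc (Fintype.card β : ℝ) * (2 * Cg ^ 2) ≤ (C₀ * Q) * (2 * Cg ^ 2) :=
          mul_le_mul_of_nonneg_right hcard (by positivity)
      _ = 2 * Cg ^ 2 * C₀ * Q * 1 := by ring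
      _ ≤ 2 * Cg ^ 2 * C₀ * Q * LA := mul_le_mul_of_nonneg_left hLA1 (by positivity)
      _ = _ := by ring
  calc 2 * (CM * (M + 1)) + (Fintype.card β : ℝ) * (2 * Cg ^ 2)
      ≤ 2 * (CM * ((C₀ * C₁ + C₀ + 1) * LA * Q)) + 2 * Cg ^ 2 * C₀ * LA * Q := by linarith
    _ = _ := by ring


end

end Pool.Agent.BX

namespace Pool.Agent.BX

theorem hh_ms : type_of% @hh_ms_pr := @hh_ms_pr

end Pool.Agent.BX
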