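import Pool.Agent.Lib_helper61.BXF.MSK

/-! # BX, block MSG: the mean square of `MG` -/

set_option autoImplicit false

namespace Pool.Agent.BX

open MeasureTheory Complex Finset
open Pool.Agent.SGN
open Pool.Agent.QG (ew)
open scoped ENNReal

noncomputable section

theorem msg_rt_le {k : ℕ} (hk : 1 ≤ k) : ‖rt k‖ ≤ 1 := by
  unfold rt
  rw [Complex.norm_real, Real.norm_eq_abs, abs_of_nonneg (by positivity)]
  refine Real.rpow_le_one_of_one_le_of_nonpos ?_ (by norm_num)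
  exact_mod_cast hk

/-- the error term of one form -/
theorem msg_err {n : ℕ} (κ : ℝ) {C : ℝ} (hC : 0 ≤ C) {q y : ℕ} (hq : 2 ≤ q) (hy : 1 ≤ y)
    (hyq : Real.log y ≤ κ / 2 * Real.log q) (c : ℕ → ℂ)
    (hc : ∀ k : ℕ, 1 ≤ k → ‖c k‖ ≤ (k : ℝ) ^ (n + 2)) (E : ℕ → ℂ) (R : ℝ)
    (hE : ∀ k ∈ Icc 1 y, ‖E k‖ ≤ C * (q : ℝ) ^ (-R)) :
    ‖∑ k ∈ Icc 1 y, c k * rt k * E k‖ ≤ C * (q : ℝ) ^ (κ * (n + 3) / 2 - R) := by
  have hq0 : (0 : ℝ) < q := by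
    have : (2 : ℝ) ≤ q := by exact_mod_cast hq
    linarith
  have hy0 : (0 : ℝ) < y := by
    have : (1 : ℝ) ≤ y := by exact_mod_cast hy
    linarith
  have hyq' : (y : ℝ) ≤ (q : ℝ) ^ (κ / 2) := by
    rw [← Real.log_le_log_iff hy0 (Real.rpow_pos_of_pos hq0 _), Real.log_rpow hq0]
    exact hyq
  have h1 : ∀ k ∈ Icc 1 y, ‖c k * rt k * E k‖ ≤ (y : ℝ) ^ (n + 2) * (C * (q : ℝ) ^ (-R)) := by
    intro k hk
    obtain ⟨hk1, hk2⟩ := mem_Icc.1 hk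
    rw [norm_mul, norm_mul]
    have e1 : ‖c k‖ ≤ (y : ℝ) ^ (n + 2) := (hc k hk1).trans
      (pow_le_pow_left₀ (Nat.cast_nonneg _) (by exact_mod_cast hk2) _)
    have e2 := msg_rt_le hk1
    have e3 := hE k hk
    have e4 : ‖c k‖ * ‖rt k‖ ≤ (y : ℝ) ^ (n + 2) := by
      calc ‖c k‖ * ‖rt k‖ ≤ ‖c k‖ * 1 := mul_le_mul_of_nonneg_left e2 (norm_nonneg _)
        _ ≤ _ := by rw [mul_one]; exact e1
    exact mul_le_mul e4 e3 (norm_nonneg _) (by positivity)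
  calc ‖∑ k ∈ Icc 1 y, c k * rt k * E k‖ ≤ ∑ k ∈ Icc 1 y, ‖c k * rt k * E k‖ := norm_sum_le _ _
    _ ≤ ∑ _k ∈ Icc 1 y, (y : ℝ) ^ (n + 2) * (C * (q : ℝ) ^ (-R)) := sum_le_sum h1
    _ = (y : ℝ) ^ (n + 3) * (C * (q : ℝ) ^ (-R)) := by
        rw [sum_const, Nat.card_Icc, nsmul_eq_mul, Nat.add_sub_cancel]
        ring
    _ ≤ ((q : ℝ) ^ (κ / 2)) ^ (n + 3) * (C * (q : ℝ) ^ (-R)) :=
        mul_le_mul_of_nonneg_right (pow_le_pow_left₀ hy0.le hyq' _) (by positivity)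
    _ = C * (q : ℝ) ^ (κ * (n + 3) / 2 - R) := by
        rw [← Real.rpow_natCast ((q : ℝ) ^ (κ / 2)), ← Real.rpow_mul hq0.le, sub_eq_add_neg,
          Real.rpow_add hq0]
        push_cast
        rw [show κ / 2 * ((n : ℝ) + 3) = κ * (n + 3) / 2 by ring]
        ring

/-- MSG: the mean square of `MG` from the mean square of the Dirichlet polynomials -/
theorem MG_ms_pr {n : ℕ} (hn : 2 ≤ n) (K : Set (Fin n → ℂ)) (hK : Kok K) (κ : ℝ) (hκ : 0 < κ)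
    (C₀ : ℝ) (hC₀ : 0 ≤ C₀) : ∃ C : ℝ, 0 ≤ C ∧ ∀ (q y : ℕ), 2 ≤ q → 1 ≤ y →
      Real.log y ≤ κ / 2 * Real.log q →
      ∀ (β : Type) [Fintype β] (om : β → ℝ), (∀ b, 0 ≤ om b ∧ om b ≤ 1) →
      (Fintype.card β : ℝ) ≤ C₀ * (q : ℝ) ^ (n : ℝ) →
      ∀ (μ : β → Fin n → ℂ) (lam c : β → ℕ → ℂ), (∀ b, μ b ∈ K) → (∀ b, Triv n (lam b)) →
      (∀ b, ∀ k : ℕ, 1 ≤ k → ‖c b k‖ ≤ (k : ℝ) ^ (n + 2)) → ∀ σ : ℝ, |σ| ≤ 1 → ∀ M : ℝ,
      (∀ τ : ℝ, ∑ b, om b * ‖∑ m ∈ Icc 1 ⌊(q : ℝ) ^ (1 / 2 + κ)⌋₊, ∑ k ∈ Icc 1 y,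
        cexp (-(τ * (Real.log m + σ * Real.log k) * I)) * rt m * rt k * lam b m * c b k‖ ^ 2
          ≤ M) →
      ∀ x : ℝ, -(Real.log q / 2) ≤ x →
        ∑ b, om b * ‖MG (μ b) (lam b) (c b) σ y x‖ ^ 2 ≤ C * (M + 1) := by
  set R : ℝ := ((n : ℝ) + κ * (n + 3)) / 2 with hR
  obtain ⟨C1, hC1, h1⟩ := kernel_ms hn K hK
  obtain ⟨C2, hC2, h2⟩ := D0_trunc K hK κ R hκ
  refine ⟨2 * C1 + 2 * C₀ * C2 ^ 2, by positivity, ?_⟩
  intro q y hq hy hyq β _ om hom hcard μ lam c hμ hlam hc σ hσ M hM x hx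
  have hq1 : 1 ≤ q := by omega
  have hq0 : (0 : ℝ) < q := by
    have : (2 : ℝ) ≤ q := by exact_mod_cast hq
    linarith
  have hM0 : 0 ≤ M := le_trans (sum_nonneg fun b _ => mul_nonneg (hom b).1 (sq_nonneg _)) (hM 0)
  have hlogk : ∀ k ∈ Icc 1 y, -((1 / 2 + κ / 2) * Real.log q) ≤ x + σ * Real.log k := by
    intro k hk
    obtain ⟨hk1, hk2⟩ := mem_Icc.1 hk
    have e1 : 0 ≤ Real.log k := Real.log_natCast_nonneg k
    have e2 : Real.log k ≤ Real.log y :=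
      Real.log_le_log (by exact_mod_cast hk1) (by exact_mod_cast hk2)
    have e3 : -Real.log k ≤ σ * Real.log k := by
      have := (abs_le.1 hσ).1
      nlinarith
    linarith
  set N := ⌊(q : ℝ) ^ (1 / 2 + κ)⌋₊ with hN
  -- the error
  set E : β → ℕ → ℂ := fun b k => D0 (μ b) (lam b) (x + σ * Real.log k) -
    ∑ m ∈ Icc 1 N, lam b m * rt m * gmu (μ b) (x + σ * Real.log k + Real.log m) with hE
  set Mn : β → ℂ := fun b => ∑ j ∈ Icc 1 N ×ˢ Icc 1 y,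
    (rt j.1 * rt j.2 * lam b j.1 * c b j.2) *
      gmu (μ b) (x + (Real.log j.1 + σ * Real.log j.2)) with hMn
  have hsplit : ∀ b, MG (μ b) (lam b) (c b) σ y x = Mn b + ∑ k ∈ Icc 1 y, c b k * rt k * E b k := by
    intro b
    unfold MG
    rw [hMn]
    simp only
    rw [sum_product_right, ← sum_add_distrib]
    refine sum_congr rfl fun k _ => ?_
    rw [hE]
    simp only
    rw [mul_sub, mul_sum]
    have : ∑ m ∈ Icc 1 N, rt m * rt k * lam b m * c b k *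
        gmu (μ b) (x + (Real.log m + σ * Real.log k)) =
        ∑ m ∈ Icc 1 N, c b k * rt k *
          (lam b m * rt m * gmu (μ b) (x + σ * Real.log k + Real.log m)) := by
      refine sum_congr rfl fun m _ => ?_
      rw [show x + (Real.log m + σ * Real.log k) = x + σ * Real.log k + Real.log m by ring]
      ring
    rw [this]
    ring
  have hEb : ∀ b, ∀ k ∈ Icc 1 y, ‖E b k‖ ≤ C2 * (q : ℝ) ^ (-R) := fun b k hk =>
    h2 (μ b) (hμ b) (lam b) (hlam b) q hq1 (x + σ * Real.log k) (hlogk k hk)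
  have herr : ∀ b, ‖∑ k ∈ Icc 1 y, c b k * rt k * E b k‖ ^ 2 ≤
      C2 ^ 2 * (q : ℝ) ^ (-(n : ℝ)) := by
    intro b
    have h3 := msg_err (n := n) κ hC2 hq hy hyq (c b) (hc b) (E b) R (hEb b)
    calc ‖∑ k ∈ Icc 1 y, c b k * rt k * E b k‖ ^ 2
        ≤ (C2 * (q : ℝ) ^ (κ * (n + 3) / 2 - R)) ^ 2 := pow_le_pow_left₀ (norm_nonneg _) h3 2
      _ = C2 ^ 2 * (q : ℝ) ^ (-(n : ℝ)) := by
          rw [mul_pow, ← Real.rpow_natCast ((q : ℝ) ^ (κ * (n + 3) / 2 - R)),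
            ← Real.rpow_mul hq0.le]
          congr 2
          rw [hR]
          push_cast
          ring
  have hmain : ∑ b, om b * ‖Mn b‖ ^ 2 ≤ C1 * M := by
    refine h1 β om (fun b => (hom b).1) μ hμ (ℕ × ℕ) (Icc 1 N ×ˢ Icc 1 y)
      (fun b j => rt j.1 * rt j.2 * lam b j.1 * c b j.2)
      (fun j => Real.log j.1 + σ * Real.log j.2) M (fun τ => ?_) x
    refine le_trans (le_of_eq ?_) (hM τ)
    refine sum_congr rfl fun b _ => ?_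
    congr 3
    rw [sum_product]
    refine sum_congr rfl fun m _ => sum_congr rfl fun k _ => ?_
    push_cast
    ring
  have htot : ∀ b, om b * ‖MG (μ b) (lam b) (c b) σ y x‖ ^ 2 ≤
      2 * (om b * ‖Mn b‖ ^ 2) + 2 * (C2 ^ 2 * (q : ℝ) ^ (-(n : ℝ))) := by
    intro b
    rw [hsplit b]
    set u := Mn b
    set v := ∑ k ∈ Icc 1 y, c b k * rt k * E b k with hv
    have e1 : ‖u + v‖ ^ 2 ≤ 2 * ‖u‖ ^ 2 + 2 * ‖v‖ ^ 2 := by
      have h3 := norm_add_le u v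
      have h4 : ‖u + v‖ ^ 2 ≤ (‖u‖ + ‖v‖) ^ 2 := pow_le_pow_left₀ (norm_nonneg _) h3 2
      nlinarith [sq_nonneg (‖u‖ - ‖v‖)]
    have e2 : om b * ‖u + v‖ ^ 2 ≤ om b * (2 * ‖u‖ ^ 2 + 2 * ‖v‖ ^ 2) :=
      mul_le_mul_of_nonneg_left e1 (hom b).1
    have e3 : om b * ‖v‖ ^ 2 ≤ C2 ^ 2 * (q : ℝ) ^ (-(n : ℝ)) := by
      calc om b * ‖v‖ ^ 2 ≤ 1 * ‖v‖ ^ 2 := mul_le_mul_of_nonneg_right (hom b).2 (sq_nonneg _)
        _ ≤ _ := by rw [one_mul]; exact herr b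
    linarith
  have hfin : ∑ b, om b * ‖MG (μ b) (lam b) (c b) σ y x‖ ^ 2 ≤
      2 * (C1 * M) + 2 * (C₀ * C2 ^ 2) := by
    calc ∑ b, om b * ‖MG (μ b) (lam b) (c b) σ y x‖ ^ 2
        ≤ ∑ b, (2 * (om b * ‖Mn b‖ ^ 2) + 2 * (C2 ^ 2 * (q : ℝ) ^ (-(n : ℝ)))) :=
          sum_le_sum fun b _ => htot b
      _ = 2 * ∑ b, om b * ‖Mn b‖ ^ 2 +
          (Fintype.card β : ℝ) * (2 * (C2 ^ 2 * (q : ℝ) ^ (-(n : ℝ)))) := by
          rw [sum_add_distrib, ← mul_sum, sum_const, card_univ, nsmul_eq_mul]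
      _ ≤ 2 * (C1 * M) +
          (C₀ * (q : ℝ) ^ (n : ℝ)) * (2 * (C2 ^ 2 * (q : ℝ) ^ (-(n : ℝ)))) :=
          add_le_add (mul_le_mul_of_nonneg_left hmain (by norm_num))
            (mul_le_mul_of_nonneg_right hcard (by positivity))
      _ = 2 * (C1 * M) + 2 * (C₀ * C2 ^ 2) := by
          rw [Real.rpow_neg hq0.le]
          have : (q : ℝ) ^ (n : ℝ) ≠ 0 := (Real.rpow_pos_of_pos hq0 _).ne'
          field_simp
  nlinarith [mul_nonneg (mul_nonneg hC₀ (sq_nonneg C2)) hM0]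

end

end Pool.Agent.BX

namespace Pool.Agent.BX

theorem MG_ms : type_of% @MG_ms_pr := @MG_ms_pr

end Pool.Agent.BX
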