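import Pool.Agent.Lib_helper61.BXF.MS0

/-!
# Project BX, block MSK: separation of the variables
-/

set_option autoImplicit false

namespace Pool.Agent.BX

open MeasureTheory Complex Finset
open Pool.Agent.SGN
open Pool.Agent.QG (ew)
open scoped ENNReal

noncomputable section

/-- Cauchy-Schwarz with the weight `1/(1 + τ²)` -/
theorem msk_cs (g : ℝ → ℝ) (hg : Continuous g) (K : ℝ) (hb : ∀ τ, |g τ| ≤ K) :
    Integrable (fun τ : ℝ => (1 + τ ^ 2)⁻¹ * g τ ^ 2) ∧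
    Integrable (fun τ : ℝ => (1 + τ ^ 2)⁻¹ * g τ) ∧
    (∫ τ : ℝ, (1 + τ ^ 2)⁻¹ * g τ) ^ 2 ≤ Real.pi * ∫ τ : ℝ, (1 + τ ^ 2)⁻¹ * g τ ^ 2 := by
  have hw : Integrable fun τ : ℝ => (1 + τ ^ 2)⁻¹ := integrable_inv_one_add_sq
  have h1 : Integrable (fun τ : ℝ => (1 + τ ^ 2)⁻¹ * g τ) := by
    refine (hw.mul_bdd (c := K) hg.aestronglyMeasurable ?_)
    exact Filter.Eventually.of_forall fun τ => by rw [Real.norm_eq_abs]; exact hb τ
  have h2 : Integrable (fun τ : ℝ => (1 + τ ^ 2)⁻¹ * g τ ^ 2) := by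
    refine (hw.mul_bdd (c := K ^ 2) (hg.pow 2).aestronglyMeasurable ?_)
    exact Filter.Eventually.of_forall fun τ => by
      rw [Real.norm_eq_abs, abs_pow]
      exact pow_le_pow_left₀ (abs_nonneg _) (hb τ) 2
  refine ⟨h2, h1, ?_⟩
  set l : ℝ := (∫ τ : ℝ, (1 + τ ^ 2)⁻¹ * g τ) / Real.pi with hl
  have h3 : 0 ≤ ∫ τ : ℝ, (1 + τ ^ 2)⁻¹ * (g τ - l) ^ 2 :=
    integral_nonneg fun τ => by positivity
  have h4 : (fun τ : ℝ => (1 + τ ^ 2)⁻¹ * (g τ - l) ^ 2) = fun τ : ℝ =>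
      ((1 + τ ^ 2)⁻¹ * g τ ^ 2 - (2 * l) * ((1 + τ ^ 2)⁻¹ * g τ)) + l ^ 2 * (1 + τ ^ 2)⁻¹ := by
    funext τ
    ring
  have h6 : Integrable (fun τ : ℝ => (1 + τ ^ 2)⁻¹ * g τ ^ 2 -
      (2 * l) * ((1 + τ ^ 2)⁻¹ * g τ)) := h2.sub (h1.const_mul _)
  rw [h4, integral_add h6 (hw.const_mul _), integral_sub h2 (h1.const_mul _),
    integral_const_mul, integral_const_mul, integral_univ_inv_one_add_sq] at h3
  have hpi := Real.pi_pos
  have h5 : (∫ τ : ℝ, (1 + τ ^ 2)⁻¹ * g τ) = l * Real.pi := by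
    rw [hl]
    field_simp
  rw [h5] at h3 ⊢
  nlinarith

/-- continuity of the gamma factor on the line -/
theorem msk_cont {n : ℕ} (μ : Fin n → ℂ) (h : ∀ j, |(μ j).re| < 1 / 2) :
    Continuous fun τ : ℝ => gam μ (1 / 2 + τ * I) := by
  unfold gam
  refine continuous_finsetProd _ fun j _ => ?_
  have h1 : (fun τ : ℝ => Gammaℝ (1 / 2 + τ * I + μ j)) =
      fun τ : ℝ => ((fun s => (Gammaℝ s)⁻¹) (1 / 2 + τ * I + μ j))⁻¹ := by
    funext τ
    simp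
  rw [h1]
  refine Continuous.inv₀ ?_ ?_
  · exact differentiable_Gammaℝ_inv.continuous.comp (by fun_prop)
  · intro τ
    refine inv_ne_zero (Gammaℝ_ne_zero_of_re_pos ?_)
    have h2 := (abs_lt.mp (h j)).1
    have h3 : (1 / 2 + (τ : ℂ) * I + μ j).re = 1 / 2 + (μ j).re := by simp
    rw [h3]
    linarith

/-- VERBATIM `kernel_ms` -/
theorem kernel_ms_pr {n : ℕ} (hn : 2 ≤ n) (K : Set (Fin n → ℂ)) (hK : Kok K) :
    ∃ C : ℝ, 0 ≤ C ∧ ∀ (β : Type) [Fintype β] (om : β → ℝ), (∀ b, 0 ≤ om b) →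
      ∀ μ : β → Fin n → ℂ, (∀ b, μ b ∈ K) → ∀ (J : Type) (S : Finset J) (a : β → J → ℂ)
      (t : J → ℝ) (M : ℝ),
      (∀ τ : ℝ, ∑ b, om b * ‖∑ j ∈ S, a b j * cexp (-(τ * t j * I))‖ ^ 2 ≤ M) →
      ∀ x : ℝ, ∑ b, om b * ‖∑ j ∈ S, a b j * gmu (μ b) (x + t j)‖ ^ 2 ≤ C * M := by
  obtain ⟨C1, hC1, H1⟩ := gam_bd hn K hK
  refine ⟨C1 ^ 2, sq_nonneg _, ?_⟩
  intro β _ om hom μ hμ J S a t M hM x
  have hpi := Real.pi_pos
  -- the Dirichlet polynomials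
  set F : β → ℝ → ℂ := fun b τ => ∑ j ∈ S, a b j * cexp (-(τ * t j * I)) with hF
  have hFc : ∀ b, Continuous (F b) := by
    intro b
    rw [hF]
    simp only
    fun_prop
  have hexp : ∀ (τ v : ℝ), ‖cexp (-(τ * v * I))‖ = 1 := by
    intro τ v
    have h1 : -((τ : ℂ) * v * I) = ((-(τ * v) : ℝ) : ℂ) * I := by push_cast; ring
    rw [h1, Complex.norm_exp_ofReal_mul_I]
  have hFb : ∀ b τ, |‖F b τ‖| ≤ ∑ j ∈ S, ‖a b j‖ := by
    intro b τ
    rw [abs_norm, hF]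
    simp only
    refine (norm_sum_le _ _).trans (le_of_eq ?_)
    refine Finset.sum_congr rfl fun j _ => ?_
    rw [norm_mul, hexp, mul_one]
  have hcs := fun b => msk_cs (fun τ => ‖F b τ‖) (hFc b).norm _ (hFb b)
  -- the pointwise bound
  have hpt : ∀ b, ‖∑ j ∈ S, a b j * gmu (μ b) (x + t j)‖ ≤
      C1 / (2 * Real.pi) * ∫ τ : ℝ, (1 + τ ^ 2)⁻¹ * ‖F b τ‖ := by
    intro b
    have hb2 := hK.2 (μ b) (hμ b)
    have hgc := msk_cont (μ b) hb2
    have hgb : ∀ τ : ℝ, ‖gam (μ b) (1 / 2 + τ * I)‖ ≤ C1 * (1 + τ ^ 2)⁻¹ := by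
      intro τ
      rw [← div_eq_mul_inv]
      exact H1 (μ b) (hμ b) τ
    have hwi : Integrable fun τ : ℝ => C1 * (1 + τ ^ 2)⁻¹ := integrable_inv_one_add_sq.const_mul C1
    have hgi : Integrable fun τ : ℝ => gam (μ b) (1 / 2 + τ * I) :=
      hwi.mono' hgc.aestronglyMeasurable (Filter.Eventually.of_forall hgb)
    have hji : ∀ j, Integrable fun τ : ℝ =>
        gam (μ b) (1 / 2 + τ * I) * cexp (-(τ * ((x + t j : ℝ) : ℂ) * I)) := by
      intro j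
      refine hgi.mul_bdd (c := 1) ?_ ?_
      · exact Continuous.aestronglyMeasurable (by fun_prop)
      · exact Filter.Eventually.of_forall fun τ => (hexp τ (x + t j)).le
    have hsum : ∑ j ∈ S, a b j * gmu (μ b) (x + t j) = ((2 * Real.pi : ℝ) : ℂ)⁻¹ *
        ∫ τ : ℝ, gam (μ b) (1 / 2 + τ * I) * cexp (-(τ * x * I)) * F b τ := by
      have h1 : ∀ j ∈ S, a b j * gmu (μ b) (x + t j) = ((2 * Real.pi : ℝ) : ℂ)⁻¹ *
          ∫ τ : ℝ, a b j * (gam (μ b) (1 / 2 + τ * I) *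
            cexp (-(τ * ((x + t j : ℝ) : ℂ) * I))) := by
        intro j _
        rw [gmu_inv hn (μ b) hb2 (x + t j), integral_const_mul]
        ring
      rw [Finset.sum_congr rfl h1, ← Finset.mul_sum, ← integral_finsetSum]
      · congr 1
        refine integral_congr_ae (Filter.Eventually.of_forall fun τ => ?_)
        simp only
        rw [hF]
        simp only
        rw [Finset.mul_sum]
        refine Finset.sum_congr rfl fun j _ => ?_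
        have h2 : -((τ : ℂ) * ((x + t j : ℝ) : ℂ) * I) = -(τ * x * I) + -(τ * t j * I) := by
          push_cast
          ring
        rw [h2, Complex.exp_add]
        ring
      · intro j _
        exact (hji j).const_mul _
    rw [hsum, norm_mul, norm_inv, Complex.norm_real, Real.norm_eq_abs,
      abs_of_pos (by positivity : (0 : ℝ) < 2 * Real.pi)]
    have h3 : ‖∫ τ : ℝ, gam (μ b) (1 / 2 + τ * I) * cexp (-(τ * x * I)) * F b τ‖ ≤
        ∫ τ : ℝ, C1 * ((1 + τ ^ 2)⁻¹ * ‖F b τ‖) := by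
      refine norm_integral_le_of_norm_le ((hcs b).2.1.const_mul C1) ?_
      refine Filter.Eventually.of_forall fun τ => ?_
      rw [norm_mul, norm_mul, hexp, mul_one, ← mul_assoc]
      exact mul_le_mul_of_nonneg_right (hgb τ) (norm_nonneg _)
    rw [integral_const_mul] at h3
    calc (2 * Real.pi)⁻¹ * ‖∫ τ : ℝ, gam (μ b) (1 / 2 + τ * I) * cexp (-(τ * x * I)) * F b τ‖
        ≤ (2 * Real.pi)⁻¹ * (C1 * ∫ τ : ℝ, (1 + τ ^ 2)⁻¹ * ‖F b τ‖) :=
          mul_le_mul_of_nonneg_left h3 (by positivity)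
      _ = C1 / (2 * Real.pi) * ∫ τ : ℝ, (1 + τ ^ 2)⁻¹ * ‖F b τ‖ := by ring
  -- square and sum
  have hsq : ∀ b, om b * ‖∑ j ∈ S, a b j * gmu (μ b) (x + t j)‖ ^ 2 ≤
      (C1 / (2 * Real.pi)) ^ 2 * Real.pi *
        ∫ τ : ℝ, (1 + τ ^ 2)⁻¹ * (om b * ‖F b τ‖ ^ 2) := by
    intro b
    have h1 : ∫ τ : ℝ, (1 + τ ^ 2)⁻¹ * (om b * ‖F b τ‖ ^ 2) =
        om b * ∫ τ : ℝ, (1 + τ ^ 2)⁻¹ * ‖F b τ‖ ^ 2 := by
      rw [← integral_const_mul]
      refine integral_congr_ae (Filter.Eventually.of_forall fun τ => ?_)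
      simp only
      ring
    rw [h1]
    have h2 : ‖∑ j ∈ S, a b j * gmu (μ b) (x + t j)‖ ^ 2 ≤
        (C1 / (2 * Real.pi)) ^ 2 * (Real.pi * ∫ τ : ℝ, (1 + τ ^ 2)⁻¹ * ‖F b τ‖ ^ 2) := by
      calc ‖∑ j ∈ S, a b j * gmu (μ b) (x + t j)‖ ^ 2 ≤
          (C1 / (2 * Real.pi) * ∫ τ : ℝ, (1 + τ ^ 2)⁻¹ * ‖F b τ‖) ^ 2 :=
            pow_le_pow_left₀ (norm_nonneg _) (hpt b) 2
        _ = (C1 / (2 * Real.pi)) ^ 2 * (∫ τ : ℝ, (1 + τ ^ 2)⁻¹ * ‖F b τ‖) ^ 2 := by ring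
        _ ≤ _ := mul_le_mul_of_nonneg_left (hcs b).2.2 (sq_nonneg _)
    calc om b * ‖∑ j ∈ S, a b j * gmu (μ b) (x + t j)‖ ^ 2
        ≤ om b * ((C1 / (2 * Real.pi)) ^ 2 *
          (Real.pi * ∫ τ : ℝ, (1 + τ ^ 2)⁻¹ * ‖F b τ‖ ^ 2)) :=
          mul_le_mul_of_nonneg_left h2 (hom b)
      _ = _ := by ring
  refine (Finset.sum_le_sum fun b _ => hsq b).trans ?_
  rw [← Finset.mul_sum, ← integral_finsetSum]
  · have hM0 : 0 ≤ M := by
      refine le_trans ?_ (hM 0)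
      exact Finset.sum_nonneg fun b _ => mul_nonneg (hom b) (sq_nonneg _)
    have h1 : ∫ τ : ℝ, ∑ b, (1 + τ ^ 2)⁻¹ * (om b * ‖F b τ‖ ^ 2) ≤
        ∫ τ : ℝ, (1 + τ ^ 2)⁻¹ * M := by
      refine integral_mono_of_nonneg ?_ (integrable_inv_one_add_sq.mul_const M) ?_
      · exact Filter.Eventually.of_forall fun τ =>
          Finset.sum_nonneg fun b _ => mul_nonneg (by positivity)
            (mul_nonneg (hom b) (sq_nonneg _))
      · refine Filter.Eventually.of_forall fun τ => ?_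
        simp only
        rw [← Finset.mul_sum]
        exact mul_le_mul_of_nonneg_left (hM τ) (by positivity)
    rw [integral_mul_const, integral_univ_inv_one_add_sq] at h1
    calc (C1 / (2 * Real.pi)) ^ 2 * Real.pi *
          ∫ τ : ℝ, ∑ b, (1 + τ ^ 2)⁻¹ * (om b * ‖F b τ‖ ^ 2)
        ≤ (C1 / (2 * Real.pi)) ^ 2 * Real.pi * (Real.pi * M) :=
          mul_le_mul_of_nonneg_left h1 (by positivity)
      _ = C1 ^ 2 * M / 4 := by
          field_simp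
          ring
      _ ≤ C1 ^ 2 * M := by
          have : 0 ≤ C1 ^ 2 * M := by positivity
          linarith
  · intro b _
    have h1 : (fun τ : ℝ => (1 + τ ^ 2)⁻¹ * (om b * ‖F b τ‖ ^ 2)) =
        fun τ : ℝ => om b * ((1 + τ ^ 2)⁻¹ * ‖F b τ‖ ^ 2) := by
      funext τ
      ring
    rw [h1]
    exact (hcs b).1.const_mul _

end

end Pool.Agent.BX

namespace Pool.Agent.BX

theorem kernel_ms : type_of% @kernel_ms_pr := @kernel_ms_pr

end Pool.Agent.BX
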