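import Pool.Agent.Lib_helper61.BXF.LM456

/-!
# Block ZF: no zeros far to the right
-/

set_option autoImplicit false

namespace Pool.Agent.BX

open MeasureTheory Complex Finset
open Pool.Agent.SGN
open Pool.Agent.QG (ew)
open scoped ENNReal

noncomputable section

theorem zf_gam_ne {n : ℕ} (μ : Fin n → ℂ) (h : ∀ j, |(μ j).re| < 1 / 2) (s : ℂ)
    (hs : (n : ℝ) + 3 ≤ s.re) : gam μ s ≠ 0 := by
  unfold gam
  refine Finset.prod_ne_zero_iff.2 fun j _ => ?_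
  refine Complex.Gammaℝ_ne_zero_of_re_pos ?_
  have h1 := (abs_lt.1 (h j)).1
  have h2 : (0 : ℝ) ≤ n := Nat.cast_nonneg n
  rw [Complex.add_re]
  linarith

theorem zf_psum (N : ℕ) : ∑ i ∈ range N, (1 : ℝ) / (((i : ℝ) + 1) * (i + 2) * (i + 3)) =
    1 / 4 - 1 / (2 * ((N : ℝ) + 1) * (N + 2)) := by
  induction N with
  | zero => norm_num
  | succ N ih =>
    rw [Finset.sum_range_succ, ih]
    have h1 : (N : ℝ) + 1 ≠ 0 := by positivity
    have h2 : (N : ℝ) + 2 ≠ 0 := by positivity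
    have h3 : (N : ℝ) + 3 ≠ 0 := by positivity
    have h4 : (N : ℝ) + 1 + 1 ≠ 0 := by positivity
    have h5 : (N : ℝ) + 1 + 2 ≠ 0 := by positivity
    push_cast
    field_simp
    ring

theorem zf_term_le {n : ℕ} (lam : ℕ → ℂ) (hl : Triv n lam) (s : ℂ) (hs : (n : ℝ) + 3 ≤ s.re)
    (i : ℕ) : ‖LSeries.term lam s (i + 2)‖ ≤ 1 / (((i : ℝ) + 1) * (i + 2) * (i + 3)) := by
  have h0 : i + 2 ≠ 0 := by omega
  rw [LSeries.norm_term_eq, if_neg h0]
  have hm : (0 : ℝ) < (i : ℝ) + 2 := by positivity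
  have hm1 : (1 : ℝ) ≤ (i : ℝ) + 2 := by
    have : (0 : ℝ) ≤ i := Nat.cast_nonneg i
    linarith
  have hcast : ((i + 2 : ℕ) : ℝ) = (i : ℝ) + 2 := by push_cast; ring
  have h1 : ‖lam (i + 2)‖ ≤ ((i : ℝ) + 2) ^ n := by
    have := hl.2 (i + 2)
    rwa [hcast] at this
  have h2 : ((i : ℝ) + 2) ^ ((n : ℝ) + 3) ≤ ((i + 2 : ℕ) : ℝ) ^ s.re := by
    rw [hcast]
    exact Real.rpow_le_rpow_of_exponent_le hm1 hs
  have h3 : ((i : ℝ) + 2) ^ ((n : ℝ) + 3) = ((i : ℝ) + 2) ^ n * ((i : ℝ) + 2) ^ 3 := by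
    rw [Real.rpow_add hm, Real.rpow_natCast]
    congr 1
    exact_mod_cast Real.rpow_natCast ((i : ℝ) + 2) 3
  have h4 : (0 : ℝ) < ((i : ℝ) + 2) ^ n := by positivity
  have h5 : (0 : ℝ) < ((i : ℝ) + 2) ^ 3 := by positivity
  calc ‖lam (i + 2)‖ / ((i + 2 : ℕ) : ℝ) ^ s.re
      ≤ ((i : ℝ) + 2) ^ n / (((i : ℝ) + 2) ^ n * ((i : ℝ) + 2) ^ 3) := by
        rw [← h3]
        exact div_le_div₀ h4.le h1 (by rw [h3]; positivity) h2
    _ = 1 / ((i : ℝ) + 2) ^ 3 := by field_simp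
    _ ≤ 1 / (((i : ℝ) + 1) * (i + 2) * (i + 3)) := by
        have hi : (0 : ℝ) ≤ i := Nat.cast_nonneg i
        refine one_div_le_one_div_of_le (by positivity) ?_
        nlinarith

theorem zf_LS_ne {n : ℕ} (lam : ℕ → ℂ) (hl : Triv n lam) (s : ℂ) (hs : (n : ℝ) + 3 ≤ s.re)
    (hsum : LSeriesSummable lam s) : LSeries lam s ≠ 0 := by
  have h1 : Summable fun i => LSeries.term lam s (i + 2) := (summable_nat_add_iff 2).2 hsum
  have h2 : LSeries lam s = 1 + ∑' i, LSeries.term lam s (i + 2) := by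
    unfold LSeries
    rw [← hsum.sum_add_tsum_nat_add 2]
    congr 1
    rw [Finset.sum_range_succ, Finset.sum_range_one, LSeries.term_zero,
      LSeries.term_of_ne_zero one_ne_zero, hl.1]
    simp
  have h3 : ‖∑' i, LSeries.term lam s (i + 2)‖ ≤ 1 / 4 := by
    refine le_of_tendsto h1.hasSum.tendsto_sum_nat.norm (Filter.Eventually.of_forall fun N => ?_)
    refine (norm_sum_le _ _).trans ((Finset.sum_le_sum fun i _ => zf_term_le lam hl s hs i).trans ?_)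
    rw [zf_psum]
    have : (0 : ℝ) ≤ 1 / (2 * ((N : ℝ) + 1) * (N + 2)) := by positivity
    linarith
  intro h4
  rw [h2] at h4
  have h5 : ∑' i, LSeries.term lam s (i + 2) = -1 := by linear_combination h4
  rw [h5] at h3
  norm_num at h3


/-- ZF: no zeros far to the right -/
theorem Lap_ne_pr {n : ℕ} (hn : 1 ≤ n) (μ : Fin n → ℂ) (h : ∀ j, |(μ j).re| < 1 / 2)
    (lam : ℕ → ℂ) (hl : Triv n lam) (s : ℂ) (hs : (n : ℝ) + 3 ≤ s.re) :
    Lap (D0 μ lam) s ≠ 0 := by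
  obtain ⟨h1, -, h3⟩ := D0_lap hn μ h lam hl s (by linarith)
  rw [h3]
  exact mul_ne_zero (zf_gam_ne μ h s hs) (zf_LS_ne lam hl s hs h1)


end

end Pool.Agent.BX

namespace Pool.Agent.BX

theorem Lap_ne : type_of% @Lap_ne_pr := @Lap_ne_pr

end Pool.Agent.BX
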